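import Pool.Agent.Helper178.Cover

set_option linter.unusedVariables false

namespace Pool.Agent.Helper178.Trans

variable {X Y Z : Type}

theorem splice_point {M : Tr X Y} {a : X} {n : ℕ} {p q : M.Q} {v : List Y}
    (h : M.Path p (List.replicate n a) v q) (i : ℕ) (hi : i ≤ n) :
    ∃ (r : M.Q) (c : ℕ), c ≤ v.length ∧ M.Path p (List.replicate i a) (v.take c) r ∧
      M.Path r (List.replicate (n - i) a) (v.drop c) q := by
  have h1 : List.replicate n a = List.replicate i a ++ List.replicate (n - i) a := by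
    rw [← List.replicate_add]
    congr 1
    omega
  obtain ⟨r, s1, s2, rfl, h2, h3⟩ := Tr.Path.cut_in h _ _ h1
  refine ⟨r, s1.length, by simp, ?_, ?_⟩
  · simpa using h2
  · simpa using h3

theorem pump_once {M : Tr X Y} {a : X} {n l : ℕ} {p q : M.Q} {v : List Y}
    (h : M.Path p (List.replicate n a) v q) (hv : v.length ≤ l)
    (hn : Nat.card M.Q * (l + 1) ≤ n) : ∃ n' > n, M.Path p (List.replicate n' a) v q := by
  have := M.fin
  have : Fintype M.Q := Fintype.ofFinite _
  have : Nonempty M.Q := ⟨p⟩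
  have hp := splice_point h
  choose! r c hc h1 h2 using hp
  let f : Fin (n + 1) → M.Q × Fin (l + 1) := fun i =>
    (r i, ⟨c i, by have := hc i (by omega); omega⟩)
  have hcard : Fintype.card (M.Q × Fin (l + 1)) < Fintype.card (Fin (n + 1)) := by
    rw [Fintype.card_prod, Fintype.card_fin, Fintype.card_fin, ← Nat.card_eq_fintype_card]
    omega
  obtain ⟨i, j, hij, hf⟩ := Fintype.exists_ne_map_eq_of_card_lt f hcard
  wlog hlt : i < j generalizing i j with H
  · exact H j i hij.symm hf.symm (lt_of_le_of_ne (not_lt.mp hlt) hij.symm)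
  have hr : r i = r j := congrArg Prod.fst hf
  have hcc : c i = c j := by
    have := congrArg Prod.snd hf
    exact congrArg Fin.val this
  have h3 := h1 j (by omega)
  have h4 := h2 i (by omega)
  rw [hr, hcc] at h4
  have h5 := h3.append h4
  rw [← List.replicate_add, List.take_append_drop] at h5
  refine ⟨j + (n - i), ?_, h5⟩
  have : (i : ℕ) < j := hlt
  omega

theorem pump {M : Tr X Y} {a : X} {n l : ℕ} {p q : M.Q} {v : List Y}
    (h : M.Path p (List.replicate n a) v q) (hv : v.length ≤ l)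
    (hn : Nat.card M.Q * (l + 1) ≤ n) (E : ℕ) :
    ∃ n' ≥ E, M.Path p (List.replicate n' a) v q := by
  have key : ∀ E, ∃ n' ≥ E, n ≤ n' ∧ M.Path p (List.replicate n' a) v q := by
    intro E
    induction E with
    | zero => exact ⟨n, Nat.zero_le _, le_refl _, h⟩
    | succ E ih =>
      obtain ⟨n', h1, h2, h3⟩ := ih
      obtain ⟨n'', h4, h5⟩ := pump_once h3 hv (hn.trans h2)
      exact ⟨n'', by omega, by omega, h5⟩
  obtain ⟨n', h1, _, h3⟩ := key E
  exact ⟨n', h1, h3⟩

theorem shrink {M : Tr X Y} {a : X} {l : ℕ} {p1 q1 p2 q2 : M.Q} {v1 v2 : List Y}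
    (hv1 : v1.length ≤ l) (hv2 : v2.length ≤ l) : ∀ n : ℕ,
    M.Path p1 (List.replicate n a) v1 q1 → M.Path p2 (List.replicate n a) v2 q2 →
    ∃ n' < (Nat.card M.Q * (l + 1)) ^ 2 + 1, M.Path p1 (List.replicate n' a) v1 q1 ∧
      M.Path p2 (List.replicate n' a) v2 q2 := by
  intro n
  induction n using Nat.strong_induction_on with
  | _ n ih =>
    intro h1 h2
    by_cases hn : n < (Nat.card M.Q * (l + 1)) ^ 2 + 1
    · exact ⟨n, hn, h1, h2⟩
    · have := M.fin
      have : Fintype M.Q := Fintype.ofFinite _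
      have : Nonempty M.Q := ⟨p1⟩
      have hp := splice_point h1
      have hp' := splice_point h2
      choose! r c hc h3 h4 using hp
      choose! r' c' hc' h3' h4' using hp'
      let f : Fin (n + 1) → (M.Q × Fin (l + 1)) × (M.Q × Fin (l + 1)) := fun i =>
        ((r i, ⟨c i, by have := hc i (by omega); omega⟩),
          (r' i, ⟨c' i, by have := hc' i (by omega); omega⟩))
      have hcard : Fintype.card ((M.Q × Fin (l + 1)) × (M.Q × Fin (l + 1))) <
          Fintype.card (Fin (n + 1)) := by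
        rw [Fintype.card_prod, Fintype.card_prod, Fintype.card_fin, Fintype.card_fin,
          ← Nat.card_eq_fintype_card, ← pow_two]
        omega
      obtain ⟨i, j, hij, hf⟩ := Fintype.exists_ne_map_eq_of_card_lt f hcard
      wlog hlt : i < j generalizing i j with H
      · exact H j i hij.symm hf.symm (lt_of_le_of_ne (not_lt.mp hlt) hij.symm)
      have hlt' : (i : ℕ) < j := hlt
      have hf1 : (r i, c i) = (r j, c j) := by
        have h5 := congrArg Prod.fst hf
        have h6 : r i = r j := congrArg Prod.fst h5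
        have h7 : c i = c j := congrArg Fin.val (congrArg Prod.snd h5)
        rw [h6, h7]
      have hf2 : (r' i, c' i) = (r' j, c' j) := by
        have h5 := congrArg Prod.snd hf
        have h6 : r' i = r' j := congrArg Prod.fst h5
        have h7 : c' i = c' j := congrArg Fin.val (congrArg Prod.snd h5)
        rw [h6, h7]
      obtain ⟨e1, e2⟩ := Prod.mk.inj hf1
      obtain ⟨e3, e4⟩ := Prod.mk.inj hf2
      have g1 := h3 i (by omega)
      have g2 := h4 j (by omega)
      rw [← e1, ← e2] at g2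
      have g3 := h3' i (by omega)
      have g4 := h4' j (by omega)
      rw [← e3, ← e4] at g4
      have g5 := g1.append g2
      have g6 := g3.append g4
      rw [← List.replicate_add, List.take_append_drop] at g5 g6
      exact ih (i + (n - j)) (by omega) g5 g6

theorem code_path_split {M : Tr Sg Y} {t : Tok} {p q : M.Q} {v : List Y}
    (h : M.Path p (code t) v q) : ∃ r1 r2 v1 v2 v3, v = v1 ++ (v2 ++ v3) ∧
      M.Path p (List.replicate t.2.1 lx) v1 r1 ∧ M.Path r1 (List.replicate t.2.2 ly) v2 r2 ∧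
      M.Path r2 [Sum.inl t.1] v3 q := by
  obtain ⟨r1, v1, v', rfl, h1, h2⟩ := Tr.Path.cut_in h _ _ rfl
  obtain ⟨r2, v2, v3, rfl, h3, h4⟩ := Tr.Path.cut_in h2 _ _ rfl
  exact ⟨r1, r2, v1, v2, v3, rfl, h1, h3, h4⟩

theorem code_path_join {M : Tr Sg Y} {b : Bool} {e n : ℕ} {p q r1 r2 : M.Q} {v1 v2 v3 : List Y}
    (h1 : M.Path p (List.replicate e lx) v1 r1) (h2 : M.Path r1 (List.replicate n ly) v2 r2)
    (h3 : M.Path r2 [Sum.inl b] v3 q) : M.Path p (code (b, e, n)) (v1 ++ (v2 ++ v3)) q :=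
  h1.append (h2.append h3)

/-- Large counts may be pumped. -/
theorem all_pump {M : Tr Sg Y} {l m : ℕ} (hm : Nat.card M.Q * (l + 1) ≤ m) (E : ℕ)
    (W : List Tok) : ∀ (p q : M.Q) (v : List Y), (∀ t ∈ W, m ≤ t.2.1) → v.length ≤ l →
      M.Path p (cod W) v q → ∃ W' : List Tok, (∀ t ∈ W', E ≤ t.2.1) ∧ M.Path p (cod W') v q := by
  induction W with
  | nil =>
    intro p q v _ _ h
    exact ⟨[], by simp, h⟩
  | cons t W ih =>
    intro p q v hW hv h
    rw [cod_cons] at h
    obtain ⟨r, v1, v2, rfl, h1, h2⟩ := Tr.Path.cut_in h _ _ rfl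
    rw [List.length_append] at hv
    obtain ⟨W', hW', h3⟩ := ih r q v2 (fun t ht => hW t (by simp [ht])) (by omega) h2
    obtain ⟨r1, r2, s1, s2, s3, rfl, g1, g2, g3⟩ := code_path_split h1
    have hs1 : s1.length ≤ l := by
      simp only [List.length_append] at hv
      omega
    have ht := hW t (by simp)
    obtain ⟨e', he', g4⟩ := pump g1 hs1 (hm.trans ht) E
    refine ⟨(t.1, e', t.2.2) :: W', ?_, ?_⟩
    · intro s hs
      rw [List.mem_cons] at hs
      rcases hs with rfl | hs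
      · exact he'
      · exact hW' s hs
    · rw [cod_cons]
      exact (code_path_join g4 g2 g3).append h3

/-- Outputs on codes of lists valid at level `j`. -/
def KV (M : Tr Sg Y) (j : ℕ) (p q : M.Q) : Set (List Y) :=
  {v | ∃ W : List Tok, V j W ∧ M.Path p (cod W) v q}

theorem KV_top {M : Tr Sg Y} {l J : ℕ} (hJ : Nat.card M.Q * (l + 1) ≤ 2 ^ J) (p q : M.Q)
    (v : List Y) (hv : v.length ≤ l) : v ∈ KV M J p q ↔ v ∈ All M (2 ^ J) p q := by
  constructor
  · rintro ⟨W, hW, h⟩
    exact ⟨W, V_ge hW, h⟩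
  · rintro ⟨W, hW, h⟩
    obtain ⟨W', hW', h'⟩ := all_pump hJ (2 ^ (J + 1)) W p q v hW hv h
    exact ⟨W', .leaf _ _ hW', h'⟩

/-- Bound on the second counts. -/
noncomputable def bd (M : Tr X Y) (l : ℕ) : ℕ := (Nat.card M.Q * (l + 1)) ^ 2 + 1

theorem KV_rec {M : Tr Sg Y} {l j : ℕ} (p q : M.Q) (v : List Y) (hv : v.length ≤ l) :
    v ∈ KV M j p q ↔ v ∈ All M (2 ^ (j + 1)) p q ∪
      {w | ∃ k : Fin (bd M l) × M.Q × M.Q × M.Q,
        w ∈ mulS (Out M p (code (false, 2 ^ j, k.1)) k.2.1)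
          (mulS (KV M (j + 1) k.2.1 k.2.2.1)
            (mulS (Out M k.2.2.1 (code (true, 2 ^ j, k.1)) k.2.2.2) (KV M (j + 1) k.2.2.2 q)))} := by
  constructor
  · rintro ⟨W, hW, h⟩
    cases hW with
    | leaf _ _ hW => exact Or.inl ⟨W, hW, h⟩
    | node _ n u1 u2 hu1 hu2 =>
      right
      rw [cod_cons, cod_append, cod_cons] at h
      obtain ⟨r1, v1, v', rfl, h1, h⟩ := Tr.Path.cut_in h _ _ rfl
      obtain ⟨r2, v2, v'', rfl, h2, h⟩ := Tr.Path.cut_in h _ _ rfl
      obtain ⟨r3, v3, v4, rfl, h3, h4⟩ := Tr.Path.cut_in h _ _ rfl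
      obtain ⟨a1, a2, s1, s2, s3, rfl, g1, g2, g3⟩ := code_path_split h1
      obtain ⟨b1, b2, t1, t2, t3, rfl, k1, k2, k3⟩ := code_path_split h3
      simp only [List.length_append] at hv
      obtain ⟨n', hn', g2', k2'⟩ := shrink (l := l) (by omega) (by omega) n g2 k2
      refine ⟨(⟨n', hn'⟩, r1, r2, r3), s1 ++ (s2 ++ s3), ?_, v2 ++ ((t1 ++ (t2 ++ t3)) ++ v4), ?_,
        rfl⟩
      · exact code_path_join g1 g2' g3
      · refine ⟨v2, ⟨u1, hu1, h2⟩, (t1 ++ (t2 ++ t3)) ++ v4, ?_, rfl⟩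
        refine ⟨t1 ++ (t2 ++ t3), ?_, v4, ⟨u2, hu2, h4⟩, rfl⟩
        exact code_path_join k1 k2' k3
  · rintro (⟨W, hW, h⟩ | ⟨⟨n, r1, r2, r3⟩, v1, h1, _, ⟨v2, ⟨u1, hu1, h2⟩, _,
      ⟨v3, h3, v4, ⟨u2, hu2, h4⟩, rfl⟩, rfl⟩, rfl⟩)
    · exact ⟨W, .leaf _ _ hW, h⟩
    · refine ⟨_, .node j n u1 u2 hu1 hu2, ?_⟩
      rw [cod_cons, cod_append, cod_cons]
      exact Tr.Path.append h1 (Tr.Path.append h2 (Tr.Path.append h3 h4))

/-- The growth factor. -/
def gf (N B T : ℕ) : ℕ := N * (T + 2) + B * (N * (N * N)) * (2 * (N * (T + B + 2)) + 2)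

theorem KV_cov {M : Tr Sg Y} {l J : ℕ} (hJ : Nat.card M.Q * (l + 1) ≤ 2 ^ J)
    (hN : 1 ≤ Nat.card M.Q) : ∀ i ≤ J, ∀ p q : M.Q,
    Cov l (KV M (J - i) p q) ((gf (Nat.card M.Q) (bd M l) (2 ^ J)) ^ (i + 1)) := by
  set N := Nat.card M.Q with hNdef
  set B := bd M l with hB
  set G := gf N B (2 ^ J) with hG
  have hG1 : 1 ≤ G := by
    have : 1 ≤ N * (2 ^ J + 2) := Nat.one_le_iff_ne_zero.mpr (by positivity)
    rw [hG]
    unfold gf
    omega
  have hM := M.fin
  have : Fintype M.Q := Fintype.ofFinite _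
  intro i
  induction i with
  | zero =>
    intro _ p q
    rw [Nat.sub_zero, zero_add, pow_one]
    refine ((cov_all M l Nat.one_le_two_pow p q).congr (KV_top hJ p q)).mono ?_
    rw [hG, hNdef]
    unfold gf
    omega
  | succ i ih =>
    intro hi p q
    have ih' := ih (by omega)
    have hj : J - i = (J - (i + 1)) + 1 := by omega
    rw [hj] at ih'
    set j := J - (i + 1) with hjdef
    set S := G ^ (i + 1) with hS
    have hS1 : 1 ≤ S := Nat.one_le_pow _ _ hG1
    have hpj : 2 ^ (j + 1) ≤ 2 ^ J := Nat.pow_le_pow_right (by norm_num) (by omega)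
    have hpj' : 2 ^ j ≤ 2 ^ J := Nat.pow_le_pow_right (by norm_num) (by omega)
    have hword : ∀ (b : Bool) (n : Fin B) (p q : M.Q),
        Cov l (Out M p (code (b, 2 ^ j, n)) q) (N * (2 ^ J + B + 2)) := by
      intro b n p q
      refine (cov_word M l p q _).mono ?_
      refine Nat.mul_le_mul (le_refl _) ?_
      simp only [code, List.length_append, List.length_replicate, List.length_cons,
        List.length_nil]
      have := n.2
      omega
    have hall : Cov l (All M (2 ^ (j + 1)) p q) (N * (2 ^ J + 2)) := by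
      refine (cov_all M l Nat.one_le_two_pow p q).mono ?_
      exact Nat.mul_le_mul (le_refl _) (by omega)
    have hmul : ∀ k : Fin B × M.Q × M.Q × M.Q, Cov l
        (mulS (Out M p (code (false, 2 ^ j, k.1)) k.2.1)
          (mulS (KV M (j + 1) k.2.1 k.2.2.1)
            (mulS (Out M k.2.2.1 (code (true, 2 ^ j, k.1)) k.2.2.2) (KV M (j + 1) k.2.2.2 q))))
        (N * (2 ^ J + B + 2) + (S + (N * (2 ^ J + B + 2) + S))) := by
      intro k
      exact (hword _ _ _ _).mul ((ih' _ _).mul ((hword _ _ _ _).mul (ih' _ _)))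
    have hun := hall.union (Cov.iUnion hmul)
    have hcard : Fintype.card (Fin B × M.Q × M.Q × M.Q) = B * (N * (N * N)) := by
      rw [Fintype.card_prod, Fintype.card_prod, Fintype.card_prod, Fintype.card_fin,
        ← Nat.card_eq_fintype_card]
    rw [hcard] at hun
    refine (hun.congr (KV_rec p q)).mono ?_
    rw [pow_succ, ← hS, mul_comm S G, hG]
    unfold gf
    have e1 : N * (2 ^ J + 2) ≤ N * (2 ^ J + 2) * S := Nat.le_mul_of_pos_right _ hS1
    have e2 : N * (2 ^ J + B + 2) + (S + (N * (2 ^ J + B + 2) + S)) ≤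
        (2 * (N * (2 ^ J + B + 2)) + 2) * S := by
      have : N * (2 ^ J + B + 2) ≤ N * (2 ^ J + B + 2) * S := Nat.le_mul_of_pos_right _ hS1
      calc _ = 2 * (N * (2 ^ J + B + 2)) + 2 * S := by ring
        _ ≤ 2 * (N * (2 ^ J + B + 2) * S) + 2 * S := by omega
        _ = _ := by ring
    calc _ ≤ N * (2 ^ J + 2) * S + B * (N * (N * N)) *
          ((2 * (N * (2 ^ J + B + 2)) + 2) * S) :=
          Nat.add_le_add e1 (Nat.mul_le_mul (le_refl _) e2)
      _ = _ := by ring

end Pool.Agent.Helper178.Trans
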