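import Pool.Agent.Helper178.Gen

set_option linter.unusedVariables false

namespace Pool.Agent.Helper178.Trans

variable {X Y Z : Type}

/-- Positive powers of a pair of letters. -/
def pl (a : X) (b : Y) (u : List X) (v : List Y) : Prop :=
  ∃ n ≥ 1, u = List.replicate n a ∧ v = List.replicate n b

theorem flatten_one (a : X) (n : ℕ) : (List.replicate n [a]).flatten = List.replicate n a := by
  induction n with
  | zero => rfl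
  | succ n ih => rw [List.replicate_succ, List.flatten_cons, ih]; rfl

theorem rat_pl (a : X) (b : Y) : Rat (pl a b) := by
  refine (rat_cat (rat_pr [a] [b]) (rat_pw [a] [b])).congr ?_
  intro u v
  constructor
  · rintro ⟨n, hn, rfl, rfl⟩
    obtain ⟨m, rfl⟩ : ∃ m, n = m + 1 := ⟨n - 1, by omega⟩
    exact ⟨[a], List.replicate m a, [b], List.replicate m b, rfl, rfl, ⟨rfl, rfl⟩,
      ⟨m, (flatten_one a m).symm, (flatten_one b m).symm⟩⟩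
  · rintro ⟨_, _, _, _, rfl, rfl, ⟨rfl, rfl⟩, ⟨m, rfl, rfl⟩⟩
    rw [flatten_one, flatten_one]
    exact ⟨m + 1, by omega, rfl, rfl⟩

/-- Halving followed by a relation. -/
def hr (r : List Sg → List Y → Prop) (u : List Sg) (v : List Y) : Prop :=
  ∃ W : List Tok, u = cod (W.map dbl) ∧ r (cod W) v

theorem rat_hr {r : List Sg → List Y → Prop} (h : Rat r) : Rat (hr r) := by
  refine (rat_halve.comp h).congr ?_
  intro u v
  constructor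
  · rintro ⟨W, rfl, h⟩
    exact ⟨cod W, ⟨W, rfl, rfl⟩, h⟩
  · rintro ⟨_, ⟨W, rfl, rfl⟩, h⟩
    exact ⟨W, rfl, h⟩

theorem mem_L0_iff {n m : ℕ} {W1 W2 : List Tok} :
    cod ((false, 1, n) :: (W1.map dbl ++ (true, 1, m) :: W2.map dbl)) ∈ L0 ↔
      n = m ∧ cod W1 ∈ L0 ∧ cod W2 ∈ L0 := by
  constructor
  · rintro ⟨W, hW, h⟩
    rw [← cod_injective h] at hW
    obtain ⟨h1, h2, h3⟩ := V_zero_iff.mp hW
    exact ⟨h1, ⟨_, h2, rfl⟩, ⟨_, h3, rfl⟩⟩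
  · rintro ⟨h1, ⟨W1', h2, h3⟩, ⟨W2', h4, h5⟩⟩
    rw [← cod_injective h3] at h2
    rw [← cod_injective h5] at h4
    exact ⟨_, V_zero_iff.mpr ⟨h1, h2, h4⟩, rfl⟩

theorem prod_closure {r1 r2 : List Sg → List Y → Prop} (h1 : Rat r1) (h2 : Rat r2) :
    ∃ r : List Sg → List Y → Prop, Rat r ∧ ∀ v, (∃ u ∈ L0, r u v) ↔
      ∃ v1 v2, (∃ u ∈ L0, r1 u v1) ∧ (∃ u ∈ L0, r2 u v2) ∧ v = v1 ++ v2 := by
  refine ⟨cat (pr [lx, Sum.inl false] []) (cat (hr r1) (cat (pr [lx, Sum.inl true] []) (hr r2))),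
    rat_cat (rat_pr _ _) (rat_cat (rat_hr h1) (rat_cat (rat_pr _ _) (rat_hr h2))), ?_⟩
  have hcod : ∀ W1 W2 : List Tok, [lx, Sum.inl false] ++ (cod (W1.map dbl) ++
      ([lx, Sum.inl true] ++ cod (W2.map dbl))) =
      cod ((false, 1, 0) :: (W1.map dbl ++ (true, 1, 0) :: W2.map dbl)) := by
    intro W1 W2
    rw [cod_cons, cod_append, cod_cons]
    rfl
  intro v
  constructor
  · rintro ⟨u, hu, _, _, _, _, rfl, rfl, ⟨rfl, rfl⟩, _, _, _, _, rfl, rfl, ⟨W1, rfl, hv1⟩,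
      _, _, _, _, rfl, rfl, ⟨rfl, rfl⟩, ⟨W2, rfl, hv2⟩⟩
    rw [hcod, mem_L0_iff] at hu
    obtain ⟨_, hu1, hu2⟩ := hu
    exact ⟨_, _, ⟨_, hu1, hv1⟩, ⟨_, hu2, hv2⟩, by simp⟩
  · rintro ⟨v1, v2, ⟨u1, hu1, hr1⟩, ⟨u2, hu2, hr2⟩, rfl⟩
    obtain ⟨W1, hW1, rfl⟩ := hu1
    obtain ⟨W2, hW2, rfl⟩ := hu2
    refine ⟨_, (mem_L0_iff (n := 0) (m := 0)).mpr ⟨rfl, ⟨W1, hW1, rfl⟩, ⟨W2, hW2, rfl⟩⟩, ?_⟩
    rw [← hcod]
    exact ⟨_, _, [], _, rfl, rfl, ⟨rfl, rfl⟩, _, _, v1, v2, rfl, rfl, ⟨W1, rfl, hr1⟩,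
      _, _, [], v2, rfl, rfl, ⟨rfl, rfl⟩, ⟨W2, rfl, hr2⟩⟩

theorem trans_closure [Finite Y] {r : List Sg → List Y → Prop} (h : Rat r) :
    ∃ r' : List Sg → List (Y ⊕ Bool) → Prop, Rat r' ∧ ∀ v, (∃ u ∈ L0, r' u v) ↔
      ∃ n ≥ 1, ∃ f, (∃ u ∈ L0, r u f) ∧ v = List.replicate n (Sum.inr false) ++ (f.map Sum.inl ++
        List.replicate n (Sum.inr true)) := by
  have hmap : Rat (fun (u : List Sg) (v : List (Y ⊕ Bool)) => ∃ f, r u f ∧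
      v = f.map Sum.inl) := by
    refine (h.comp (Rat.hom fun y : Y => [(Sum.inl y : Y ⊕ Bool)])).congr ?_
    intro u v
    have : ∀ f : List Y, f.map (Sum.inl : Y → Y ⊕ Bool) =
        f.flatMap fun y : Y => [(Sum.inl y : Y ⊕ Bool)] := by
      intro f
      induction f with
      | nil => rfl
      | cons a f ih => rw [List.map_cons, List.flatMap_cons, ih]; rfl
    simp only [this]
  refine ⟨cat (pr [lx] []) (cat (pl ly (Sum.inr false)) (cat (pr [Sum.inl false] [])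
    (cat (hr (fun u v => ∃ f, r u f ∧ v = f.map Sum.inl)) (cat (pr [lx] [])
      (cat (pl ly (Sum.inr true)) (pr [Sum.inl true] [])))))),
    rat_cat (rat_pr _ _) (rat_cat (rat_pl _ _) (rat_cat (rat_pr _ _) (rat_cat (rat_hr hmap)
      (rat_cat (rat_pr _ _) (rat_cat (rat_pl _ _) (rat_pr _ _)))))), ?_⟩
  have hcod : ∀ (n m : ℕ) (W : List Tok), [lx] ++ (List.replicate n ly ++ ([Sum.inl false] ++
      (cod (W.map dbl) ++ ([lx] ++ (List.replicate m ly ++ [Sum.inl true]))))) =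
      cod ((false, 1, n) :: (W.map dbl ++ (true, 1, m) :: ([] : List Tok).map dbl)) := by
    intro n m W
    rw [cod_cons, cod_append, cod_cons]
    simp [code, cod]
  have hnil : cod [] ∈ L0 := ⟨[], .leaf _ _ (by simp), rfl⟩
  intro v
  constructor
  · rintro ⟨u, hu, _, _, _, _, rfl, rfl, ⟨rfl, rfl⟩, _, _, _, _, rfl, rfl, ⟨n, hn, rfl, rfl⟩,
      _, _, _, _, rfl, rfl, ⟨rfl, rfl⟩, _, _, _, _, rfl, rfl, ⟨W, rfl, f, hf, rfl⟩,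
      _, _, _, _, rfl, rfl, ⟨rfl, rfl⟩, _, _, _, _, rfl, rfl, ⟨m, hm, rfl, rfl⟩, rfl, rfl⟩
    rw [hcod, mem_L0_iff] at hu
    obtain ⟨rfl, hu1, _⟩ := hu
    exact ⟨n, hn, f, ⟨_, hu1, hf⟩, by simp⟩
  · rintro ⟨n, hn, f, ⟨u, ⟨W, hW, rfl⟩, hf⟩, rfl⟩
    refine ⟨_, (mem_L0_iff (n := n) (m := n)).mpr ⟨rfl, ⟨W, hW, rfl⟩, hnil⟩, ?_⟩
    rw [← hcod]
    refine ⟨_, _, [], _, rfl, rfl, ⟨rfl, rfl⟩, _, _, _, _, rfl, rfl, ⟨n, hn, rfl, rfl⟩,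
      _, _, [], _, rfl, rfl, ⟨rfl, rfl⟩, _, _, _, _, rfl, rfl, ⟨W, rfl, f, hf, rfl⟩,
      _, _, [], _, rfl, rfl, ⟨rfl, rfl⟩, _, _, _, [], rfl, ?_, ⟨n, hn, rfl, rfl⟩, rfl, rfl⟩
    simp

end Pool.Agent.Helper178.Trans
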