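import Pool.Agent.Helper178.Closure

set_option linter.unusedVariables false

namespace Pool.Agent.Helper178.Trans

variable {X Y Z : Type}

/-- The words of `K` of length at most `l` are covered, in every factorisation, by `s`
rectangles. -/
def Cov (l : ℕ) (K : Set (List Y)) (s : ℕ) : Prop :=
  ∃ (ι : Type) (_ : Fintype ι) (U V : ι → Set (List Y)), Fintype.card ι ≤ s ∧
    ∀ u v, (u ++ v).length ≤ l → (u ++ v ∈ K ↔ ∃ i, u ∈ U i ∧ v ∈ V i)

theorem Cov.mono {l : ℕ} {K : Set (List Y)} {s t : ℕ} (h : Cov l K s) (hst : s ≤ t) :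
    Cov l K t := by
  obtain ⟨ι, hι, U, V, h1, h2⟩ := h
  exact ⟨ι, hι, U, V, h1.trans hst, h2⟩

theorem Cov.congr {l : ℕ} {K K' : Set (List Y)} {s : ℕ} (h : Cov l K s)
    (hK : ∀ w : List Y, w.length ≤ l → (w ∈ K' ↔ w ∈ K)) : Cov l K' s := by
  obtain ⟨ι, hι, U, V, h1, h2⟩ := h
  exact ⟨ι, hι, U, V, h1, fun u v huv => (hK _ huv).trans (h2 u v huv)⟩

theorem Cov.empty (l : ℕ) : Cov l (∅ : Set (List Y)) 0 := by
  refine ⟨Empty, inferInstance, fun i => i.elim, fun i => i.elim, by simp, ?_⟩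
  intro u v _
  simp

theorem Cov.union {l : ℕ} {K1 K2 : Set (List Y)} {s1 s2 : ℕ} (h1 : Cov l K1 s1)
    (h2 : Cov l K2 s2) : Cov l (K1 ∪ K2) (s1 + s2) := by
  obtain ⟨ι1, hι1, U1, V1, hc1, hk1⟩ := h1
  obtain ⟨ι2, hι2, U2, V2, hc2, hk2⟩ := h2
  refine ⟨ι1 ⊕ ι2, inferInstance, Sum.elim U1 U2, Sum.elim V1 V2, ?_, ?_⟩
  · rw [Fintype.card_sum]; omega
  · intro u v huv
    rw [Set.mem_union, hk1 u v huv, hk2 u v huv]
    simp

theorem Cov.iUnion {l : ℕ} {κ : Type} [Fintype κ] {K : κ → Set (List Y)} {s : ℕ}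
    (h : ∀ k, Cov l (K k) s) : Cov l {w | ∃ k, w ∈ K k} (Fintype.card κ * s) := by
  choose ι hι U V hc hk using h
  refine ⟨Σ k, ι k, inferInstance, fun i => U i.1 i.2, fun i => V i.1 i.2, ?_, ?_⟩
  · rw [Fintype.card_sigma]
    calc ∑ k, Fintype.card (ι k) ≤ ∑ _k : κ, s := Finset.sum_le_sum fun k _ => hc k
      _ = Fintype.card κ * s := by simp
  · intro u v huv
    constructor
    · rintro ⟨k, hk'⟩
      obtain ⟨i, hi⟩ := (hk k u v huv).mp hk'
      exact ⟨⟨k, i⟩, hi⟩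
    · rintro ⟨⟨k, i⟩, hi⟩
      exact ⟨k, (hk k u v huv).mpr ⟨i, hi⟩⟩

/-- Product of two languages. -/
def mulS (K1 K2 : Set (List Y)) : Set (List Y) := {w | ∃ a ∈ K1, ∃ b ∈ K2, w = a ++ b}

theorem Cov.mul {l : ℕ} {K1 K2 : Set (List Y)} {s1 s2 : ℕ} (h1 : Cov l K1 s1)
    (h2 : Cov l K2 s2) : Cov l (mulS K1 K2) (s1 + s2) := by
  obtain ⟨ι1, hι1, U1, V1, hc1, hk1⟩ := h1
  obtain ⟨ι2, hι2, U2, V2, hc2, hk2⟩ := h2
  refine ⟨ι1 ⊕ ι2, inferInstance, Sum.elim U1 (fun i => mulS K1 (U2 i)),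
    Sum.elim (fun i => mulS (V1 i) K2) V2, ?_, ?_⟩
  · rw [Fintype.card_sum]; omega
  · intro u v huv
    constructor
    · rintro ⟨a, ha, b, hb, hab⟩
      rcases List.append_eq_append_iff.mp hab with ⟨c, rfl, rfl⟩ | ⟨c, rfl, rfl⟩
      · have hl : (u ++ c).length ≤ l := by
          simp only [List.length_append] at huv ⊢
          omega
        obtain ⟨i, hi1, hi2⟩ := (hk1 u c hl).mp ha
        exact ⟨.inl i, hi1, c, hi2, b, hb, rfl⟩
      · have hl : (c ++ v).length ≤ l := by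
          simp only [List.length_append] at huv ⊢
          omega
        obtain ⟨i, hi1, hi2⟩ := (hk2 c v hl).mp hb
        exact ⟨.inr i, ⟨a, ha, c, hi1, rfl⟩, hi2⟩
    · rintro ⟨i | i, hi1, hi2⟩
      · obtain ⟨c, hc, b, hb, rfl⟩ := hi2
        have hl : (u ++ c).length ≤ l := by
          simp only [List.length_append] at huv ⊢
          omega
        exact ⟨u ++ c, (hk1 u c hl).mpr ⟨i, hi1, hc⟩, b, hb, by simp⟩
      · obtain ⟨a, ha, c, hc, rfl⟩ := hi1
        have hl : (c ++ v).length ≤ l := by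
          simp only [List.length_append] at huv ⊢
          omega
        exact ⟨a, ha, c ++ v, (hk2 c v hl).mpr ⟨i, hc, hi2⟩, by simp⟩

/-- Outputs on one input word. -/
def Out (M : Tr X Y) (p : M.Q) (w : List X) (q : M.Q) : Set (List Y) := {v | M.Path p w v q}

theorem cov_word (M : Tr X Y) (l : ℕ) (p q : M.Q) (w : List X) :
    Cov l (Out M p w q) (Nat.card M.Q * (w.length + 1)) := by
  have := M.fin
  have : Fintype M.Q := Fintype.ofFinite _
  refine ⟨M.Q × Fin (w.length + 1), inferInstance,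
    fun i => {u | M.Path p (w.take i.2) u i.1}, fun i => {v | M.Path i.1 (w.drop i.2) v q}, ?_, ?_⟩
  · rw [Fintype.card_prod, Fintype.card_fin, Nat.card_eq_fintype_card]
  · intro u v huv
    constructor
    · intro h
      obtain ⟨r, w1, w2, hw, h1, h2⟩ := Tr.Path.cut_out h u v rfl
      refine ⟨(r, ⟨w1.length, by rw [hw, List.length_append]; omega⟩), ?_, ?_⟩
      · show M.Path p (w.take w1.length) u r
        rw [hw]; simpa using h1
      · show M.Path r (w.drop w1.length) v q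
        rw [hw]; simpa using h2
    · rintro ⟨⟨r, i⟩, h1, h2⟩
      have h3 := Tr.Path.append h1 h2
      rw [List.take_append_drop] at h3
      exact h3

/-! ### tokens whose counts are all large -/

/-- Outputs on codes of token lists with all first counts at least `m`. -/
def All (M : Tr Sg Y) (m : ℕ) (p q : M.Q) : Set (List Y) :=
  {v | ∃ W : List Tok, (∀ t ∈ W, m ≤ t.2.1) ∧ M.Path p (cod W) v q}

theorem cod_split (W : List Tok) : ∀ w1 w2, cod W = w1 ++ w2 →
    w2 = [] ∨ ∃ W1 t W2 c1 c2, W = W1 ++ t :: W2 ∧ w1 = cod W1 ++ c1 ∧ w2 = c2 ++ cod W2 ∧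
      code t = c1 ++ c2 ∧ c2 ≠ [] := by
  induction W with
  | nil =>
    intro w1 w2 h
    left
    exact (List.append_eq_nil_iff.mp h.symm).2
  | cons t W ih =>
    intro w1 w2 h
    rw [cod_cons] at h
    rcases List.append_eq_append_iff.mp h with ⟨c, rfl, h2⟩ | ⟨c, h1, rfl⟩
    · rcases ih c w2 h2 with h3 | ⟨W1, t', W2, c1, c2, rfl, rfl, rfl, h5, h6⟩
      · exact Or.inl h3
      · exact Or.inr ⟨t :: W1, t', W2, c1, c2, rfl, by rw [cod_cons, List.append_assoc], rfl, h5,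
          h6⟩
    · by_cases hc : c = []
      · subst hc
        cases W with
        | nil => left; rfl
        | cons t' W' =>
          right
          refine ⟨[t], t', W', [], code t', rfl, ?_, ?_, rfl, ?_⟩
          · simpa [cod] using h1.symm
          · simp [cod_cons]
          · simp [code]
      · exact Or.inr ⟨[], t, W, w1, c, rfl, rfl, rfl, h1, hc⟩

theorem code_split (t : Tok) (c1 c2 : List Sg) (h : code t = c1 ++ c2) (h2 : c2 ≠ []) :
    (∃ i ≤ t.2.1, c1 = List.replicate i lx ∧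
      c2 = List.replicate (t.2.1 - i) lx ++ (List.replicate t.2.2 ly ++ [Sum.inl t.1])) ∨
    (∃ i ≤ t.2.2, c1 = List.replicate t.2.1 lx ++ List.replicate i ly ∧
      c2 = List.replicate (t.2.2 - i) ly ++ [Sum.inl t.1]) := by
  have key : ∀ (n : ℕ) (a : Sg) (w : List Sg) (c1 c2 : List Sg),
      List.replicate n a ++ w = c1 ++ c2 →
      (∃ i ≤ n, c1 = List.replicate i a ∧ c2 = List.replicate (n - i) a ++ w) ∨
      (∃ c, c1 = List.replicate n a ++ c ∧ w = c ++ c2) := by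
    intro n a w c1 c2 h
    rcases List.append_eq_append_iff.mp h with ⟨c, h3, h4⟩ | ⟨c, h3, h4⟩
    · exact Or.inr ⟨c, h3, h4⟩
    · left
      rw [eq_comm, List.append_eq_replicate_iff] at h3
      obtain ⟨h5, h6, h7⟩ := h3
      refine ⟨c1.length, by omega, h6, ?_⟩
      rw [h4, h7]
      congr 2
      omega
  rcases key _ _ _ _ _ h with h3 | ⟨c, h3, h4⟩
  · exact Or.inl h3
  · right
    rcases key _ _ _ _ _ h4 with ⟨i, hi, h5, h6⟩ | ⟨c', h5, h6⟩
    · exact ⟨i, hi, by rw [h3, h5], h6⟩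
    · refine ⟨t.2.2, le_refl _, ?_, ?_⟩
      · cases c' with
        | nil => rw [h3, h5, List.append_nil]
        | cons a c' =>
          exfalso
          rw [List.cons_append, List.cons_eq_cons] at h6
          exact h2 (List.append_eq_nil_iff.mp h6.2.symm).2
      · cases c' with
        | nil => simpa using h6.symm
        | cons a c' =>
          exfalso
          rw [List.cons_append, List.cons_eq_cons] at h6
          exact h2 (List.append_eq_nil_iff.mp h6.2.symm).2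

/-- Classes of left factors. -/
def cls (m : ℕ) : Option (Fin (m + 1)) → List Sg → Prop
  | none, w => ∃ (W : List Tok) (e n : ℕ), (∀ t ∈ W, m ≤ t.2.1) ∧ m ≤ e ∧
      w = cod W ++ (List.replicate e lx ++ List.replicate n ly)
  | some k, w => ∃ (W : List Tok) (e : ℕ), (∀ t ∈ W, m ≤ t.2.1) ∧ min e m = k ∧
      w = cod W ++ List.replicate e lx

theorem cls_spec {m : ℕ} (hm : 1 ≤ m) {W : List Tok} (hW : ∀ t ∈ W, m ≤ t.2.1)
    {w1 w2 : List Sg} (h : cod W = w1 ++ w2) :
    ∃ i, cls m i w1 ∧ ∀ w, cls m i w → ∃ W' : List Tok, (∀ t ∈ W', m ≤ t.2.1) ∧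
      cod W' = w ++ w2 := by
  rcases cod_split W w1 w2 h with rfl | ⟨W1, t, W2, c1, c2, rfl, rfl, rfl, h3, h4⟩
  · refine ⟨some 0, ⟨W, 0, hW, by simp, by rw [h]; simp⟩, ?_⟩
    rintro w ⟨W', e, hW', he, rfl⟩
    have he' : e = 0 := by
      have : min e m = 0 := by simpa using he
      omega
    subst he'
    exact ⟨W', hW', by simp⟩
  · obtain ⟨b, e, n⟩ := t
    have hW1 : ∀ t ∈ W1, m ≤ t.2.1 := fun t ht => hW t (by simp [ht])
    have hW2 : ∀ t ∈ W2, m ≤ t.2.1 := fun t ht => hW t (by simp [ht])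
    have he : m ≤ e := hW (b, e, n) (by simp)
    rcases code_split _ _ _ h3 h4 with ⟨i, hi, rfl, rfl⟩ | ⟨i, hi, rfl, rfl⟩
    · have hi' : i ≤ e := hi
      refine ⟨some ⟨min i m, by omega⟩, ⟨W1, i, hW1, rfl, rfl⟩, ?_⟩
      rintro w ⟨W', e', hW', he', rfl⟩
      have he'' : min e' m = min i m := he'
      refine ⟨W' ++ (b, e' + (e - i), n) :: W2, ?_, ?_⟩
      · intro t ht
        simp only [List.mem_append, List.mem_cons] at ht
        rcases ht with ht | rfl | ht
        · exact hW' t ht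
        · show m ≤ e' + (e - i)
          omega
        · exact hW2 t ht
      · rw [cod_append, cod_cons]
        simp only [code, List.replicate_add, List.append_assoc]
    · refine ⟨none, ⟨W1, e, i, hW1, he, rfl⟩, ?_⟩
      rintro w ⟨W', e', n', hW', he', rfl⟩
      refine ⟨W' ++ (b, e', n' + (n - i)) :: W2, ?_, ?_⟩
      · intro t ht
        simp only [List.mem_append, List.mem_cons] at ht
        rcases ht with ht | rfl | ht
        · exact hW' t ht
        · exact he'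
        · exact hW2 t ht
      · rw [cod_append, cod_cons]
        simp only [code, List.replicate_add, List.append_assoc]

theorem cov_all (M : Tr Sg Y) (l : ℕ) {m : ℕ} (hm : 1 ≤ m) (p q : M.Q) :
    Cov l (All M m p q) (Nat.card M.Q * (m + 2)) := by
  have := M.fin
  have : Fintype M.Q := Fintype.ofFinite _
  refine ⟨M.Q × Option (Fin (m + 1)), inferInstance,
    fun i => {u | ∃ w1, cls m i.2 w1 ∧ M.Path p w1 u i.1},
    fun i => {v | ∃ w2, (∀ w, cls m i.2 w → ∃ W' : List Tok, (∀ t ∈ W', m ≤ t.2.1) ∧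
      cod W' = w ++ w2) ∧ M.Path i.1 w2 v q}, ?_, ?_⟩
  · rw [Fintype.card_prod, Fintype.card_option, Fintype.card_fin, Nat.card_eq_fintype_card]
  · intro u v huv
    constructor
    · rintro ⟨W, hW, h⟩
      obtain ⟨r, w1, w2, hw, h1, h2⟩ := Tr.Path.cut_out h u v rfl
      obtain ⟨i, hi1, hi2⟩ := cls_spec hm hW hw
      exact ⟨(r, i), ⟨w1, hi1, h1⟩, ⟨w2, hi2, h2⟩⟩
    · rintro ⟨⟨r, i⟩, ⟨w1, hi1, h1⟩, ⟨w2, hi2, h2⟩⟩
      obtain ⟨W', hW', h3⟩ := hi2 w1 hi1
      refine ⟨W', hW', ?_⟩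
      rw [h3]
      exact Tr.Path.append h1 h2

end Pool.Agent.Helper178.Trans
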