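import Pool.Agent.Helper178.Least

set_option linter.unusedVariables false

namespace Pool.Agent.Helper178.Trans

variable {X Y Z : Type}

/-! ### small calculus of relations -/

/-- Concatenation of relations. -/
def cat (r s : List X → List Y → Prop) (u : List X) (v : List Y) : Prop :=
  ∃ u1 u2 v1 v2, u = u1 ++ u2 ∧ v = v1 ++ v2 ∧ r u1 v1 ∧ s u2 v2

/-- A single pair. -/
def pr (x : List X) (y : List Y) (u : List X) (v : List Y) : Prop := u = x ∧ v = y

/-- Powers of a pair. -/
def pw (x : List X) (y : List Y) (u : List X) (v : List Y) : Prop :=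
  ∃ n, u = (List.replicate n x).flatten ∧ v = (List.replicate n y).flatten

theorem rat_cat {r s : List X → List Y → Prop} (hr : Rat r) (hs : Rat s) : Rat (cat r s) :=
  hr.mul hs

theorem rat_pr (x : List X) (y : List Y) : Rat (pr x y) := Rat.single x y

theorem rat_pw (x : List X) (y : List Y) : Rat (pw x y) := by
  refine (Rat.single x y).star.congr ?_
  intro u v
  constructor
  · rintro ⟨n, rfl, rfl⟩
    induction n with
    | zero => exact .nil
    | succ n ih =>
      rw [List.replicate_succ, List.replicate_succ, List.flatten_cons, List.flatten_cons]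
      exact .cons ⟨rfl, rfl⟩ ih
  · intro h
    induction h with
    | nil => exact ⟨0, rfl, rfl⟩
    | cons h1 _ ih =>
      obtain ⟨rfl, rfl⟩ := h1
      obtain ⟨n, rfl, rfl⟩ := ih
      exact ⟨n + 1, by rw [List.replicate_succ, List.flatten_cons],
        by rw [List.replicate_succ, List.flatten_cons]⟩

theorem star_fam {ι : Type} (f : ι → List X) (g : ι → List Y) (u : List X) (v : List Y) :
    Star (fun u v => ∃ c, u = f c ∧ v = g c) u v ↔ ∃ w : List ι, u = w.flatMap f ∧
      v = w.flatMap g := by
  constructor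
  · intro h
    induction h with
    | nil => exact ⟨[], rfl, rfl⟩
    | cons h1 _ ih =>
      obtain ⟨c, rfl, rfl⟩ := h1
      obtain ⟨w, rfl, rfl⟩ := ih
      exact ⟨c :: w, by simp, by simp⟩
  · rintro ⟨w, rfl, rfl⟩
    induction w with
    | nil => exact .nil
    | cons c w ih =>
      rw [List.flatMap_cons, List.flatMap_cons]
      exact .cons ⟨c, rfl, rfl⟩ ih

/-! ### the generator -/

/-- The alphabet: two marks `inl false`, `inl true`, the letter `x = inr false` and the letter
`y = inr true`. -/
abbrev Sg := Bool ⊕ Bool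

/-- Letter `x`. -/
abbrev lx : Sg := Sum.inr false
/-- Letter `y`. -/
abbrev ly : Sg := Sum.inr true

/-- A token: a mark and two counts. -/
abbrev Tok := Bool × ℕ × ℕ

/-- The code of the token `(t, e, n)` is `x ^ e y ^ n t`. -/
def code (t : Tok) : List Sg :=
  List.replicate t.2.1 lx ++ (List.replicate t.2.2 ly ++ [Sum.inl t.1])

/-- The code of a list of tokens. -/
def cod (W : List Tok) : List Sg := W.flatMap code

/-- The lists of tokens that are valid at level `j`. -/
inductive V : ℕ → List Tok → Prop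
  | leaf (j : ℕ) (W : List Tok) : (∀ t ∈ W, 2 ^ (j + 1) ≤ t.2.1) → V j W
  | node (j n : ℕ) (u1 u2 : List Tok) : V (j + 1) u1 → V (j + 1) u2 →
      V j ((false, 2 ^ j, n) :: (u1 ++ (true, 2 ^ j, n) :: u2))

/-- The generator of the cone. -/
def L0 : Language Sg := {w | ∃ W, V 0 W ∧ w = cod W}

/-- Decoding. -/
def dec : ℕ → ℕ → List Sg → List Tok
  | _, _, [] => []
  | e, n, Sum.inl t :: w => (t, e, n) :: dec 0 0 w
  | e, n, Sum.inr false :: w => dec (e + 1) n w
  | e, n, Sum.inr true :: w => dec e (n + 1) w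

theorem dec_x (k : ℕ) : ∀ e n w, dec e n (List.replicate k lx ++ w) = dec (e + k) n w := by
  induction k with
  | zero => intro e n w; rfl
  | succ k ih =>
    intro e n w
    rw [List.replicate_succ, List.cons_append]
    show dec (e + 1) n _ = _
    rw [ih]
    congr 1
    omega

theorem dec_y (k : ℕ) : ∀ e n w, dec e n (List.replicate k ly ++ w) = dec e (n + k) w := by
  induction k with
  | zero => intro e n w; rfl
  | succ k ih =>
    intro e n w
    rw [List.replicate_succ, List.cons_append]
    show dec e (n + 1) _ = _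
    rw [ih]
    congr 1
    omega

theorem dec_cod (W : List Tok) : dec 0 0 (cod W) = W := by
  induction W with
  | nil => rfl
  | cons t W ih =>
    obtain ⟨t, e, n⟩ := t
    have : cod ((t, e, n) :: W) = List.replicate e lx ++ (List.replicate n ly ++
        (Sum.inl t :: cod W)) := by
      simp [cod, code]
    rw [this, dec_x, dec_y]
    show (t, 0 + e, 0 + n) :: dec 0 0 (cod W) = _
    rw [ih, Nat.zero_add, Nat.zero_add]

theorem cod_injective {W W' : List Tok} (h : cod W = cod W') : W = W' := by
  rw [← dec_cod W, ← dec_cod W', h]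

theorem cod_cons (t : Tok) (W : List Tok) : cod (t :: W) = code t ++ cod W := rfl

theorem cod_append (W W' : List Tok) : cod (W ++ W') = cod W ++ cod W' := by
  simp [cod]

theorem V_ge {j : ℕ} {W : List Tok} (h : V j W) : ∀ t ∈ W, 2 ^ j ≤ t.2.1 := by
  induction h with
  | leaf j W h =>
    intro t ht
    exact le_trans (Nat.pow_le_pow_right (by norm_num) (Nat.le_succ j)) (h t ht)
  | node j n u1 u2 _ _ ih1 ih2 =>
    have hp : 2 ^ j ≤ 2 ^ (j + 1) := Nat.pow_le_pow_right (by norm_num) (Nat.le_succ j)
    intro t ht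
    simp only [List.mem_cons, List.mem_append] at ht
    rcases ht with rfl | ht | rfl | ht
    · exact le_refl _
    · exact le_trans hp (ih1 t ht)
    · exact le_refl _
    · exact le_trans hp (ih2 t ht)

/-- Doubling the first count. -/
def dbl (t : Tok) : Tok := (t.1, 2 * t.2.1, t.2.2)

theorem V_dbl {j : ℕ} {W : List Tok} (h : V j W) : V (j + 1) (W.map dbl) := by
  induction h with
  | leaf j W h =>
    refine .leaf _ _ ?_
    intro t ht
    obtain ⟨s, hs, rfl⟩ := List.mem_map.mp ht
    have := h s hs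
    show 2 ^ (j + 1 + 1) ≤ 2 * s.2.1
    rw [pow_succ 2 (j + 1)]
    omega
  | node j n u1 u2 _ _ ih1 ih2 =>
    have := V.node (j + 1) n _ _ ih1 ih2
    have h2 : (2 : ℕ) ^ (j + 1) = 2 * 2 ^ j := by rw [pow_succ]; ring
    rw [h2] at this
    simpa [dbl] using this

theorem V_of_dbl {j' : ℕ} {W' : List Tok} (h : V j' W') : ∀ j W, j' = j + 1 → W' = W.map dbl →
    V j W := by
  induction h with
  | leaf j' W' h =>
    rintro j W rfl rfl
    refine .leaf _ _ ?_
    intro t ht
    have := h (dbl t) (List.mem_map.mpr ⟨t, ht, rfl⟩)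
    have h2 : 2 ^ (j + 1 + 1) ≤ 2 * t.2.1 := this
    rw [pow_succ 2 (j + 1)] at h2
    omega
  | node j' n u1 u2 _ _ ih1 ih2 =>
    rintro j W rfl hW
    have h2 : (2 : ℕ) ^ (j + 1) = 2 * 2 ^ j := by rw [pow_succ]; ring
    obtain ⟨a, W1, rfl, ha, h3⟩ := List.map_eq_cons_iff.mp hW.symm
    obtain ⟨W2, W3, rfl, rfl, h4⟩ := List.map_eq_append_iff.mp h3
    obtain ⟨b, W4, rfl, hb, rfl⟩ := List.map_eq_cons_iff.mp h4
    have ha' : a = (false, 2 ^ j, n) := by
      obtain ⟨a1, a2, a3⟩ := a
      simp only [dbl, Prod.mk.injEq] at ha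
      obtain ⟨ha1, ha2, ha3⟩ := ha
      have : a2 = 2 ^ j := by omega
      rw [ha1, this, ha3]
    have hb' : b = (true, 2 ^ j, n) := by
      obtain ⟨a1, a2, a3⟩ := b
      simp only [dbl, Prod.mk.injEq] at hb
      obtain ⟨ha1, ha2, ha3⟩ := hb
      have : a2 = 2 ^ j := by omega
      rw [ha1, this, ha3]
    rw [ha', hb']
    exact .node _ _ _ _ (ih1 _ _ rfl rfl) (ih2 _ _ rfl rfl)

theorem V_dbl_iff {j : ℕ} {W : List Tok} : V (j + 1) (W.map dbl) ↔ V j W :=
  ⟨fun h => V_of_dbl h _ _ rfl rfl, V_dbl⟩

theorem V_zero_iff {n m : ℕ} {W1 W2 : List Tok} :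
    V 0 ((false, 1, n) :: (W1.map dbl ++ (true, 1, m) :: W2.map dbl)) ↔
      n = m ∧ V 0 W1 ∧ V 0 W2 := by
  constructor
  · intro h
    generalize hW : (false, 1, n) :: (W1.map dbl ++ (true, 1, m) :: W2.map dbl) = W at h
    generalize hj : 0 = j at h
    cases h with
    | leaf _ _ h =>
      exfalso
      subst hj
      have := h (false, 1, n) (by rw [← hW]; simp)
      simp at this
    | node _ n' u1 u2 h1 h2 =>
      subst hj
      have hne : ∀ k : ℕ, ∀ t : Bool, (t, 1, k) ∉ W1.map dbl := by
        intro k t ht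
        obtain ⟨s, hs, h⟩ := List.mem_map.mp ht
        have : 2 * s.2.1 = 1 := congrArg (fun z : Tok => z.2.1) h
        omega
      have hne2 : ∀ k : ℕ, ∀ t : Bool, (t, 1, k) ∉ u1 := by
        intro k t ht
        have := V_ge h1 _ ht
        simp at this
      rw [List.cons_eq_cons] at hW
      obtain ⟨h3, h4⟩ := hW
      have h3' : n = n' := congrArg (fun z : Tok => z.2.2) h3
      subst h3'
      rw [List.append_eq_append_iff] at h4
      have h5 : W1.map dbl = u1 ∧ m = n ∧ W2.map dbl = u2 := by
        rcases h4 with ⟨c, h5, h6⟩ | ⟨c, h5, h6⟩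
        · cases c with
          | nil =>
            simp only [List.nil_append, List.cons.injEq] at h6
            exact ⟨by simpa using h5.symm, congrArg (fun z : Tok => z.2.2) h6.1, h6.2⟩
          | cons a c =>
            exfalso
            rw [List.cons_append, List.cons_eq_cons] at h6
            exact hne2 m true (by rw [h5, ← h6.1]; simp)
        · cases c with
          | nil =>
            simp only [List.nil_append, List.cons.injEq] at h6
            exact ⟨by simpa using h5, (congrArg (fun z : Tok => z.2.2) h6.1).symm, h6.2.symm⟩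
          | cons a c =>
            exfalso
            rw [List.cons_append, List.cons_eq_cons] at h6
            refine hne n true ?_
            rw [h5, ← h6.1]
            simp
      obtain ⟨h5, h6, h7⟩ := h5
      rw [← h5] at h1
      rw [← h7] at h2
      exact ⟨h6.symm, V_dbl_iff.mp h1, V_dbl_iff.mp h2⟩
  · rintro ⟨rfl, h1, h2⟩
    have := V.node 0 n _ _ (V_dbl_iff.mpr h1) (V_dbl_iff.mpr h2)
    simpa using this

/-! ### halving -/

/-- The relation that halves all first counts. -/
def Halve (u v : List Sg) : Prop := ∃ W : List Tok, u = cod (W.map dbl) ∧ v = cod W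

theorem rat_halve : Rat Halve := by
  have h1 : ∀ t : Bool, Rat (cat (pw [lx, lx] [lx]) (cat (pw [ly] [ly])
      (pr [(Sum.inl t : Sg)] [(Sum.inl t : Sg)]))) := fun t =>
    rat_cat (rat_pw _ _) (rat_cat (rat_pw _ _) (rat_pr _ _))
  have h2 := (Rat.iUnion h1).star
  refine h2.congr ?_
  intro u v
  have key : ∀ u v, (∃ t : Bool, cat (pw [lx, lx] [lx]) (cat (pw [ly] [ly])
      (pr [(Sum.inl t : Sg)] [(Sum.inl t : Sg)])) u v) ↔ ∃ c : Tok, u = code (dbl c) ∧
      v = code c := by
    have hxx : ∀ n, (List.replicate n [lx, lx]).flatten = List.replicate (2 * n) lx := by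
      intro n
      induction n with
      | zero => rfl
      | succ n ih => rw [List.replicate_succ, List.flatten_cons, ih]; rfl
    have hx : ∀ (a : Sg) n, (List.replicate n [a]).flatten = List.replicate n a := by
      intro a n
      induction n with
      | zero => rfl
      | succ n ih => rw [List.replicate_succ, List.flatten_cons, ih]; rfl
    intro u v
    constructor
    · rintro ⟨t, u1, u2, v1, v2, rfl, rfl, ⟨e, rfl, rfl⟩, u3, u4, v3, v4, rfl, rfl, ⟨n, rfl, rfl⟩,
        rfl, rfl⟩
      refine ⟨(t, e, n), ?_, ?_⟩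
      · rw [hxx, hx]; rfl
      · rw [hx, hx]; rfl
    · rintro ⟨⟨t, e, n⟩, rfl, rfl⟩
      refine ⟨t, _, _, _, _, ?_, ?_, ⟨e, rfl, rfl⟩, _, _, _, _, rfl, rfl, ⟨n, rfl, rfl⟩, rfl, rfl⟩
      · rw [hxx, hx]; rfl
      · rw [hx, hx]; rfl
  have h3 := star_fam (fun c : Tok => code (dbl c)) (fun c : Tok => code c) u v
  constructor
  · rintro ⟨W, rfl, rfl⟩
    refine Star.mono (fun u v => (key u v).mpr) (h3.mpr ⟨W, ?_, rfl⟩)
    simp [cod, List.flatMap_map]
  · intro h
    obtain ⟨W, h4, h5⟩ := h3.mp (Star.mono (fun u v => (key u v).mp) h)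
    refine ⟨W, ?_, h5⟩
    rw [h4]
    simp [cod, List.flatMap_map]

end Pool.Agent.Helper178.Trans
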