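import Mathlib

set_option linter.unusedVariables false

namespace Pool.Agent.Helper178.Gram

open Symbol

variable {T N : Type}

/-- Interpretation of a string of symbols. -/
def Yl (I : N → List T → Prop) : List (Symbol T N) → List T → Prop
  | [], w => w = []
  | terminal t :: s, w => ∃ w', w = t :: w' ∧ Yl I s w'
  | nonterminal A :: s, w => ∃ w1 w2, w = w1 ++ w2 ∧ I A w1 ∧ Yl I s w2

theorem Yl_append {I : N → List T → Prop} (s : List (Symbol T N)) : ∀ (s' : List (Symbol T N))
    (w : List T), Yl I (s ++ s') w ↔ ∃ w1 w2, w = w1 ++ w2 ∧ Yl I s w1 ∧ Yl I s' w2 := by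
  induction s with
  | nil =>
    intro s' w
    constructor
    · intro h; exact ⟨[], w, rfl, rfl, h⟩
    · rintro ⟨w1, w2, rfl, h1, h2⟩
      have : w1 = [] := h1
      subst this
      exact h2
  | cons a s ih =>
    intro s' w
    cases a with
    | terminal t =>
      constructor
      · rintro ⟨w', rfl, h⟩
        obtain ⟨w1, w2, rfl, h1, h2⟩ := (ih s' w').mp h
        exact ⟨t :: w1, w2, rfl, ⟨w1, rfl, h1⟩, h2⟩
      · rintro ⟨w1, w2, rfl, ⟨w', rfl, h1⟩, h2⟩
        exact ⟨w' ++ w2, rfl, (ih s' _).mpr ⟨w', w2, rfl, h1, h2⟩⟩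
    | nonterminal A =>
      constructor
      · rintro ⟨w0, w', rfl, h0, h⟩
        obtain ⟨w1, w2, rfl, h1, h2⟩ := (ih s' w').mp h
        exact ⟨w0 ++ w1, w2, by rw [List.append_assoc], ⟨w0, w1, rfl, h0, h1⟩, h2⟩
      · rintro ⟨w1, w2, rfl, ⟨w0, w', rfl, h0, h1⟩, h2⟩
        exact ⟨w0, w' ++ w2, by rw [List.append_assoc], h0, (ih s' _).mpr ⟨w', w2, rfl, h1, h2⟩⟩

theorem Yl_map {I : N → List T → Prop} (w : List T) : Yl I (w.map terminal) w := by
  induction w with
  | nil => rfl
  | cons t w ih => exact ⟨w, rfl, ih⟩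

/-- Soundness of a grammar for an interpretation closed under its rules. -/
theorem sound {g : ContextFreeGrammar T} {I : g.NT → List T → Prop}
    (hI : ∀ r ∈ g.rules, ∀ w, Yl I r.output w → I r.input w) {s : List (Symbol T g.NT)}
    {w : List T} (h : g.Derives s (w.map terminal)) : Yl I s w := by
  induction h using Relation.ReflTransGen.head_induction_on with
  | refl => exact Yl_map w
  | head hstep _ ih =>
    obtain ⟨r, hr, hrw⟩ := hstep
    obtain ⟨p, q, rfl, rfl⟩ := ContextFreeRule.rewrites_iff.mp hrw
    obtain ⟨w12, w3, rfl, h12, h3⟩ := (Yl_append _ _ _).mp ih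
    obtain ⟨w1, w2, rfl, h1, h2⟩ := (Yl_append _ _ _).mp h12
    refine (Yl_append _ _ _).mpr ⟨w1 ++ w2, w3, rfl, (Yl_append _ _ _).mpr
      ⟨w1, w2, rfl, h1, w2, [], by simp, hI r hr w2 h2, rfl⟩, h3⟩

/-- Words derived from a nonterminal. -/
def Der (g : ContextFreeGrammar T) (A : g.NT) (w : List T) : Prop :=
  g.Derives [nonterminal A] (w.map terminal)

theorem der_of_yl {g : ContextFreeGrammar T} (s : List (Symbol T g.NT)) : ∀ w : List T,
    Yl (Der g) s w → g.Derives s (w.map terminal) := by
  induction s with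
  | nil =>
    intro w h
    have : w = [] := h
    subst this
    exact Relation.ReflTransGen.refl
  | cons a s ih =>
    intro w h
    cases a with
    | terminal t =>
      obtain ⟨w', rfl, h⟩ := h
      have := (ih w' h).append_left [terminal t]
      simpa using this
    | nonterminal A =>
      obtain ⟨w1, w2, rfl, h1, h2⟩ := h
      have h3 := (ih w2 h2).append_left [nonterminal A]
      have h4 := ContextFreeGrammar.Derives.append_right h1 (w2.map terminal)
      rw [List.map_append]
      exact h3.trans h4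

/-- Completeness of a grammar: the derived words are closed under the rules. -/
theorem complete {g : ContextFreeGrammar T} {r : ContextFreeRule T g.NT} (hr : r ∈ g.rules)
    {w : List T} (h : Yl (Der g) r.output w) : Der g r.input w := by
  have h1 := der_of_yl _ _ h
  refine Relation.ReflTransGen.head ⟨r, hr, ?_⟩ h1
  exact ContextFreeRule.Rewrites.input_output

end Pool.Agent.Helper178.Gram
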