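import Mathlib

set_option linter.unusedVariables false

namespace Pool.Agent.Helper178.Idx

/-! ### chains and runs -/

/-- Chains of length `k` of a relation. -/
def Ch {σ : Type} (E : σ → σ → Prop) : ℕ → σ → σ → Prop
  | 0, p, q => p = q
  | k + 1, p, q => ∃ r, E p r ∧ Ch E k r q

theorem Ch_add {σ : Type} {E : σ → σ → Prop} (i : ℕ) : ∀ (j : ℕ) (p q : σ),
    Ch E (i + j) p q ↔ ∃ r, Ch E i p r ∧ Ch E j r q := by
  induction i with
  | zero =>
    intro j p q
    rw [Nat.zero_add]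
    constructor
    · intro h; exact ⟨p, rfl, h⟩
    · rintro ⟨r, rfl, h⟩; exact h
  | succ i ih =>
    intro j p q
    rw [show i + 1 + j = (i + j) + 1 by omega]
    constructor
    · rintro ⟨r, h1, h2⟩
      obtain ⟨s, h3, h4⟩ := (ih j r q).mp h2
      exact ⟨s, ⟨r, h1, h3⟩, h4⟩
    · rintro ⟨s, ⟨r, h1, h3⟩, h4⟩
      exact ⟨r, h1, (ih j r q).mpr ⟨s, h3, h4⟩⟩

theorem Ch_pigeon {σ : Type} [Fintype σ] {E : σ → σ → Prop} {k : ℕ} {p q : σ}
    (h : Ch E k p q) (hk : Fintype.card σ ≤ k) :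
    ∃ i j r, i < j ∧ j ≤ k ∧ Ch E i p r ∧ Ch E j p r ∧ Ch E (k - i) r q ∧ Ch E (k - j) r q := by
  have hne : Nonempty σ := ⟨p⟩
  have h1 : ∀ i, i ≤ k → ∃ r, Ch E i p r ∧ Ch E (k - i) r q := by
    intro i hi
    have : Ch E (i + (k - i)) p q := by
      rw [show i + (k - i) = k by omega]; exact h
    exact (Ch_add i (k - i) p q).mp this
  choose! f hf1 hf2 using h1
  obtain ⟨i, j, hij, hf⟩ := Fintype.exists_ne_map_eq_of_card_lt (fun i : Fin (k + 1) => f i)
    (by rw [Fintype.card_fin]; omega)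
  wlog hlt : i < j generalizing i j with H
  · exact H j i hij.symm hf.symm (lt_of_le_of_ne (not_lt.mp hlt) hij.symm)
  have hlt' : (i : ℕ) < j := hlt
  have hf' : f i = f j := hf
  refine ⟨i, j, f i, hlt', by omega, hf1 i (by omega), ?_, hf2 i (by omega), ?_⟩
  · rw [hf']; exact hf1 j (by omega)
  · rw [hf']; exact hf2 j (by omega)

theorem Ch_short {σ : Type} [Fintype σ] {E : σ → σ → Prop} : ∀ (k : ℕ) {p q : σ},
    Ch E k p q → ∃ k', k' < Fintype.card σ ∧ k' ≤ k ∧ Ch E k' p q := by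
  intro k
  induction k using Nat.strong_induction_on with
  | _ k ih =>
    intro p q h
    by_cases hk : k < Fintype.card σ
    · exact ⟨k, hk, le_refl _, h⟩
    · obtain ⟨i, j, r, hij, hjk, h1, _, _, h4⟩ := Ch_pigeon h (not_lt.mp hk)
      have h5 : Ch E (i + (k - j)) p q := (Ch_add _ _ _ _).mpr ⟨r, h1, h4⟩
      obtain ⟨k', h6, h7, h8⟩ := ih (i + (k - j)) (by omega) h5
      exact ⟨k', h6, by omega, h8⟩

theorem Ch_long {σ : Type} [Fintype σ] {E : σ → σ → Prop} {k : ℕ} {p q : σ}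
    (h : Ch E k p q) (hk : Fintype.card σ ≤ k) (K : ℕ) : ∃ k' ≥ K, Ch E k' p q := by
  have key : ∀ K, ∃ k', K ≤ k' ∧ Fintype.card σ ≤ k' ∧ Ch E k' p q := by
    intro K
    induction K with
    | zero => exact ⟨k, Nat.zero_le _, hk, h⟩
    | succ K ih =>
      obtain ⟨k', h1, h2, h3⟩ := ih
      obtain ⟨i, j, r, hij, hjk, _, h4, h5, _⟩ := Ch_pigeon h3 h2
      exact ⟨j + (k' - i), by omega, by omega, (Ch_add _ _ _ _).mpr ⟨r, h4, h5⟩⟩
  obtain ⟨k', h1, _, h3⟩ := key K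
  exact ⟨k', h1, h3⟩

/-- Runs. -/
def Run {σ α : Type} (st : σ → α → σ → Prop) : σ → List α → σ → Prop
  | p, [], q => p = q
  | p, a :: w, q => ∃ r, st p a r ∧ Run st r w q

theorem Run_append {σ α : Type} {st : σ → α → σ → Prop} (u : List α) : ∀ (v : List α) (p q : σ),
    Run st p (u ++ v) q ↔ ∃ r, Run st p u r ∧ Run st r v q := by
  induction u with
  | nil =>
    intro v p q
    constructor
    · intro h; exact ⟨p, rfl, h⟩
    · rintro ⟨r, rfl, h⟩; exact h
  | cons a u ih =>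
    intro v p q
    constructor
    · rintro ⟨r, h1, h2⟩
      obtain ⟨s, h3, h4⟩ := (ih v r q).mp h2
      exact ⟨s, ⟨r, h1, h3⟩, h4⟩
    · rintro ⟨s, ⟨r, h1, h3⟩, h4⟩
      exact ⟨r, h1, (ih v r q).mpr ⟨s, h3, h4⟩⟩

theorem Run_rep {σ α : Type} {st : σ → α → σ → Prop} (a : α) (k : ℕ) : ∀ (p q : σ),
    Run st p (List.replicate k a) q ↔ Ch (fun p q => st p a q) k p q := by
  induction k with
  | zero => intro p q; exact Iff.rfl
  | succ k ih =>
    intro p q
    rw [List.replicate_succ]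
    constructor
    · rintro ⟨r, h1, h2⟩; exact ⟨r, h1, (ih r q).mp h2⟩
    · rintro ⟨r, h1, h2⟩; exact ⟨r, h1, (ih r q).mpr h2⟩

/-- Runs on arbitrary words as chains. -/
theorem Run_length {σ α : Type} {st : σ → α → σ → Prop} (k : ℕ) : ∀ (p q : σ),
    (∃ w : List α, w.length = k ∧ Run st p w q) ↔ Ch (fun p q => ∃ a, st p a q) k p q := by
  induction k with
  | zero =>
    intro p q
    constructor
    · rintro ⟨w, hw, h⟩
      rw [List.length_eq_zero_iff] at hw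
      subst hw
      exact h
    · intro h; exact ⟨[], rfl, h⟩
  | succ k ih =>
    intro p q
    constructor
    · rintro ⟨w, hw, h⟩
      cases w with
      | nil => simp at hw
      | cons a w =>
        obtain ⟨r, h1, h2⟩ := h
        exact ⟨r, ⟨a, h1⟩, (ih r q).mp ⟨w, by simpa using hw, h2⟩⟩
    · rintro ⟨r, ⟨a, h1⟩, h2⟩
      obtain ⟨w, hw, h3⟩ := (ih r q).mpr h2
      exact ⟨a :: w, by simp [hw], r, h1, h3⟩

theorem Run_short {σ α : Type} [Fintype σ] {st : σ → α → σ → Prop} {w : List α} {p q : σ}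
    (h : Run st p w q) : ∃ w' : List α, w'.length < Fintype.card σ ∧ Run st p w' q := by
  have h1 := (Run_length (st := st) w.length p q).mp ⟨w, rfl, h⟩
  obtain ⟨k', h2, _, h3⟩ := Ch_short _ h1
  obtain ⟨w', h4, h5⟩ := (Run_length k' p q).mpr h3
  exact ⟨w', by omega, h5⟩

/-- A block may be shortened while its length stays at least `K`. -/
theorem Run_block {σ α : Type} [Fintype σ] {st : σ → α → σ → Prop} {a : α} {e : ℕ} {p q : σ}
    (h : Run st p (List.replicate e a) q) (K : ℕ) (hK : K ≤ e) :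
    ∃ e', K ≤ e' ∧ e' < K + Fintype.card σ ∧ e' ≤ e ∧ Run st p (List.replicate e' a) q := by
  rw [Run_rep, show e = K + (e - K) by omega, Ch_add] at h
  obtain ⟨r, h1, h2⟩ := h
  obtain ⟨k', h3, h4, h5⟩ := Ch_short _ h2
  exact ⟨K + k', by omega, by omega, by omega, (Run_rep _ _ _ _).mpr ((Ch_add _ _ _ _).mpr
    ⟨r, h1, h5⟩)⟩

/-- A long block may be made as long as one likes. -/
theorem Run_block_long {σ α : Type} [Fintype σ] {st : σ → α → σ → Prop} {a : α} {e : ℕ} {p q : σ}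
    (h : Run st p (List.replicate e a) q) (he : Fintype.card σ ≤ e) (K : ℕ) :
    ∃ e' ≥ K, Run st p (List.replicate e' a) q := by
  rw [Run_rep] at h
  obtain ⟨k', h1, h2⟩ := Ch_long h he K
  exact ⟨k', h1, (Run_rep _ _ _ _).mpr h2⟩

/-- Two blocks around a middle part as a chain of pairs. -/
theorem Run_pair {σ α : Type} {st : σ → α → σ → Prop} (a b : α) (k : ℕ) :
    ∀ (p1 p2 q1 q2 : σ),
    (Run st p1 (List.replicate k a) p2 ∧ Run st q2 (List.replicate k b) q1) ↔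
      Ch (fun s t : σ × σ => st s.1 a t.1 ∧ st t.2 b s.2) k (p1, q1) (p2, q2) := by
  induction k with
  | zero =>
    intro p1 p2 q1 q2
    constructor
    · rintro ⟨h1, h2⟩
      have h1' : p1 = p2 := h1
      have h2' : q2 = q1 := h2
      rw [h1', h2']
      rfl
    · intro h
      have h' : (p1, q1) = (p2, q2) := h
      rw [Prod.mk.injEq] at h'
      exact ⟨h'.1, h'.2.symm⟩
  | succ k ih =>
    intro p1 p2 q1 q2
    rw [List.replicate_succ, List.replicate_succ']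
    constructor
    · rintro ⟨⟨r, h1, h2⟩, h3⟩
      obtain ⟨s, h4, t, h5, h6⟩ := (Run_append _ _ _ _).mp h3
      have h6' : t = q1 := h6
      subst h6'
      exact ⟨(r, s), ⟨h1, h5⟩, (ih r p2 s q2).mp ⟨h2, h4⟩⟩
    · rintro ⟨⟨r, s⟩, ⟨h1, h5⟩, h7⟩
      obtain ⟨h2, h4⟩ := (ih r p2 s q2).mpr h7
      exact ⟨⟨r, h1, h2⟩, (Run_append _ _ _ _).mpr ⟨s, h4, q1, h5, rfl⟩⟩

theorem Run_pair_short {σ α : Type} [Fintype σ] {st : σ → α → σ → Prop} {a b : α} {k : ℕ}
    {p1 p2 q1 q2 : σ} (h1 : Run st p1 (List.replicate (k + 1) a) p2)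
    (h2 : Run st q2 (List.replicate (k + 1) b) q1) :
    ∃ k', k' < (Fintype.card σ) ^ 2 ∧ Run st p1 (List.replicate (k' + 1) a) p2 ∧
      Run st q2 (List.replicate (k' + 1) b) q1 := by
  obtain ⟨r, h3, h4⟩ := (Run_pair a b (k + 1) p1 p2 q1 q2).mp ⟨h1, h2⟩
  obtain ⟨k', h5, _, h6⟩ := Ch_short _ h4
  rw [Fintype.card_prod, ← pow_two] at h5
  obtain ⟨h7, h8⟩ := (Run_pair a b (k' + 1) p1 p2 q1 q2).mpr ⟨r, h3, h6⟩
  exact ⟨k', h5, h7, h8⟩

/-! ### the language -/

/-- Three letters. -/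
abbrev X3 := Fin 3
/-- Letter `x`. -/
abbrev lx : X3 := 0
/-- Letter `y`. -/
abbrev ly : X3 := 1
/-- Letter `z`. -/
abbrev lz : X3 := 2

/-- A block. -/
abbrev rp (n : ℕ) (a : X3) : List X3 := List.replicate n a

/-- Forests. -/
inductive D : List X3 → Prop
  | nil : D []
  | node (n e : ℕ) (u v : List X3) : D u → D v →
      D (rp (n + 1) ly ++ (rp (e + 1) lx ++ (u ++ (rp (e + 1) lx ++ (rp (n + 1) lz ++ v)))))

/-- Forests of bounded height. -/
inductive Dh : ℕ → List X3 → Prop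
  | nil (h : ℕ) : Dh h []
  | node (h n e : ℕ) (u v : List X3) : Dh h u → Dh (h + 1) v →
      Dh (h + 1) (rp (n + 1) ly ++ (rp (e + 1) lx ++ (u ++ (rp (e + 1) lx ++
        (rp (n + 1) lz ++ v)))))

theorem Dh.toD {h : ℕ} {w : List X3} (hw : Dh h w) : D w := by
  induction hw with
  | nil h => exact .nil
  | node h n e u v _ _ ih1 ih2 => exact .node n e u v ih1 ih2

/-- The word starts with a block of `y`, a block of `x` of length `E` and another letter. -/
def FB (v : List X3) (E : ℕ) : Prop :=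
  ∃ (a : ℕ) (t : X3) (r : List X3), t ≠ lx ∧ v = rp (a + 1) ly ++ (rp E lx ++ t :: r)

/-- The violations. -/
def V (w : List X3) : Prop :=
  ∃ (α : List X3) (e : ℕ) (v : List X3) (E : ℕ), 1 ≤ E ∧ FB v E ∧
    ((w = α ++ (rp e lx ++ v) ∧ E < 2 * e) ∨
      ∃ b, w = α ++ (rp e lx ++ (rp (b + 1) lz ++ v)) ∧ E < e)

theorem V.right {w : List X3} (h : V w) (β : List X3) : V (w ++ β) := by
  obtain ⟨α, e, v, E, h1, ⟨a, t, r, ht, rfl⟩, h2⟩ := h
  refine ⟨α, e, rp (a + 1) ly ++ (rp E lx ++ t :: (r ++ β)), E, h1, ⟨a, t, r ++ β, ht, rfl⟩, ?_⟩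
  rcases h2 with ⟨rfl, h2⟩ | ⟨b, rfl, h2⟩
  · exact Or.inl ⟨by simp, h2⟩
  · exact Or.inr ⟨b, by simp, h2⟩

theorem V.left {w : List X3} (h : V w) (α' : List X3) : V (α' ++ w) := by
  obtain ⟨α, e, v, E, h1, h3, h2⟩ := h
  refine ⟨α' ++ α, e, v, E, h1, h3, ?_⟩
  rcases h2 with ⟨rfl, h2⟩ | ⟨b, rfl, h2⟩
  · exact Or.inl ⟨by simp, h2⟩
  · exact Or.inr ⟨b, by simp, h2⟩

/-! ### short violations -/

theorem V_short {σ : Type} [Fintype σ] {st : σ → X3 → σ → Prop} {w : List X3} {p q : σ}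
    (hw : V w) (h : Run st p w q) :
    ∃ w', V w' ∧ Run st p w' q ∧ w'.length ≤ 7 * Fintype.card σ + 1 := by
  set N := Fintype.card σ with hN
  obtain ⟨α, e, v, E, h1, ⟨a, t, r, ht, rfl⟩, h2⟩ := hw
  have hN1 : 1 ≤ N := Fintype.card_pos_iff.mpr ⟨p⟩
  -- a common treatment of the last part
  have tail : ∀ s : σ, Run st s (rp (a + 1) ly ++ (rp E lx ++ t :: r)) q →
      ∃ v' E', 1 ≤ E' ∧ E' ≤ E ∧ E' ≤ N ∧ FB v' E' ∧ Run st s v' q ∧
        v'.length ≤ 3 * N + 1 := by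
    intro s hs
    obtain ⟨s1, h3, h4⟩ := (Run_append _ _ _ _).mp hs
    obtain ⟨s2, h5, s3, h6, h7⟩ := (Run_append _ _ _ _).mp h4
    obtain ⟨a', ha1, ha2, _, h8⟩ := Run_block h3 1 (by omega)
    obtain ⟨E', hE1, hE2, hE3, h9⟩ := Run_block h5 1 h1
    obtain ⟨r', hr1, h10⟩ := Run_short h7
    obtain ⟨a'', rfl⟩ : ∃ a'', a' = a'' + 1 := ⟨a' - 1, by omega⟩
    refine ⟨rp (a'' + 1) ly ++ (rp E' lx ++ t :: r'), E', hE1, hE3, by omega,
      ⟨a'', t, r', ht, rfl⟩, ?_, ?_⟩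
    · exact (Run_append _ _ _ _).mpr ⟨s1, h8, (Run_append _ _ _ _).mpr ⟨s2, h9, s3, h6, h10⟩⟩
    · simp only [rp, List.length_append, List.length_replicate, List.length_cons]
      omega
  rcases h2 with ⟨rfl, h2⟩ | ⟨b, rfl, h2⟩
  · obtain ⟨s0, h3, h4⟩ := (Run_append _ _ _ _).mp h
    obtain ⟨s1, h5, h6⟩ := (Run_append _ _ _ _).mp h4
    obtain ⟨α', hα, h7⟩ := Run_short h3
    obtain ⟨v', E', g1, g2, g3, g4, g5, g6⟩ := tail s1 h6
    have he : ∃ e', E' < 2 * e' ∧ e' ≤ 2 * N ∧ Run st s0 (rp e' lx) s1 := by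
      by_cases he : e ≤ 2 * N
      · exact ⟨e, by omega, he, h5⟩
      · obtain ⟨e', k1, k2, _, k3⟩ := Run_block h5 N (by omega)
        exact ⟨e', by omega, by omega, k3⟩
    obtain ⟨e', k1, k2, k3⟩ := he
    refine ⟨α' ++ (rp e' lx ++ v'), ⟨α', e', v', E', g1, g4, Or.inl ⟨rfl, k1⟩⟩, ?_, ?_⟩
    · exact (Run_append _ _ _ _).mpr ⟨s0, h7, (Run_append _ _ _ _).mpr ⟨s1, k3, g5⟩⟩
    · simp only [rp, List.length_append, List.length_replicate]
      omega
  · obtain ⟨s0, h3, h4⟩ := (Run_append _ _ _ _).mp h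
    obtain ⟨s1, h5, h6⟩ := (Run_append _ _ _ _).mp h4
    obtain ⟨s2, h6', h6⟩ := (Run_append _ _ _ _).mp h6
    obtain ⟨α', hα, h7⟩ := Run_short h3
    obtain ⟨v', E', g1, g2, g3, g4, g5, g6⟩ := tail s2 h6
    obtain ⟨b', hb1, hb2, _, h8⟩ := Run_block h6' 1 (by omega)
    obtain ⟨b'', rfl⟩ : ∃ b'', b' = b'' + 1 := ⟨b' - 1, by omega⟩
    have he : ∃ e', E' < e' ∧ e' ≤ 2 * N ∧ Run st s0 (rp e' lx) s1 := by
      by_cases he : e ≤ 2 * N
      · exact ⟨e, by omega, he, h5⟩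
      · obtain ⟨e', k1, k2, _, k3⟩ := Run_block h5 (N + 1) (by omega)
        exact ⟨e', by omega, by omega, k3⟩
    obtain ⟨e', k1, k2, k3⟩ := he
    refine ⟨α' ++ (rp e' lx ++ (rp (b'' + 1) lz ++ v')),
      ⟨α', e', v', E', g1, g4, Or.inr ⟨b'', rfl, k1⟩⟩, ?_, ?_⟩
    · exact (Run_append _ _ _ _).mpr ⟨s0, h7, (Run_append _ _ _ _).mpr ⟨s1, k3,
        (Run_append _ _ _ _).mpr ⟨s2, h8, g5⟩⟩⟩
    · simp only [rp, List.length_append, List.length_replicate]
      omega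

/-! ### short forests of bounded height -/

/-- The bound on the lengths of short forests. -/
def Bd (N : ℕ) : ℕ → ℕ
  | 0 => 0
  | h + 1 => N * (4 * N ^ 2 + Bd N h)

theorem Dh_short {σ : Type} [Fintype σ] {st : σ → X3 → σ → Prop} (h : ℕ) :
    ∀ (w : List X3) (p q : σ), Dh h w → Run st p w q →
      ∃ w', Dh h w' ∧ Run st p w' q ∧ w'.length ≤ Bd (Fintype.card σ) h := by
  set N := Fintype.card σ with hN
  induction h with
  | zero =>
    intro w p q hw hr
    cases hw with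
    | nil => exact ⟨[], .nil _, hr, by simp⟩
  | succ h ih =>
    let E : σ → σ → Prop := fun p q => ∃ n e u, Dh h u ∧
      Run st p (rp (n + 1) ly ++ (rp (e + 1) lx ++ (u ++ (rp (e + 1) lx ++ rp (n + 1) lz)))) q ∧
      (rp (n + 1) ly ++ (rp (e + 1) lx ++ (u ++ (rp (e + 1) lx ++ rp (n + 1) lz)))).length ≤
        4 * N ^ 2 + Bd N h
    have toChain : ∀ (k : ℕ) (w : List X3), Dh k w → k = h + 1 → ∀ p q, Run st p w q →
        ∃ m, Ch E m p q := by
      intro k w hw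
      induction hw with
      | nil => intro _ p q hr; exact ⟨0, hr⟩
      | node k n e u v hu hv _ ihv =>
        intro hk p q hr
        have hk' : k = h := by omega
        subst hk'
        obtain ⟨s1, g1, hr⟩ := (Run_append _ _ _ _).mp hr
        obtain ⟨s2, g2, hr⟩ := (Run_append _ _ _ _).mp hr
        obtain ⟨s3, g3, hr⟩ := (Run_append _ _ _ _).mp hr
        obtain ⟨s4, g4, hr⟩ := (Run_append _ _ _ _).mp hr
        obtain ⟨s5, g5, g6⟩ := (Run_append _ _ _ _).mp hr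
        obtain ⟨m, hm⟩ := ihv rfl s5 q g6
        obtain ⟨n', hn', g1', g5'⟩ := Run_pair_short g1 g5
        obtain ⟨e', he', g2', g4'⟩ := Run_pair_short g2 g4
        obtain ⟨u', hu', g3', hl⟩ := ih u s2 s3 hu g3
        refine ⟨m + 1, s5, ⟨n', e', u', hu', ?_, ?_⟩, hm⟩
        · exact (Run_append _ _ _ _).mpr ⟨s1, g1', (Run_append _ _ _ _).mpr ⟨s2, g2',
            (Run_append _ _ _ _).mpr ⟨s3, g3', (Run_append _ _ _ _).mpr ⟨s4, g4', g5'⟩⟩⟩⟩
        · simp only [rp, List.length_append, List.length_replicate]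
          rw [← hN] at hn' he'
          omega
    have ofChain : ∀ (m : ℕ) (p q : σ), Ch E m p q →
        ∃ w', Dh (h + 1) w' ∧ Run st p w' q ∧ w'.length ≤ m * (4 * N ^ 2 + Bd N h) := by
      intro m
      induction m with
      | zero =>
        intro p q hm
        exact ⟨[], .nil _, hm, by simp⟩
      | succ m ihm =>
        rintro p q ⟨r, ⟨n, e, u, hu, hr, hl⟩, hm⟩
        obtain ⟨v, hv, hrv, hlv⟩ := ihm r q hm
        refine ⟨_, .node h n e u v hu hv, ?_, ?_⟩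
        · have := (Run_append (st := st) _ v p q).mpr ⟨r, hr, hrv⟩
          simpa only [List.append_assoc] using this
        · simp only [rp, List.length_append, List.length_replicate] at hl ⊢
          calc _ = (n + 1 + (e + 1 + (u.length + (e + 1 + (n + 1))))) + v.length := by ring
            _ ≤ (4 * N ^ 2 + Bd N h) + m * (4 * N ^ 2 + Bd N h) := Nat.add_le_add hl hlv
            _ = _ := by ring
    intro w p q hw hr
    obtain ⟨m, hm⟩ := toChain (h + 1) w hw rfl p q hr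
    obtain ⟨m', h1, _, h2⟩ := Ch_short _ hm
    obtain ⟨w', h3, h4, h5⟩ := ofChain m' p q h2
    refine ⟨w', h3, h4, h5.trans ?_⟩
    exact Nat.mul_le_mul (by rw [hN]; omega) (le_refl _)

/-! ### the height is bounded when there is no violation -/

theorem D_first {w : List X3} (hw : D w) : w = [] ∨ ∃ E ≥ 1, FB w E := by
  cases hw with
  | nil => exact Or.inl rfl
  | node n e u v hu hv =>
    right
    cases hu with
    | nil =>
      refine ⟨(e + 1) + (e + 1), by omega, n, lz, rp n lz ++ v, by decide, ?_⟩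
      simp only [rp, List.replicate_add, List.append_assoc, List.nil_append,
        List.replicate_succ, List.cons_append]
    | node n' e' u' v' _ _ =>
      refine ⟨e + 1, by omega, n, ly,
        rp n' ly ++ (rp (e' + 1) lx ++ (u' ++ (rp (e' + 1) lx ++ (rp (n' + 1) lz ++ v')))) ++
          (rp (e + 1) lx ++ (rp (n + 1) lz ++ v)), by decide, ?_⟩
      simp [rp, List.replicate_succ]

theorem D_height {σ : Type} [Fintype σ] {st : σ → X3 → σ → Prop} {Re Co : σ → Prop}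
    (hRe : ∀ p w q, Re p → Run st p w q → Re q) (hCo : ∀ p w q, Co q → Run st p w q → Co p)
    (hNV : ∀ p w q, Re p → Co q → Run st p w q → ¬ V w) {w : List X3} (hw : D w) :
    ∀ (p q : σ) (F h : ℕ), Re p → Co q → Run st p w q → (∀ E ≥ 1, FB w E → F ≤ E) → 1 ≤ F →
      1 ≤ h → Fintype.card σ ≤ F * 2 ^ (h - 1) → Dh h w := by
  induction hw with
  | nil => intro p q F h _ _ _ _ _ _ _; exact .nil h
  | node n e u v hu hv ihu ihv =>
    intro p q F h hp hq hr hF hF1 hh hN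
    obtain ⟨s1, g1, hr⟩ := (Run_append _ _ _ _).mp hr
    obtain ⟨s2, g2, hr⟩ := (Run_append _ _ _ _).mp hr
    obtain ⟨s3, g3, hr⟩ := (Run_append _ _ _ _).mp hr
    obtain ⟨s4, g4, hr⟩ := (Run_append _ _ _ _).mp hr
    obtain ⟨s5, g5, g6⟩ := (Run_append _ _ _ _).mp hr
    have r1 := hRe _ _ _ hp g1
    have r2 := hRe _ _ _ r1 g2
    have r3 := hRe _ _ _ r2 g3
    have r4 := hRe _ _ _ r3 g4
    have r5 := hRe _ _ _ r4 g5
    have c5 := hCo _ _ _ hq g6
    have c4 := hCo _ _ _ c5 g5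
    have c3 := hCo _ _ _ c4 g4
    have c2 := hCo _ _ _ c3 g3
    have c1 := hCo _ _ _ c2 g2
    obtain ⟨h', rfl⟩ : ∃ h', h = h' + 1 := ⟨h - 1, by omega⟩
    rw [Nat.add_sub_cancel] at hN
    -- the part `v`
    have hv' : Dh (h' + 1) v := by
      refine ihv s5 q F (h' + 1) r5 hq g6 ?_ hF1 (by omega) (by simpa using hN)
      intro E hE hfb
      have hblock : e + 1 ≤ E := by
        by_contra hlt
        refine hNV s3 (rp (e + 1) lx ++ (rp (n + 1) lz ++ v)) q r3 hq ?_ ?_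
        · exact (Run_append _ _ _ _).mpr ⟨s4, g4, (Run_append _ _ _ _).mpr ⟨s5, g5, g6⟩⟩
        · exact ⟨[], e + 1, v, E, hE, hfb, Or.inr ⟨n, rfl, by omega⟩⟩
      rcases D_first hu with rfl | ⟨E0, hE0, hfb0⟩
      · have hblock2 : 2 * (e + 1) ≤ E := by
          by_contra hlt
          have g3' : s2 = s3 := g3
          subst g3'
          refine hNV s1 (rp (e + 1 + (e + 1)) lx ++ (rp (n + 1) lz ++ v)) q r1 hq ?_ ?_
          · rw [rp, List.replicate_add, List.append_assoc]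
            exact (Run_append _ _ _ _).mpr ⟨s2, g2, (Run_append _ _ _ _).mpr ⟨s4, g4,
              (Run_append _ _ _ _).mpr ⟨s5, g5, g6⟩⟩⟩
          · exact ⟨[], e + 1 + (e + 1), v, E, hE, hfb, Or.inr ⟨n, rfl, by omega⟩⟩
        have := hF (e + 1 + (e + 1)) (by omega) ⟨n, lz, rp n lz ++ v, by decide, by
          simp only [rp, List.replicate_add, List.append_assoc, List.nil_append,
            List.replicate_succ, List.cons_append]⟩
        omega
      · obtain ⟨a, t, r, ht, rfl⟩ := hfb0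
        have := hF (e + 1) (by omega) ⟨n, ly, rp a ly ++ (rp E0 lx ++ t :: r) ++
          (rp (e + 1) lx ++ (rp (n + 1) lz ++ v)), by decide, by
          simp [rp, List.replicate_succ]⟩
        omega
    -- the part `u`
    have hu' : Dh h' u := by
      rcases D_first hu with rfl | ⟨E0, hE0, hfb0⟩
      · exact .nil h'
      · have hFe : F ≤ e + 1 := by
          obtain ⟨a, t, r, ht, rfl⟩ := hfb0
          exact hF (e + 1) (by omega) ⟨n, ly, rp a ly ++ (rp E0 lx ++ t :: r) ++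
            (rp (e + 1) lx ++ (rp (n + 1) lz ++ v)), by decide, by
            simp [rp, List.replicate_succ]⟩
        have heN : e + 1 < Fintype.card σ := by
          by_contra hlt
          obtain ⟨e', he', g2'⟩ := Run_block_long g2 (not_lt.mp hlt) (E0 + 1)
          refine hNV s1 (rp e' lx ++ u) s3 r1 c3 ((Run_append _ _ _ _).mpr ⟨s2, g2', g3⟩) ?_
          exact ⟨[], e', u, E0, hE0, hfb0, Or.inl ⟨rfl, by omega⟩⟩
        have hh' : h' ≠ 0 := by
          rintro rfl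
          simp at hN
          omega
        obtain ⟨h'', rfl⟩ : ∃ h'', h' = h'' + 1 := ⟨h' - 1, by omega⟩
        refine ihu s2 s3 (2 * F) (h'' + 1) r2 c3 g3 ?_ (by omega) (by omega) ?_
        · intro E hE hfb
          have : 2 * (e + 1) ≤ E := by
            by_contra hlt
            refine hNV s1 (rp (e + 1) lx ++ u) s3 r1 c3 ((Run_append _ _ _ _).mpr ⟨s2, g2, g3⟩) ?_
            exact ⟨[], e + 1, u, E, hE, hfb, Or.inl ⟨rfl, by omega⟩⟩
          omega
        · rw [Nat.add_sub_cancel]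
          calc _ ≤ F * 2 ^ (h'' + 1) := hN
            _ = 2 * F * 2 ^ h'' := by ring
    exact .node h' n e u v hu' hv'

/-- The language. -/
def Lang : Language X3 := {w | D w ∨ V w}

/-- The upper bound. -/
def UB (N : ℕ) : ℕ := 7 * N + 1 + Bd N (Nat.log 2 N + 2)

theorem Run_nfa {σ α : Type} (M : NFA α σ) (w : List α) : ∀ (S : Set σ) (q : σ),
    q ∈ M.evalFrom S w ↔ ∃ p ∈ S, Run (fun p a q => q ∈ M.step p a) p w q := by
  induction w with
  | nil =>
    intro S q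
    constructor
    · intro h; exact ⟨q, h, rfl⟩
    · rintro ⟨p, hp, rfl⟩; exact hp
  | cons a w ih =>
    intro S q
    rw [NFA.evalFrom_cons, ih]
    constructor
    · rintro ⟨r, hr, h⟩
      obtain ⟨p, hp, hpr⟩ := NFA.mem_stepSet.mp hr
      exact ⟨p, hp, r, hpr, h⟩
    · rintro ⟨p, hp, r, hpr, h⟩
      exact ⟨r, NFA.mem_stepSet.mpr ⟨p, hp, hpr⟩, h⟩

theorem upper {σ : Type} [Fintype σ] (M : NFA X3 σ) {w : List X3} (hw : w ∈ Lang)
    (hM : w ∈ M.accepts) : ∃ w' ∈ Lang, w' ∈ M.accepts ∧ w'.length ≤ UB (Fintype.card σ) := by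
  set st : σ → X3 → σ → Prop := fun p a q => q ∈ M.step p a with hst
  by_cases hV : ∃ w, V w ∧ w ∈ M.accepts
  · obtain ⟨w, hwV, q, hq, hrun⟩ := hV
    obtain ⟨p, hp, hrun⟩ := (Run_nfa M w _ q).mp hrun
    obtain ⟨w', h1, h2, h3⟩ := V_short hwV hrun
    refine ⟨w', Or.inr h1, ⟨q, hq, (Run_nfa M w' _ q).mpr ⟨p, hp, h2⟩⟩, ?_⟩
    unfold UB
    omega
  · push Not at hV
    have hD : D w := by
      rcases hw with h | h
      · exact h
      · exact absurd hM (hV w h)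
    obtain ⟨q, hq, hrun⟩ := hM
    obtain ⟨p, hp, hrun⟩ := (Run_nfa M w _ q).mp hrun
    have hh : Dh (Nat.log 2 (Fintype.card σ) + 2) w := by
      refine D_height (st := st) (Re := fun r => ∃ s ∈ M.start, ∃ α, Run st s α r)
        (Co := fun r => ∃ f ∈ M.accept, ∃ β, Run st r β f) ?_ ?_ ?_ hD p q 1 _
        ⟨p, hp, [], rfl⟩ ⟨q, hq, [], rfl⟩ hrun ?_ (le_refl _) (by omega) ?_
      · rintro r w r' ⟨s, hs, α, hα⟩ hr
        exact ⟨s, hs, α ++ w, (Run_append _ _ _ _).mpr ⟨r, hα, hr⟩⟩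
      · rintro r w r' ⟨f, hf, β, hβ⟩ hr
        exact ⟨f, hf, w ++ β, (Run_append _ _ _ _).mpr ⟨r', hr, hβ⟩⟩
      · rintro r w r' ⟨s, hs, α, hα⟩ ⟨f, hf, β, hβ⟩ hr hVw
        refine hV (α ++ (w ++ β)) ((hVw.right β).left α) ⟨f, hf, (Run_nfa M _ _ f).mpr ⟨s, hs, ?_⟩⟩
        exact (Run_append _ _ _ _).mpr ⟨r, hα, (Run_append _ _ _ _).mpr ⟨r', hr, hβ⟩⟩
      · intro E hE _; exact hE
      · rw [show Nat.log 2 (Fintype.card σ) + 2 - 1 = (Nat.log 2 (Fintype.card σ)).succ by omega,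
          one_mul]
        exact (Nat.lt_pow_succ_log_self (by norm_num) _).le
    obtain ⟨w', h1, h2, h3⟩ := Dh_short _ w p q hh hrun
    refine ⟨w', Or.inl h1.toD, ⟨q, hq, (Run_nfa M w' _ q).mpr ⟨p, hp, h2⟩⟩, ?_⟩
    unfold UB
    omega

end Pool.Agent.Helper178.Idx
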