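import Pool.Agent.Helper178.GramLfp
import Pool.Agent.Helper178.IdxUp

set_option linter.unusedVariables false

namespace Pool.Agent.Helper178.Idx

open Symbol Pool.Agent.Helper178.Gram

/-- Nonterminals. -/
inductive NT
  | Z
  | A
  | Y
  | W
  | P
  | Q
  | S
  | T
  | U
  deriving DecidableEq

/-- Symbols. -/
abbrev Sm := Symbol X3 NT

/-- The rules. -/
def rl : List (ContextFreeRule X3 NT) := [
  ⟨.Z, [nonterminal .S]⟩,
  ⟨.Z, [nonterminal .A, nonterminal .P, terminal ly, nonterminal .A]⟩,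
  ⟨.Z, [nonterminal .A, nonterminal .P, terminal lz, nonterminal .A]⟩,
  ⟨.Z, [nonterminal .A, nonterminal .Q, terminal ly, nonterminal .A]⟩,
  ⟨.Z, [nonterminal .A, nonterminal .Q, terminal lz, nonterminal .A]⟩,
  ⟨.A, []⟩,
  ⟨.A, [terminal lx, nonterminal .A]⟩,
  ⟨.A, [terminal ly, nonterminal .A]⟩,
  ⟨.A, [terminal lz, nonterminal .A]⟩,
  ⟨.Y, [terminal ly]⟩,
  ⟨.Y, [terminal ly, nonterminal .Y]⟩,
  ⟨.W, [terminal lz, nonterminal .Y]⟩,
  ⟨.W, [terminal lz, nonterminal .W]⟩,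
  ⟨.P, [terminal lx, nonterminal .Y, terminal lx]⟩,
  ⟨.P, [terminal lx, nonterminal .P]⟩,
  ⟨.P, [terminal lx, nonterminal .P, terminal lx]⟩,
  ⟨.P, [terminal lx, nonterminal .P, terminal lx, terminal lx]⟩,
  ⟨.Q, [terminal lx, terminal lx, nonterminal .W, terminal lx]⟩,
  ⟨.Q, [terminal lx, nonterminal .Q]⟩,
  ⟨.Q, [terminal lx, nonterminal .Q, terminal lx]⟩,
  ⟨.S, []⟩,
  ⟨.S, [terminal ly, nonterminal .T, terminal lz, nonterminal .S]⟩,
  ⟨.T, [terminal ly, nonterminal .T, terminal lz]⟩,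
  ⟨.T, [terminal lx, nonterminal .U, terminal lx]⟩,
  ⟨.U, [terminal lx, nonterminal .U, terminal lx]⟩,
  ⟨.U, [nonterminal .S]⟩]

/-- The grammar. -/
def gr : ContextFreeGrammar X3 where
  NT := NT
  initial := NT.Z
  rules := rl.toFinset

theorem mem_gr (r : ContextFreeRule X3 NT) : r ∈ gr.rules ↔ r ∈ rl := by
  show r ∈ rl.toFinset ↔ _
  exact List.mem_toFinset

/-- The interpretation. -/
def In : NT → List X3 → Prop
  | .Z, w => D w ∨ V w
  | .A, _ => True
  | .Y, w => ∃ a, w = rp (a + 1) ly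
  | .W, w => ∃ b a, w = rp (b + 1) lz ++ rp (a + 1) ly
  | .P, w => ∃ e a E, 1 ≤ E ∧ E < 2 * e ∧ w = rp e lx ++ (rp (a + 1) ly ++ rp E lx)
  | .Q, w => ∃ e b a E, 1 ≤ E ∧ E < e ∧
      w = rp e lx ++ (rp (b + 1) lz ++ (rp (a + 1) ly ++ rp E lx))
  | .S, w => D w
  | .T, w => ∃ n e u, D u ∧ w = rp n ly ++ (rp (e + 1) lx ++ (u ++ (rp (e + 1) lx ++ rp n lz)))
  | .U, w => ∃ e u, D u ∧ w = rp e lx ++ (u ++ rp e lx)

theorem rp_succ' (n : ℕ) (a : X3) : rp n a ++ [a] = rp (n + 1) a := by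
  rw [rp, rp, List.replicate_succ']

theorem rp_succ (n : ℕ) (a : X3) : a :: rp n a = rp (n + 1) a := by
  rw [rp, rp, List.replicate_succ]

theorem In_P {u w1 : List X3} {t : X3} (ht : t ≠ lx) {r : List X3} (h : In .P w1) :
    V (u ++ (w1 ++ t :: r)) := by
  obtain ⟨e, a, E, h1, h2, rfl⟩ := h
  refine ⟨u, e, rp (a + 1) ly ++ (rp E lx ++ t :: r), E, h1, ⟨a, t, r, ht, rfl⟩, Or.inl ⟨?_, h2⟩⟩
  simp only [List.append_assoc]

theorem In_Q {u w1 : List X3} {t : X3} (ht : t ≠ lx) {r : List X3} (h : In .Q w1) :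
    V (u ++ (w1 ++ t :: r)) := by
  obtain ⟨e, b, a, E, h1, h2, rfl⟩ := h
  refine ⟨u, e, rp (a + 1) ly ++ (rp E lx ++ t :: r), E, h1, ⟨a, t, r, ht, rfl⟩,
    Or.inr ⟨b, ?_, h2⟩⟩
  simp only [List.append_assoc]

theorem In_closed : ∀ r ∈ rl, ∀ w, Yl In r.output w → In r.input w := by
  intro r hr
  simp only [rl, List.mem_cons, List.not_mem_nil, or_false] at hr
  rcases hr with rfl | rfl | rfl | rfl | rfl | rfl | rfl | rfl | rfl | rfl | rfl | rfl | rfl |
    rfl | rfl | rfl | rfl | rfl | rfl | rfl | rfl | rfl | rfl | rfl | rfl | rfl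
  · rintro _ ⟨w1, _, rfl, h, rfl⟩
    left
    rw [List.append_nil]
    exact h
  · rintro _ ⟨u, _, rfl, _, w1, _, rfl, h, _, rfl, r, _, rfl, _, rfl⟩
    right
    rw [List.append_nil]
    exact In_P (by decide) h
  · rintro _ ⟨u, _, rfl, _, w1, _, rfl, h, _, rfl, r, _, rfl, _, rfl⟩
    right
    rw [List.append_nil]
    exact In_P (by decide) h
  · rintro _ ⟨u, _, rfl, _, w1, _, rfl, h, _, rfl, r, _, rfl, _, rfl⟩
    right
    rw [List.append_nil]
    exact In_Q (by decide) h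
  · rintro _ ⟨u, _, rfl, _, w1, _, rfl, h, _, rfl, r, _, rfl, _, rfl⟩
    right
    rw [List.append_nil]
    exact In_Q (by decide) h
  · intro _ _; trivial
  · intro _ _; trivial
  · intro _ _; trivial
  · intro _ _; trivial
  · rintro _ ⟨_, rfl, rfl⟩
    exact ⟨0, rfl⟩
  · rintro _ ⟨_, rfl, _, _, rfl, ⟨a, rfl⟩, rfl⟩
    exact ⟨a + 1, by rw [List.append_nil, rp_succ]⟩
  · rintro _ ⟨_, rfl, _, _, rfl, ⟨a, rfl⟩, rfl⟩
    exact ⟨0, a, by rw [List.append_nil]; rfl⟩
  · rintro _ ⟨_, rfl, _, _, rfl, ⟨b, a, rfl⟩, rfl⟩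
    exact ⟨b + 1, a, by rw [List.append_nil, ← rp_succ (b + 1)]; rfl⟩
  · rintro _ ⟨_, rfl, _, _, rfl, ⟨a, rfl⟩, _, rfl, rfl⟩
    exact ⟨1, a, 1, le_refl _, by norm_num, rfl⟩
  · rintro _ ⟨_, rfl, _, _, rfl, ⟨e, a, E, h1, h2, rfl⟩, rfl⟩
    exact ⟨e + 1, a, E, h1, by omega, by rw [List.append_nil, ← rp_succ e]; rfl⟩
  · rintro _ ⟨_, rfl, _, _, rfl, ⟨e, a, E, h1, h2, rfl⟩, _, rfl, rfl⟩
    refine ⟨e + 1, a, E + 1, by omega, by omega, ?_⟩
    rw [← rp_succ e, ← rp_succ' E]
    simp only [List.append_assoc, List.cons_append]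
  · rintro _ ⟨_, rfl, _, _, rfl, ⟨e, a, E, h1, h2, rfl⟩, _, rfl, _, rfl, rfl⟩
    refine ⟨e + 1, a, E + 1 + 1, by omega, by omega, ?_⟩
    rw [← rp_succ e, ← rp_succ' (E + 1), ← rp_succ' E]
    simp only [List.append_assoc, List.cons_append, List.nil_append]
  · rintro _ ⟨_, rfl, _, rfl, _, _, rfl, ⟨b, a, rfl⟩, _, rfl, rfl⟩
    refine ⟨2, b, a, 1, le_refl _, by norm_num, ?_⟩
    simp only [List.append_assoc]
    rfl
  · rintro _ ⟨_, rfl, _, _, rfl, ⟨e, b, a, E, h1, h2, rfl⟩, rfl⟩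
    exact ⟨e + 1, b, a, E, h1, by omega, by rw [List.append_nil, ← rp_succ e]; rfl⟩
  · rintro _ ⟨_, rfl, _, _, rfl, ⟨e, b, a, E, h1, h2, rfl⟩, _, rfl, rfl⟩
    refine ⟨e + 1, b, a, E + 1, by omega, by omega, ?_⟩
    rw [← rp_succ e, ← rp_succ' E]
    simp only [List.append_assoc, List.cons_append]
  · rintro _ rfl
    exact .nil
  · rintro _ ⟨_, rfl, _, _, rfl, ⟨n, e, u, hu, rfl⟩, _, rfl, v, _, rfl, hv, rfl⟩
    have := D.node n e u v hu hv
    rw [← rp_succ n ly, ← rp_succ' n lz] at this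
    show D _
    simpa only [List.append_assoc, List.cons_append, List.nil_append, List.append_nil] using this
  · rintro _ ⟨_, rfl, _, _, rfl, ⟨n, e, u, hu, rfl⟩, _, rfl, rfl⟩
    refine ⟨n + 1, e, u, hu, ?_⟩
    rw [← rp_succ n ly, ← rp_succ' n lz]
    simp only [List.append_assoc, List.cons_append]
  · rintro _ ⟨_, rfl, _, _, rfl, ⟨e, u, hu, rfl⟩, _, rfl, rfl⟩
    refine ⟨0, e, u, hu, ?_⟩
    have h1 : lx :: (rp e lx ++ (u ++ rp e lx) ++ [lx]) = rp (e + 1) lx ++ (u ++ rp (e + 1) lx) := by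
      rw [← rp_succ' e lx, ← List.append_assoc u, ← List.append_assoc (rp e lx ++ [lx])]
      rw [rp_succ', ← rp_succ e]
      simp only [List.append_assoc, List.cons_append]
    rw [h1]
    simp [rp]
  · rintro _ ⟨_, rfl, _, _, rfl, ⟨e, u, hu, rfl⟩, _, rfl, rfl⟩
    refine ⟨e + 1, u, hu, ?_⟩
    rw [← rp_succ' e lx, ← List.append_assoc u, ← List.append_assoc (rp e lx ++ [lx])]
    rw [rp_succ', ← rp_succ e]
    simp only [List.append_assoc, List.cons_append]
  · rintro _ ⟨w1, _, rfl, h, rfl⟩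
    refine ⟨0, w1, h, ?_⟩
    simp [rp]

/-- Words derived from a nonterminal of the grammar. -/
abbrev Dr (A : NT) (w : List X3) : Prop := Der gr A w

theorem dr_rule {A : NT} {s : List Sm} (h : (⟨A, s⟩ : ContextFreeRule X3 NT) ∈ rl) {w : List X3}
    (hw : Yl Dr s w) : Dr A w :=
  complete (g := gr) (r := ⟨A, s⟩) ((mem_gr _).mpr h) hw

theorem dr_A (w : List X3) : Dr .A w := by
  induction w with
  | nil => exact dr_rule (s := []) (by simp [rl]) rfl
  | cons t w ih =>
    have h : ∀ t : X3, (⟨.A, [terminal t, nonterminal .A]⟩ : ContextFreeRule X3 NT) ∈ rl := by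
      decide
    exact dr_rule (h t) ⟨w, rfl, w, [], by simp, ih, rfl⟩

theorem dr_Y (a : ℕ) : Dr .Y (rp (a + 1) ly) := by
  induction a with
  | zero => exact dr_rule (s := [terminal ly]) (by simp [rl]) ⟨[], rfl, rfl⟩
  | succ a ih =>
    exact dr_rule (s := [terminal ly, nonterminal .Y]) (by simp [rl])
      ⟨rp (a + 1) ly, rfl, _, [], by simp, ih, rfl⟩

theorem dr_W (b a : ℕ) : Dr .W (rp (b + 1) lz ++ rp (a + 1) ly) := by
  induction b with
  | zero =>
    exact dr_rule (s := [terminal lz, nonterminal .Y]) (by simp [rl])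
      ⟨rp (a + 1) ly, rfl, _, [], by simp, dr_Y a, rfl⟩
  | succ b ih =>
    exact dr_rule (s := [terminal lz, nonterminal .W]) (by simp [rl])
      ⟨rp (b + 1) lz ++ rp (a + 1) ly, rfl, _, [], by simp, ih, rfl⟩

theorem dr_P (a e : ℕ) : ∀ E, 1 ≤ E → E < 2 * e →
    Dr .P (rp e lx ++ (rp (a + 1) ly ++ rp E lx)) := by
  induction e with
  | zero => intro E _ h; omega
  | succ e ih =>
    intro E h1 h2
    by_cases he : e = 0
    · subst he
      have hE : E = 1 := by omega
      subst hE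
      exact dr_rule (s := [terminal lx, nonterminal .Y, terminal lx]) (by simp [rl])
        ⟨rp (a + 1) ly ++ rp 1 lx, rfl, rp (a + 1) ly, rp 1 lx, rfl, dr_Y a, [], rfl, rfl⟩
    · by_cases hE1 : E = 1
      · subst hE1
        exact dr_rule (s := [terminal lx, nonterminal .P]) (by simp [rl])
          ⟨_, rfl, _, [], (List.append_nil _).symm, ih 1 (le_refl _) (by omega), rfl⟩
      · by_cases hE2 : E = 2
        · subst hE2
          refine dr_rule (s := [terminal lx, nonterminal .P, terminal lx]) (by simp [rl])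
            ⟨_, rfl, rp e lx ++ (rp (a + 1) ly ++ rp 1 lx), [lx], ?_,
              ih 1 (le_refl _) (by omega), [], rfl, rfl⟩
          rw [← rp_succ' 1 lx]
          simp only [List.append_assoc]
          rfl
        · obtain ⟨E', rfl⟩ : ∃ E', E = E' + 1 + 1 := ⟨E - 2, by omega⟩
          refine dr_rule (s := [terminal lx, nonterminal .P, terminal lx, terminal lx])
            (by simp [rl]) ⟨_, rfl, rp e lx ++ (rp (a + 1) ly ++ rp E' lx), [lx, lx], ?_,
              ih E' (by omega) (by omega), [lx], rfl, [], rfl, rfl⟩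
          rw [← rp_succ' (E' + 1) lx, ← rp_succ' E' lx]
          simp only [List.append_assoc]
          rfl

theorem dr_Q (a b e : ℕ) : ∀ E, 1 ≤ E → E < e →
    Dr .Q (rp e lx ++ (rp (b + 1) lz ++ (rp (a + 1) ly ++ rp E lx))) := by
  induction e with
  | zero => intro E _ h; omega
  | succ e ih =>
    intro E h1 h2
    by_cases he : e = 1
    · subst he
      have hE : E = 1 := by omega
      subst hE
      exact dr_rule (s := [terminal lx, terminal lx, nonterminal .W, terminal lx]) (by simp [rl])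
        ⟨_, rfl, rp (b + 1) lz ++ (rp (a + 1) ly ++ rp 1 lx), rfl, rp (b + 1) lz ++ rp (a + 1) ly,
          rp 1 lx, by simp only [List.append_assoc], dr_W b a, [], rfl, rfl⟩
    · by_cases hE1 : E = 1
      · subst hE1
        exact dr_rule (s := [terminal lx, nonterminal .Q]) (by simp [rl])
          ⟨_, rfl, _, [], (List.append_nil _).symm, ih 1 (le_refl _) (by omega), rfl⟩
      · obtain ⟨E', rfl⟩ : ∃ E', E = E' + 1 := ⟨E - 1, by omega⟩
        refine dr_rule (s := [terminal lx, nonterminal .Q, terminal lx]) (by simp [rl])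
          ⟨_, rfl, rp e lx ++ (rp (b + 1) lz ++ (rp (a + 1) ly ++ rp E' lx)), [lx], ?_,
            ih E' (by omega) (by omega), [], rfl, rfl⟩
        rw [← rp_succ' E' lx]
        simp only [List.append_assoc]
        rfl

theorem dr_S {w : List X3} (hw : D w) : Dr .S w := by
  induction hw with
  | nil => exact dr_rule (s := []) (by simp [rl]) rfl
  | node n e u v hu hv ihu ihv =>
    have hU : ∀ k, Dr .U (rp k lx ++ (u ++ rp k lx)) := by
      intro k
      induction k with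
      | zero =>
        refine dr_rule (s := [nonterminal .S]) (by simp [rl]) ⟨u, [], ?_, ihu, rfl⟩
        simp [rp]
      | succ k ih =>
        refine dr_rule (s := [terminal lx, nonterminal .U, terminal lx]) (by simp [rl])
          ⟨rp k lx ++ (u ++ rp (k + 1) lx), rfl, rp k lx ++ (u ++ rp k lx), [lx], ?_, ih, [], rfl,
            rfl⟩
        rw [← rp_succ' k lx]
        simp only [List.append_assoc]
    have hT : ∀ k, Dr .T (rp k ly ++ (rp (e + 1) lx ++ (u ++ (rp (e + 1) lx ++ rp k lz)))) := by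
      intro k
      induction k with
      | zero =>
        refine dr_rule (s := [terminal lx, nonterminal .U, terminal lx]) (by simp [rl])
          ⟨rp e lx ++ (u ++ (rp (e + 1) lx ++ rp 0 lz)), rfl, rp e lx ++ (u ++ rp e lx), [lx], ?_,
            hU e, [], rfl, rfl⟩
        rw [← rp_succ' e lx]
        simp [rp]
      | succ k ih =>
        refine dr_rule (s := [terminal ly, nonterminal .T, terminal lz]) (by simp [rl])
          ⟨rp k ly ++ (rp (e + 1) lx ++ (u ++ (rp (e + 1) lx ++ rp (k + 1) lz))), rfl, _, [lz], ?_,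
            ih, [], rfl, rfl⟩
        rw [← rp_succ' k lz]
        simp only [List.append_assoc]
    refine dr_rule (s := [terminal ly, nonterminal .T, terminal lz, nonterminal .S])
      (by simp [rl]) ⟨rp n ly ++ (rp (e + 1) lx ++ (u ++ (rp (e + 1) lx ++ (rp (n + 1) lz ++ v)))),
        rfl, _, lz :: v, ?_, hT n, v, rfl, v, [], by simp, ihv, rfl⟩
    rw [← rp_succ' n lz]
    simp only [List.append_assoc]
    rfl

theorem lang_contextFree : Lang.IsContextFree := by
  refine ⟨gr, ?_⟩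
  ext w
  rw [ContextFreeGrammar.mem_language_iff]
  constructor
  · intro h
    have h1 := sound (g := gr) (I := In)
      (fun r hr w h => In_closed r ((mem_gr r).mp hr) w h) h
    obtain ⟨w1, w2, rfl, h2, h3⟩ := h1
    have h3' : w2 = [] := h3
    subst h3'
    rw [List.append_nil]
    exact h2
  · intro h
    have : Dr .Z w := by
      rcases h with h | ⟨α, e, v, E, hE, ⟨a, t, r, ht, rfl⟩, h2⟩
      · exact dr_rule (s := [nonterminal .S]) (by simp [rl]) ⟨w, [], by simp, dr_S h, rfl⟩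
      · have hmP : ∀ t : X3, t ≠ lx →
            (⟨.Z, [nonterminal .A, nonterminal .P, terminal t, nonterminal .A]⟩ :
              ContextFreeRule X3 NT) ∈ rl := by decide
        have hmQ : ∀ t : X3, t ≠ lx →
            (⟨.Z, [nonterminal .A, nonterminal .Q, terminal t, nonterminal .A]⟩ :
              ContextFreeRule X3 NT) ∈ rl := by decide
        rcases h2 with ⟨rfl, h2⟩ | ⟨b, rfl, h2⟩
        · exact dr_rule (hmP t ht) ⟨α, _, rfl, dr_A α, rp e lx ++ (rp (a + 1) ly ++ rp E lx),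
            t :: r, by simp only [List.append_assoc], dr_P a e E hE h2, r, rfl, r, [], by simp,
            dr_A r, rfl⟩
        · exact dr_rule (hmQ t ht) ⟨α, _, rfl, dr_A α,
            rp e lx ++ (rp (b + 1) lz ++ (rp (a + 1) ly ++ rp E lx)),
            t :: r, by simp only [List.append_assoc], dr_Q a b e E hE h2, r, rfl, r, [], by simp,
            dr_A r, rfl⟩
    exact this

end Pool.Agent.Helper178.Idx
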