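import Pool.Agent.Helper178.Trans

set_option linter.unusedVariables false

namespace Pool.Agent.Helper178.Trans

variable {X Y : Type}

/-- Every rational relation has the form of Nivat. -/
theorem Rat.exists_nivat [Finite X] [Finite Y] {r : List X → List Y → Prop} (hr : Rat r) :
    ∃ (C : Type) (_ : Finite C) (h : C → List X) (g : C → List Y) (R : Language C),
      R.IsRegular ∧ ∀ u v, r u v ↔ ∃ w ∈ R, w.flatMap h = u ∧ w.flatMap g = v := by
  classical
  obtain ⟨M, hM⟩ := hr
  have := M.fin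
  let C := M.Q × Option X × Option Y × M.Q
  let h : C → List X := fun c => c.2.1.toList
  let g : C → List Y := fun c => c.2.2.1.toList
  let D : DFA C (Set M.Q) :=
    { step := fun S c => {q | q = c.2.2.2 ∧ c.1 ∈ S ∧ M.step c.1 c.2.1 c.2.2.1 q}
      start := {p | M.start p}
      accept := {S | ∃ q ∈ S, M.acc q} }
  have h1 : ∀ (w : List C) (S : Set M.Q) q, q ∈ D.evalFrom S w →
      ∃ p ∈ S, M.Path p (w.flatMap h) (w.flatMap g) q := by
    intro w
    induction w with
    | nil =>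
      intro S q hq
      exact ⟨q, hq, .nil q⟩
    | cons c w ih =>
      intro S q hq
      obtain ⟨p, hp, hpath⟩ := ih (D.step S c) q hq
      obtain ⟨h1, h2, h3⟩ := hp
      refine ⟨c.1, h2, ?_⟩
      rw [List.flatMap_cons, List.flatMap_cons]
      exact .cons h3 hpath
  have h2 : ∀ (p q : M.Q) u v, M.Path p u v q → ∃ w : List C, w.flatMap h = u ∧ w.flatMap g = v ∧
      ∀ S : Set M.Q, p ∈ S → q ∈ D.evalFrom S w := by
    intro p q u v hp
    induction hp with
    | nil q => exact ⟨[], rfl, rfl, fun S h => h⟩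
    | @cons p r q i o u v hs hp ih =>
      obtain ⟨w, rfl, rfl, hw⟩ := ih
      refine ⟨(p, i, o, r) :: w, by simp [h], by simp [g], ?_⟩
      intro S hS
      exact hw _ ⟨rfl, hS, hs⟩
  refine ⟨C, inferInstance, h, g, D.accepts, ?_, ?_⟩
  · have : Fintype (Set M.Q) := Fintype.ofFinite _
    exact ⟨Set M.Q, inferInstance, D, rfl⟩
  · intro u v
    rw [hM]
    constructor
    · rintro ⟨p, q, hp, hq, hpath⟩
      obtain ⟨w, h3, h4, h5⟩ := h2 p q u v hpath
      exact ⟨w, ⟨q, h5 _ hp, hq⟩, h3, h4⟩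
    · rintro ⟨w, ⟨q, hq, hacc⟩, rfl, rfl⟩
      obtain ⟨p, hp, hpath⟩ := h1 w _ q hq
      exact ⟨p, q, hp, hacc, hpath⟩

end Pool.Agent.Helper178.Trans
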