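import Pool.Agent.Helper178.Pal

set_option linter.unusedVariables false

namespace Pool.Agent.Helper178.Trans

theorem pal_not (M : Tr Sg (Option Bool)) (h : ∀ v, v ∈ Pal ↔ ∃ u ∈ L0, M.Rel u v) : False := by
  have hM := M.fin
  have : Fintype M.Q := Fintype.ofFinite _
  have hN : 1 ≤ Nat.card M.Q := by
    have h1 : [none] ∈ Pal := ⟨[], rfl⟩
    obtain ⟨u, _, p, _⟩ := (h _).mp h1
    have : Nonempty M.Q := ⟨p⟩
    exact Nat.card_pos
  set N := Nat.card M.Q with hNdef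
  obtain ⟨m, hm⟩ : ∃ m, m = N + 14 := ⟨_, rfl⟩
  obtain ⟨J, hJdef⟩ : ∃ J, J = N + m + 2 := ⟨_, rfl⟩
  have hN2 : N ≤ 2 ^ N := Nat.lt_two_pow_self.le
  have hJ : N * ((2 * 2 ^ m + 1) + 1) ≤ 2 ^ J := by
    have h1 : (2 * 2 ^ m + 1) + 1 ≤ 2 ^ (m + 2) := by
      have h0 : 1 ≤ 2 ^ m := Nat.one_le_two_pow
      have h2 : 2 ^ (m + 2) = 4 * 2 ^ m := by ring
      omega
    calc N * ((2 * 2 ^ m + 1) + 1) ≤ 2 ^ N * 2 ^ (m + 2) := Nat.mul_le_mul hN2 h1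
      _ = 2 ^ J := by rw [← pow_add, hJdef, add_assoc]
  have hNJ : N ≤ 2 ^ J := hN2.trans (Nat.pow_le_pow_right (by norm_num) (by omega))
  have hB : bd M (2 * 2 ^ m + 1) ≤ 2 ^ (2 * J + 1) := by
    unfold bd
    have h1 : (N * ((2 * 2 ^ m + 1) + 1)) ^ 2 ≤ (2 ^ J) ^ 2 := Nat.pow_le_pow_left hJ 2
    rw [← pow_mul, mul_comm J 2] at h1
    have h2 : 1 ≤ 2 ^ (2 * J) := Nat.one_le_two_pow
    rw [pow_succ 2 (2 * J)]
    have h3 : (Nat.card M.Q * ((2 * 2 ^ m + 1) + 1)) ^ 2 ≤ 2 ^ (2 * J) := h1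
    omega
  have hG := gf_bound (by omega : 2 ≤ J) hNJ hB
  have hK : ∀ p q : M.Q, Cov (2 * 2 ^ m + 1) (KV M 0 p q) (2 ^ (12 * J * (J + 1))) := by
    intro p q
    have h1 := KV_cov hJ hN J (le_refl _) p q
    rw [Nat.sub_self] at h1
    refine h1.mono ?_
    rw [pow_mul]
    exact Nat.pow_le_pow_left hG _
  have hK2 : ∀ k : M.Q × M.Q, Cov (2 * 2 ^ m + 1)
      {w | M.start k.1 ∧ M.acc k.2 ∧ w ∈ KV M 0 k.1 k.2} (2 ^ (12 * J * (J + 1))) := by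
    intro k
    by_cases hk : M.start k.1 ∧ M.acc k.2
    · refine (hK k.1 k.2).congr ?_
      intro w _
      exact ⟨fun h => h.2.2, fun h => ⟨hk.1, hk.2, h⟩⟩
    · refine ((Cov.empty _).congr ?_).mono (Nat.zero_le _)
      intro w _
      constructor
      · rintro ⟨h1, h2, _⟩
        exact hk ⟨h1, h2⟩
      · intro h
        exact absurd h (Set.notMem_empty _)
  have hP : Cov (2 * 2 ^ m + 1) (Pal : Set (List (Option Bool)))
      (Fintype.card (M.Q × M.Q) * 2 ^ (12 * J * (J + 1))) := by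
    refine (Cov.iUnion hK2).congr ?_
    intro w _
    constructor
    · intro hw
      obtain ⟨u, ⟨W, hW, rfl⟩, p, q, hp, hq, hpath⟩ := (h w).mp hw
      exact ⟨(p, q), hp, hq, W, hW, hpath⟩
    · rintro ⟨⟨p, q⟩, hp, hq, W, hW, hpath⟩
      exact (h w).mpr ⟨cod W, ⟨W, hW, rfl⟩, p, q, hp, hq, hpath⟩
  have hlow := pal_lower (n := 2 ^ m) hP (le_refl _)
  rw [Fintype.card_prod, ← Nat.card_eq_fintype_card] at hlow
  have h1 : N * N * 2 ^ (12 * J * (J + 1)) ≤ 2 ^ (2 * J + 12 * J * (J + 1)) := by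
    rw [pow_add, show 2 * J = J + J by ring, pow_add]
    exact Nat.mul_le_mul (Nat.mul_le_mul hNJ hNJ) (le_refl _)
  have h2 : (2 : ℕ) ^ (2 ^ m) ≤ 2 ^ (2 * J + 12 * J * (J + 1)) := hlow.trans h1
  have h3 : 2 ^ m ≤ 2 * J + 12 * J * (J + 1) := (Nat.pow_le_pow_iff_right (by norm_num)).mp h2
  have h4 := poly_lt_exp m (by omega)
  have h5 : J ≤ 2 * m := by omega
  nlinarith

end Pool.Agent.Helper178.Trans
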