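import Pool.Agent.Helper178.Bound

set_option linter.unusedVariables false

namespace Pool.Agent.Helper178.Trans

/-- Marked palindromes over two letters, with central mark `none`. -/
def Pal : Language (Option Bool) :=
  {w | ∃ z : List Bool, w = z.map some ++ none :: (z.map some).reverse}

theorem mark_unique (a : List Bool) : ∀ (c : List Bool) (b d : List (Option Bool)),
    a.map some ++ none :: b = c.map some ++ none :: d → a = c ∧ b = d := by
  induction a with
  | nil =>
    intro c b d h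
    cases c with
    | nil => exact ⟨rfl, by simpa using h⟩
    | cons x c => simp at h
  | cons x a ih =>
    intro c b d h
    cases c with
    | nil => simp at h
    | cons y c =>
      simp only [List.map_cons, List.cons_append, List.cons.injEq, Option.some.injEq] at h
      obtain ⟨h1, h2⟩ := h
      obtain ⟨h3, h4⟩ := ih c b d h2
      exact ⟨by rw [h1, h3], h4⟩

theorem pal_lower {l n s : ℕ} (h : Cov l (Pal : Set (List (Option Bool))) s)
    (hl : 2 * n + 1 ≤ l) : 2 ^ n ≤ s := by
  obtain ⟨ι, hι, U, V, hc, hk⟩ := h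
  have h1 : ∀ z : Fin n → Bool, ∃ i, (List.ofFn z).map some ∈ U i ∧
      none :: ((List.ofFn z).map some).reverse ∈ V i := by
    intro z
    refine (hk _ _ ?_).mp ⟨List.ofFn z, rfl⟩
    simp
    omega
  choose f hf1 hf2 using h1
  have hinj : Function.Injective f := by
    intro z z' hz
    have h2 : (List.ofFn z).map some ++ none :: ((List.ofFn z').map some).reverse ∈
        (Pal : Set (List (Option Bool))) := by
      refine (hk _ _ ?_).mpr ⟨f z, hf1 z, ?_⟩
      · simp
        omega
      · rw [hz]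
        exact hf2 z'
    obtain ⟨t, ht⟩ := h2
    obtain ⟨h3, h4⟩ := mark_unique _ _ _ _ ht
    rw [List.reverse_inj] at h4
    have h5 : List.ofFn z' = t := List.map_injective_iff.mpr (Option.some_injective _) h4
    exact List.ofFn_injective (h3.trans h5.symm)
  have h2 := Fintype.card_le_of_injective f hinj
  rw [Fintype.card_fun, Fintype.card_bool, Fintype.card_fin] at h2
  exact h2.trans hc

theorem poly_lt_exp (m : ℕ) (hm : 14 ≤ m) : 48 * m ^ 2 + 28 * m < 2 ^ m := by
  induction m, hm using Nat.le_induction with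
  | base => norm_num
  | succ m hm ih =>
    rw [pow_succ 2 m]
    nlinarith

theorem gf_bound {N B J : ℕ} (hJ : 2 ≤ J) (hN : N ≤ 2 ^ J) (hB : B ≤ 2 ^ (2 * J + 1)) :
    gf N B (2 ^ J) ≤ 2 ^ (12 * J) := by
  unfold gf
  set T := 2 ^ J with hT
  have hT4 : 4 ≤ T := by
    calc 4 = 2 ^ 2 := rfl
      _ ≤ 2 ^ J := Nat.pow_le_pow_right (by norm_num) hJ
  have hT2 : 2 ≤ T := by omega
  have hB' : B ≤ 2 * (T * T) := by
    refine hB.trans (le_of_eq ?_)
    rw [hT]
    ring
  have hT12 : 2 ^ (12 * J) = T ^ 12 := by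
    rw [hT, ← pow_mul, mul_comm]
  rw [hT12]
  have h1 : N * (T + 2) ≤ T * (2 * T) := Nat.mul_le_mul hN (by omega)
  have h2 : B * (N * (N * N)) ≤ 2 * (T * T) * (T * (T * T)) :=
    Nat.mul_le_mul hB' (Nat.mul_le_mul hN (Nat.mul_le_mul hN hN))
  have h3 : T + B + 2 ≤ 4 * (T * T) := by nlinarith
  have h4 : 2 * (N * (T + B + 2)) + 2 ≤ 10 * (T * (T * T)) := by
    have : N * (T + B + 2) ≤ T * (4 * (T * T)) := Nat.mul_le_mul hN h3
    nlinarith [Nat.one_le_iff_ne_zero.mpr (show T * (T * T) ≠ 0 by positivity)]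
  have h5 : B * (N * (N * N)) * (2 * (N * (T + B + 2)) + 2) ≤
      2 * (T * T) * (T * (T * T)) * (10 * (T * (T * T))) := Nat.mul_le_mul h2 h4
  have h6 : 2 * (T * T) * (T * (T * T)) * (10 * (T * (T * T))) = 20 * T ^ 8 := by ring
  have h7 : T * (2 * T) ≤ 2 * T ^ 8 := by
    have : T * (2 * T) = 2 * T ^ 2 := by ring
    rw [this]
    exact Nat.mul_le_mul (le_refl _) (Nat.pow_le_pow_right (by omega) (by norm_num))
  have h8 : 22 * T ^ 8 ≤ T ^ 12 := by
    have h9 : T ^ 12 = T ^ 4 * T ^ 8 := by ring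
    rw [h9]
    refine Nat.mul_le_mul ?_ (le_refl _)
    calc 22 ≤ 4 ^ 4 := by norm_num
      _ ≤ T ^ 4 := Nat.pow_le_pow_left hT4 4
  rw [h6] at h5
  omega

end Pool.Agent.Helper178.Trans
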