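import Pool.Agent.Helper178.NotMem

set_option linter.unusedVariables false

namespace Pool.Agent.Helper178.Trans

open Symbol

/-- Symbols. -/
abbrev Sy := Symbol (Option Bool) Unit

/-- The rules `S → 0 S 0`, `S → 1 S 1`, `S → c`. -/
noncomputable def rs : Finset (ContextFreeRule (Option Bool) Unit) := by
  classical
  exact {⟨(), [.terminal none]⟩,
    ⟨(), [.terminal (some false), .nonterminal (), .terminal (some false)]⟩,
    ⟨(), [.terminal (some true), .nonterminal (), .terminal (some true)]⟩}

/-- One step. -/
def Step (u v : List Sy) : Prop := ∃ r ∈ rs, r.Rewrites u v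

theorem nt_unique (A : List (Option Bool)) : ∀ (B : List (Option Bool)) (p q : List Sy),
    p ++ (nonterminal () :: q) = A.map terminal ++ (nonterminal () :: B.map terminal) →
    p = A.map terminal ∧ q = B.map terminal := by
  induction A with
  | nil =>
    intro B p q h
    cases p with
    | nil => exact ⟨rfl, by simpa using h⟩
    | cons s p =>
      exfalso
      simp only [List.cons_append, List.map_nil, List.nil_append, List.cons.injEq] at h
      have h2 : (nonterminal () : Sy) ∈ B.map terminal := by
        rw [← h.2]; simp
      simp at h2
  | cons a A ih =>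
    intro B p q h
    cases p with
    | nil => simp at h
    | cons s p =>
      simp only [List.cons_append, List.map_cons, List.cons.injEq] at h
      obtain ⟨h1, h2⟩ := h
      obtain ⟨h3, h4⟩ := ih B p q h2
      exact ⟨by rw [h1, h3, List.map_cons], h4⟩

/-- Sentential forms. -/
def form (z : List Bool) : List Sy :=
  (z.map some).map terminal ++ (nonterminal () :: ((z.map some).reverse).map terminal)

theorem mem_rs {r : ContextFreeRule (Option Bool) Unit} : r ∈ rs ↔
    r = ⟨(), [.terminal none]⟩ ∨
      (∃ b, r = ⟨(), [.terminal (some b), .nonterminal (), .terminal (some b)]⟩) := by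
  simp only [rs, Finset.mem_insert, Finset.mem_singleton]
  constructor
  · rintro (h | h | h)
    · exact Or.inl h
    · exact Or.inr ⟨_, h⟩
    · exact Or.inr ⟨_, h⟩
  · rintro (h | ⟨b, h⟩)
    · exact Or.inl h
    · cases b
      · exact Or.inr (Or.inl h)
      · exact Or.inr (Or.inr h)

theorem step_inv {s : List Sy} (h : Relation.ReflTransGen Step [nonterminal ()] s) :
    (∃ z, s = form z) ∨ ∃ w ∈ Pal, s = w.map terminal := by
  induction h with
  | refl => exact Or.inl ⟨[], rfl⟩
  | tail _ hstep ih =>
    obtain ⟨r, hr, hrw⟩ := hstep
    obtain ⟨p, q, h1, h2⟩ := ContextFreeRule.rewrites_iff.mp hrw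
    rcases ih with ⟨z, hz⟩ | ⟨w, _, hw⟩
    · have h3 : p ++ (nonterminal () :: q) = (z.map some).map terminal ++
          (nonterminal () :: ((z.map some).reverse).map terminal) := by
        have h4 : p ++ [nonterminal r.input] ++ q = form z := by rw [← h1, hz]
        rw [form, List.append_assoc] at h4
        exact h4
      obtain ⟨rfl, rfl⟩ := nt_unique _ _ _ _ h3
      rcases mem_rs.mp hr with rfl | ⟨b, rfl⟩
      · right
        refine ⟨z.map some ++ none :: (z.map some).reverse, ⟨z, rfl⟩, ?_⟩
        rw [h2]
        simp
      · left
        refine ⟨z ++ [b], ?_⟩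
        rw [h2, form]
        simp
    · exfalso
      have : (nonterminal r.input : Sy) ∈ w.map terminal := by
        rw [← hw, h1]; simp
      simp at this

theorem step_form (z : List Bool) : Relation.ReflTransGen Step [nonterminal ()] (form z) := by
  induction z using List.reverseRecOn with
  | nil => exact Relation.ReflTransGen.refl
  | append_singleton z b ih =>
    refine ih.tail ⟨⟨(), [.terminal (some b), .nonterminal (), .terminal (some b)]⟩,
      mem_rs.mpr (Or.inr ⟨b, rfl⟩), ?_⟩
    rw [ContextFreeRule.rewrites_iff]
    exact ⟨(z.map some).map terminal, ((z.map some).reverse).map terminal, by simp [form],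
      by simp [form]⟩

theorem pal_contextFree : Pal.IsContextFree := by
  refine ⟨⟨Unit, (), rs⟩, ?_⟩
  have key : ∀ w : List (Option Bool), Relation.ReflTransGen Step [nonterminal ()]
      (w.map terminal) ↔ w ∈ Pal := by
    intro w
    constructor
    · intro h
      rcases step_inv h with ⟨z, hz⟩ | ⟨w', hw', hw⟩
      · exfalso
        have : (nonterminal () : Sy) ∈ w.map terminal := by
          rw [hz]; simp [form]
        simp at this
      · have hinj : Function.Injective (terminal : Option Bool → Sy) := by
          intro a b hab
          injection hab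
        have : w = w' := List.map_injective_iff.mpr hinj hw
        rw [this]
        exact hw'
    · rintro ⟨z, rfl⟩
      refine (step_form z).tail ⟨⟨(), [.terminal none]⟩, mem_rs.mpr (Or.inl rfl), ?_⟩
      rw [ContextFreeRule.rewrites_iff]
      exact ⟨(z.map some).map terminal, ((z.map some).reverse).map terminal, by simp [form],
        by simp⟩
  ext w
  exact key w

end Pool.Agent.Helper178.Trans
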