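import Mathlib

set_option linter.unusedVariables false

namespace Pool.Agent.Helper178.Qrt

/-- Kinds of tokens. -/
inductive Kn
  | b
  | d
  | o
  | c
  | m
  deriving DecidableEq, Fintype

/-- Tokens. -/
abbrev Tk := Kn × ℕ

/-- Letters: `some k` begins a token of kind `k`, and `none` counts. -/
abbrev Sg := Option Kn

/-- The code of a token. -/
def tok (s : Tk) : List Sg := some s.1 :: List.replicate s.2 none

/-- The code of a list of tokens. -/
def code (τ : List Tk) : List Sg := τ.flatMap tok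

theorem code_nil : code [] = [] := rfl

theorem code_cons (s : Tk) (τ : List Tk) : code (s :: τ) = tok s ++ code τ := rfl

theorem code_append (τ τ' : List Tk) : code (τ ++ τ') = code τ ++ code τ' := by
  simp [code]

/-- Decoding. -/
def dec : List Sg → ℕ × List Tk
  | [] => (0, [])
  | none :: w => ((dec w).1 + 1, (dec w).2)
  | some k :: w => (0, (k, (dec w).1) :: (dec w).2)

theorem dec_rep (n : ℕ) (w : List Sg) :
    dec (List.replicate n none ++ w) = ((dec w).1 + n, (dec w).2) := by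
  induction n with
  | zero => rfl
  | succ n ih =>
    rw [List.replicate_succ, List.cons_append]
    show ((dec _).1 + 1, (dec _).2) = _
    rw [ih]
    rfl

theorem dec_code (τ : List Tk) : dec (code τ) = (0, τ) := by
  induction τ with
  | nil => rfl
  | cons s τ ih =>
    obtain ⟨k, n⟩ := s
    rw [code_cons, tok, List.cons_append]
    show (0, (k, (dec _).1) :: (dec _).2) = _
    rw [dec_rep, ih]
    simp

theorem code_injective {τ τ' : List Tk} (h : code τ = code τ') : τ = τ' := by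
  have h1 := dec_code τ
  rw [h, dec_code] at h1
  exact ((Prod.mk.injEq _ _ _ _).mp h1).2.symm

/-- Forests (`true`) and spines (`false`). -/
inductive DD : Bool → List Tk → Prop
  | nil : DD true []
  | cons (e : ℕ) (t g : List Tk) : DD false t → DD true g →
      DD true ((Kn.b, e + 1) :: (t ++ (Kn.d, e + 1) :: g))
  | mid : DD false [(Kn.m, 0)]
  | step (n : ℕ) (g₁ t g₂ : List Tk) : DD true g₁ → DD false t → DD true g₂ →
      DD false (g₁ ++ (Kn.o, n) :: (t ++ (Kn.c, n) :: g₂))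

/-- Tokens which are not brackets. -/
def NB (s : Tk) : Prop := s.1 ≠ Kn.b ∧ s.1 ≠ Kn.d

/-- Violations of the doubling rule. -/
def Viol (τ : List Tk) : Prop :=
  ∃ (τ₁ : List Tk) (e₁ : ℕ) (σ : List Tk) (e₂ : ℕ) (τ₂ : List Tk), (∀ s ∈ σ, NB s) ∧
    ((τ = τ₁ ++ (Kn.b, e₁) :: (σ ++ (Kn.b, e₂) :: τ₂) ∧ e₂ < 2 * e₁) ∨
     (τ = τ₁ ++ (Kn.d, e₁) :: (σ ++ (Kn.b, e₂) :: τ₂) ∧ e₂ < e₁))

/-- The language. -/
def LQ : Language Sg := {w | ∃ τ, (DD true τ ∨ Viol τ) ∧ w = code τ}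

theorem Viol.left {τ : List Tk} (h : Viol τ) (α : List Tk) : Viol (α ++ τ) := by
  obtain ⟨τ₁, e₁, σ, e₂, τ₂, h1, h2⟩ := h
  refine ⟨α ++ τ₁, e₁, σ, e₂, τ₂, h1, ?_⟩
  rcases h2 with ⟨rfl, h2⟩ | ⟨rfl, h2⟩
  · exact Or.inl ⟨by simp, h2⟩
  · exact Or.inr ⟨by simp, h2⟩

theorem Viol.right {τ : List Tk} (h : Viol τ) (β : List Tk) : Viol (τ ++ β) := by
  obtain ⟨τ₁, e₁, σ, e₂, τ₂, h1, h2⟩ := h
  refine ⟨τ₁, e₁, σ, e₂, τ₂ ++ β, h1, ?_⟩
  rcases h2 with ⟨rfl, h2⟩ | ⟨rfl, h2⟩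
  · exact Or.inl ⟨by simp, h2⟩
  · exact Or.inr ⟨by simp, h2⟩

end Pool.Agent.Helper178.Qrt
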