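import Pool.Agent.Helper178.GramLfp
import Pool.Agent.Helper178.QrtLang

set_option linter.unusedVariables false
set_option linter.constructorNameAsVariable false

namespace Pool.Agent.Helper178.Qrt

open Symbol Pool.Agent.Helper178.Gram

/-- Nonterminals. -/
inductive NT
  | Z
  | A
  | E
  | G
  | P
  | Q
  | F
  | X
  | T
  | Y
  deriving DecidableEq

/-- Symbols. -/
abbrev Sm := Symbol Sg NT

/-- The rules. -/
def rl : List (ContextFreeRule Sg NT) := [
  ⟨.Z, [nonterminal .F]⟩,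
  ⟨.Z, [nonterminal .A, terminal (some .b), nonterminal .P, nonterminal .A]⟩,
  ⟨.Z, [nonterminal .A, terminal (some .d), nonterminal .Q, nonterminal .A]⟩,
  ⟨.A, []⟩,
  ⟨.A, [terminal (some .b), nonterminal .E, nonterminal .A]⟩,
  ⟨.A, [terminal (some .d), nonterminal .E, nonterminal .A]⟩,
  ⟨.A, [terminal (some .o), nonterminal .E, nonterminal .A]⟩,
  ⟨.A, [terminal (some .c), nonterminal .E, nonterminal .A]⟩,
  ⟨.A, [terminal (some .m), nonterminal .E, nonterminal .A]⟩,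
  ⟨.E, []⟩,
  ⟨.E, [terminal none, nonterminal .E]⟩,
  ⟨.G, []⟩,
  ⟨.G, [terminal (some .o), nonterminal .E, nonterminal .G]⟩,
  ⟨.G, [terminal (some .c), nonterminal .E, nonterminal .G]⟩,
  ⟨.G, [terminal (some .m), nonterminal .E, nonterminal .G]⟩,
  ⟨.P, [terminal none, nonterminal .G, terminal (some .b)]⟩,
  ⟨.P, [terminal none, nonterminal .G, terminal (some .b), terminal none]⟩,
  ⟨.P, [terminal none, nonterminal .P]⟩,
  ⟨.P, [terminal none, nonterminal .P, terminal none, terminal none]⟩,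
  ⟨.Q, [terminal none, nonterminal .G, terminal (some .b)]⟩,
  ⟨.Q, [terminal none, nonterminal .Q]⟩,
  ⟨.Q, [terminal none, nonterminal .Q, terminal none]⟩,
  ⟨.F, []⟩,
  ⟨.F, [terminal (some .b), nonterminal .X, nonterminal .F]⟩,
  ⟨.X, [terminal none, nonterminal .X, terminal none]⟩,
  ⟨.X, [terminal none, nonterminal .T, terminal (some .d), terminal none]⟩,
  ⟨.T, [terminal (some .m)]⟩,
  ⟨.T, [nonterminal .F, terminal (some .o), nonterminal .Y, nonterminal .F]⟩,
  ⟨.Y, [terminal none, nonterminal .Y, terminal none]⟩,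
  ⟨.Y, [nonterminal .T, terminal (some .c)]⟩]

/-- The grammar. -/
def gr : ContextFreeGrammar Sg where
  NT := NT
  initial := NT.Z
  rules := rl.toFinset

theorem mem_gr (r : ContextFreeRule Sg NT) : r ∈ gr.rules ↔ r ∈ rl := by
  show r ∈ rl.toFinset ↔ _
  exact List.mem_toFinset

/-- Blocks of counting letters. -/
abbrev xs (n : ℕ) : List Sg := List.replicate n none

theorem xs_succ (n : ℕ) : (none : Sg) :: xs n = xs (n + 1) := by
  rw [xs, xs, List.replicate_succ]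

theorem xs_succ' (n : ℕ) : xs n ++ [(none : Sg)] = xs (n + 1) := by
  rw [xs, xs, List.replicate_succ']

/-- The interpretation. -/
def In : NT → List Sg → Prop
  | .Z, w => w ∈ LQ
  | .A, w => ∃ τ, w = code τ
  | .E, w => ∃ n, w = xs n
  | .G, w => ∃ σ, (∀ s ∈ σ, NB s) ∧ w = code σ
  | .P, w => ∃ e₁ σ e₂, (∀ s ∈ σ, NB s) ∧ e₂ < 2 * e₁ ∧
      w = xs e₁ ++ (code σ ++ some Kn.b :: xs e₂)
  | .Q, w => ∃ e₁ σ e₂, (∀ s ∈ σ, NB s) ∧ e₂ < e₁ ∧
      w = xs e₁ ++ (code σ ++ some Kn.b :: xs e₂)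
  | .F, w => ∃ τ, DD true τ ∧ w = code τ
  | .X, w => ∃ e t, DD false t ∧ w = xs (e + 1) ++ (code t ++ some Kn.d :: xs (e + 1))
  | .T, w => ∃ τ, DD false τ ∧ w = code τ
  | .Y, w => ∃ n t, DD false t ∧ w = xs n ++ (code t ++ some Kn.c :: xs n)

theorem code_tok (k : Kn) (n : ℕ) (τ : List Tk) :
    code ((k, n) :: τ) = some k :: (xs n ++ code τ) := rfl

theorem In_A {k : Kn} {w : List Sg} (h : ∃ w', w = some k :: w' ∧ ∃ w1 w2, w' = w1 ++ w2 ∧
    In .E w1 ∧ ∃ w3 w4, w2 = w3 ++ w4 ∧ In .A w3 ∧ w4 = []) : In .A w := by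
  obtain ⟨_, rfl, _, _, rfl, ⟨n, rfl⟩, _, _, rfl, ⟨τ, rfl⟩, rfl⟩ := h
  exact ⟨(k, n) :: τ, by rw [code_tok, List.append_nil]⟩

theorem In_G {k : Kn} (hk : k ≠ Kn.b ∧ k ≠ Kn.d) {w : List Sg}
    (h : ∃ w', w = some k :: w' ∧ ∃ w1 w2, w' = w1 ++ w2 ∧
    In .E w1 ∧ ∃ w3 w4, w2 = w3 ++ w4 ∧ In .G w3 ∧ w4 = []) : In .G w := by
  obtain ⟨_, rfl, _, _, rfl, ⟨n, rfl⟩, _, _, rfl, ⟨τ, hτ, rfl⟩, rfl⟩ := h
  refine ⟨(k, n) :: τ, ?_, by rw [code_tok, List.append_nil]⟩
  intro s hs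
  rw [List.mem_cons] at hs
  rcases hs with rfl | hs
  · exact hk
  · exact hτ s hs

theorem In_closed : ∀ r ∈ rl, ∀ w, Yl In r.output w → In r.input w := by
  intro r hr
  simp only [rl, List.mem_cons, List.not_mem_nil, or_false] at hr
  rcases hr with rfl | rfl | rfl | rfl | rfl | rfl | rfl | rfl | rfl | rfl | rfl | rfl | rfl |
    rfl | rfl | rfl | rfl | rfl | rfl | rfl | rfl | rfl | rfl | rfl | rfl | rfl | rfl | rfl |
    rfl | rfl
  · rintro _ ⟨w1, _, rfl, ⟨τ, hτ, rfl⟩, rfl⟩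
    exact ⟨τ, Or.inl hτ, by rw [List.append_nil]⟩
  · rintro _ ⟨_, _, rfl, ⟨τ₁, rfl⟩, _, rfl, _, _, rfl, ⟨e₁, σ, e₂, hσ, he, rfl⟩, _, _, rfl,
      ⟨τ₂, rfl⟩, rfl⟩
    refine ⟨τ₁ ++ (Kn.b, e₁) :: (σ ++ (Kn.b, e₂) :: τ₂), Or.inr ⟨τ₁, e₁, σ, e₂, τ₂, hσ,
      Or.inl ⟨rfl, he⟩⟩, ?_⟩
    simp only [code_append, code_tok, List.append_assoc, List.cons_append, List.append_nil]
  · rintro _ ⟨_, _, rfl, ⟨τ₁, rfl⟩, _, rfl, _, _, rfl, ⟨e₁, σ, e₂, hσ, he, rfl⟩, _, _, rfl,
      ⟨τ₂, rfl⟩, rfl⟩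
    refine ⟨τ₁ ++ (Kn.d, e₁) :: (σ ++ (Kn.b, e₂) :: τ₂), Or.inr ⟨τ₁, e₁, σ, e₂, τ₂, hσ,
      Or.inr ⟨rfl, he⟩⟩, ?_⟩
    simp only [code_append, code_tok, List.append_assoc, List.cons_append, List.append_nil]
  · rintro _ rfl
    exact ⟨[], rfl⟩
  · intro w h; exact In_A h
  · intro w h; exact In_A h
  · intro w h; exact In_A h
  · intro w h; exact In_A h
  · intro w h; exact In_A h
  · rintro _ rfl
    exact ⟨0, rfl⟩
  · rintro _ ⟨_, rfl, _, _, rfl, ⟨n, rfl⟩, rfl⟩
    exact ⟨n + 1, by rw [List.append_nil, xs_succ]⟩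
  · rintro _ rfl
    exact ⟨[], by simp, rfl⟩
  · intro w h; exact In_G (by decide) h
  · intro w h; exact In_G (by decide) h
  · intro w h; exact In_G (by decide) h
  · rintro _ ⟨_, rfl, _, _, rfl, ⟨σ, hσ, rfl⟩, _, rfl, rfl⟩
    exact ⟨1, σ, 0, hσ, by norm_num, rfl⟩
  · rintro _ ⟨_, rfl, _, _, rfl, ⟨σ, hσ, rfl⟩, _, rfl, _, rfl, rfl⟩
    exact ⟨1, σ, 1, hσ, by norm_num, rfl⟩
  · rintro _ ⟨_, rfl, _, _, rfl, ⟨e₁, σ, e₂, hσ, he, rfl⟩, rfl⟩
    refine ⟨e₁ + 1, σ, e₂, hσ, by omega, ?_⟩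
    rw [← xs_succ e₁, List.append_nil]; rfl
  · rintro _ ⟨_, rfl, _, _, rfl, ⟨e₁, σ, e₂, hσ, he, rfl⟩, _, rfl, _, rfl, rfl⟩
    refine ⟨e₁ + 1, σ, e₂ + 1 + 1, hσ, by omega, ?_⟩
    rw [← xs_succ e₁, ← xs_succ' (e₂ + 1), ← xs_succ' e₂]
    simp only [List.append_assoc, List.cons_append, List.nil_append]
  · rintro _ ⟨_, rfl, _, _, rfl, ⟨σ, hσ, rfl⟩, _, rfl, rfl⟩
    exact ⟨1, σ, 0, hσ, by norm_num, rfl⟩
  · rintro _ ⟨_, rfl, _, _, rfl, ⟨e₁, σ, e₂, hσ, he, rfl⟩, rfl⟩
    refine ⟨e₁ + 1, σ, e₂, hσ, by omega, ?_⟩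
    rw [← xs_succ e₁, List.append_nil]; rfl
  · rintro _ ⟨_, rfl, _, _, rfl, ⟨e₁, σ, e₂, hσ, he, rfl⟩, _, rfl, rfl⟩
    refine ⟨e₁ + 1, σ, e₂ + 1, hσ, by omega, ?_⟩
    rw [← xs_succ e₁, ← xs_succ' e₂]
    simp only [List.append_assoc, List.cons_append]
  · rintro _ rfl
    exact ⟨[], .nil, rfl⟩
  · rintro _ ⟨_, rfl, _, _, rfl, ⟨e, t, ht, rfl⟩, _, _, rfl, ⟨g, hg, rfl⟩, rfl⟩
    refine ⟨_, .cons e t g ht hg, ?_⟩
    simp only [code_append, code_tok, List.append_assoc, List.cons_append, List.append_nil]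
  · rintro _ ⟨_, rfl, _, _, rfl, ⟨e, t, ht, rfl⟩, _, rfl, rfl⟩
    refine ⟨e + 1, t, ht, ?_⟩
    have h1 : xs (e + 1 + 1) ++ (code t ++ some Kn.d :: xs (e + 1 + 1)) =
        none :: (xs (e + 1) ++ (code t ++ some Kn.d :: (xs (e + 1) ++ [none]))) := by
      rw [xs_succ', ← List.cons_append, xs_succ]
    rw [h1]
    simp only [List.append_assoc, List.cons_append]
  · rintro _ ⟨_, rfl, _, _, rfl, ⟨t, ht, rfl⟩, _, rfl, _, rfl, rfl⟩
    exact ⟨0, t, ht, rfl⟩
  · rintro _ ⟨_, rfl, rfl⟩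
    exact ⟨_, .mid, rfl⟩
  · rintro _ ⟨_, _, rfl, ⟨g₁, hg₁, rfl⟩, _, rfl, _, _, rfl, ⟨n, t, ht, rfl⟩, _, _, rfl,
      ⟨g₂, hg₂, rfl⟩, rfl⟩
    refine ⟨_, .step n g₁ t g₂ hg₁ ht hg₂, ?_⟩
    simp only [code_append, code_tok, List.append_assoc, List.cons_append, List.append_nil]
  · rintro _ ⟨_, rfl, _, _, rfl, ⟨n, t, ht, rfl⟩, _, rfl, rfl⟩
    refine ⟨n + 1, t, ht, ?_⟩
    have h1 : xs (n + 1) ++ (code t ++ some Kn.c :: xs (n + 1)) =
        none :: (xs n ++ (code t ++ some Kn.c :: (xs n ++ [none]))) := by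
      rw [xs_succ', ← List.cons_append, xs_succ]
    rw [h1]
    simp only [List.append_assoc, List.cons_append]
  · rintro _ ⟨_, _, rfl, ⟨t, ht, rfl⟩, _, rfl, rfl⟩
    exact ⟨0, t, ht, rfl⟩

/-- Words derived from a nonterminal of the grammar. -/
abbrev Dr (A : NT) (w : List Sg) : Prop := Der gr A w

theorem dr_rule {A : NT} {s : List Sm} (h : (⟨A, s⟩ : ContextFreeRule Sg NT) ∈ rl) {w : List Sg}
    (hw : Yl Dr s w) : Dr A w :=
  complete (g := gr) (r := ⟨A, s⟩) ((mem_gr _).mpr h) hw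

theorem dr_E (n : ℕ) : Dr .E (xs n) := by
  induction n with
  | zero => exact dr_rule (s := []) (by simp [rl]) rfl
  | succ n ih =>
    exact dr_rule (s := [terminal none, nonterminal .E]) (by simp [rl])
      ⟨xs n, rfl, xs n, [], by simp, ih, rfl⟩

theorem dr_A (τ : List Tk) : Dr .A (code τ) := by
  induction τ with
  | nil => exact dr_rule (s := []) (by simp [rl]) rfl
  | cons s τ ih =>
    obtain ⟨k, n⟩ := s
    have h : ∀ k : Kn, (⟨.A, [terminal (some k), nonterminal .E, nonterminal .A]⟩ :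
        ContextFreeRule Sg NT) ∈ rl := by decide
    exact dr_rule (h k) ⟨xs n ++ code τ, rfl, xs n, code τ, rfl, dr_E n, code τ, [],
      (List.append_nil _).symm, ih, rfl⟩

theorem dr_G {σ : List Tk} (hσ : ∀ s ∈ σ, NB s) : Dr .G (code σ) := by
  induction σ with
  | nil => exact dr_rule (s := []) (by simp [rl]) rfl
  | cons s σ ih =>
    obtain ⟨k, n⟩ := s
    have h : ∀ k : Kn, (k ≠ Kn.b ∧ k ≠ Kn.d) →
        (⟨.G, [terminal (some k), nonterminal .E, nonterminal .G]⟩ :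
        ContextFreeRule Sg NT) ∈ rl := by decide
    exact dr_rule (h k (hσ (k, n) (by simp))) ⟨xs n ++ code σ, rfl, xs n, code σ, rfl, dr_E n,
      code σ, [], (List.append_nil _).symm, ih (fun s hs => hσ s (by simp [hs])), rfl⟩

theorem dr_P {σ : List Tk} (hσ : ∀ s ∈ σ, NB s) (e₁ : ℕ) : ∀ e₂, e₂ < 2 * e₁ →
    Dr .P (xs e₁ ++ (code σ ++ some Kn.b :: xs e₂)) := by
  induction e₁ with
  | zero => intro e₂ h; omega
  | succ e₁ ih =>
    intro e₂ h
    by_cases h0 : e₁ = 0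
    · subst h0
      have h1 : e₂ = 0 ∨ e₂ = 1 := by omega
      rcases h1 with rfl | rfl
      · exact dr_rule (s := [terminal none, nonterminal .G, terminal (some .b)]) (by simp [rl])
          ⟨_, rfl, code σ, [some Kn.b], rfl, dr_G hσ, [], rfl, rfl⟩
      · exact dr_rule (s := [terminal none, nonterminal .G, terminal (some .b), terminal none])
          (by simp [rl]) ⟨_, rfl, code σ, [some Kn.b, none], rfl, dr_G hσ, [none], rfl, [], rfl,
            rfl⟩
    · by_cases h1 : e₂ < 2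
      · exact dr_rule (s := [terminal none, nonterminal .P]) (by simp [rl])
          ⟨_, rfl, _, [], (List.append_nil _).symm, ih e₂ (by omega), rfl⟩
      · obtain ⟨e, rfl⟩ : ∃ e, e₂ = e + 1 + 1 := ⟨e₂ - 2, by omega⟩
        refine dr_rule (s := [terminal none, nonterminal .P, terminal none, terminal none])
          (by simp [rl]) ⟨_, rfl, xs e₁ ++ (code σ ++ some Kn.b :: xs e), [none, none], ?_,
            ih e (by omega), [none], rfl, [], rfl, rfl⟩
        rw [← xs_succ' (e + 1), ← xs_succ' e]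
        simp only [List.append_assoc]
        rfl

theorem dr_Q {σ : List Tk} (hσ : ∀ s ∈ σ, NB s) (e₁ : ℕ) : ∀ e₂, e₂ < e₁ →
    Dr .Q (xs e₁ ++ (code σ ++ some Kn.b :: xs e₂)) := by
  induction e₁ with
  | zero => intro e₂ h; omega
  | succ e₁ ih =>
    intro e₂ h
    by_cases h0 : e₁ = 0
    · subst h0
      have h1 : e₂ = 0 := by omega
      subst h1
      exact dr_rule (s := [terminal none, nonterminal .G, terminal (some .b)]) (by simp [rl])
        ⟨_, rfl, code σ, [some Kn.b], rfl, dr_G hσ, [], rfl, rfl⟩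
    · by_cases h1 : e₂ = 0
      · subst h1
        exact dr_rule (s := [terminal none, nonterminal .Q]) (by simp [rl])
          ⟨_, rfl, _, [], (List.append_nil _).symm, ih 0 (by omega), rfl⟩
      · obtain ⟨e, rfl⟩ : ∃ e, e₂ = e + 1 := ⟨e₂ - 1, by omega⟩
        refine dr_rule (s := [terminal none, nonterminal .Q, terminal none])
          (by simp [rl]) ⟨_, rfl, xs e₁ ++ (code σ ++ some Kn.b :: xs e), [none], ?_,
            ih e (by omega), [], rfl, rfl⟩
        rw [← xs_succ' e]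
        simp only [List.append_assoc]
        rfl

theorem dr_D {k : Bool} {τ : List Tk} (h : DD k τ) : Dr (if k then NT.F else NT.T) (code τ) := by
  induction h with
  | nil => exact dr_rule (s := []) (by simp [rl]) rfl
  | cons e t g _ _ iht ihg =>
    have hX : ∀ e, Dr .X (xs (e + 1) ++ (code t ++ some Kn.d :: xs (e + 1))) := by
      intro e
      induction e with
      | zero =>
        exact dr_rule (s := [terminal none, nonterminal .T, terminal (some .d), terminal none])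
          (by simp [rl]) ⟨_, rfl, code t, [some Kn.d, none], rfl, iht, [none], rfl, [], rfl, rfl⟩
      | succ e ih =>
        refine dr_rule (s := [terminal none, nonterminal .X, terminal none]) (by simp [rl])
          ⟨_, rfl, xs (e + 1) ++ (code t ++ some Kn.d :: xs (e + 1)), [none], ?_, ih, [], rfl, rfl⟩
        rw [← xs_succ' (e + 1)]
        simp only [List.append_assoc]
        rfl
    refine dr_rule (s := [terminal (some .b), nonterminal .X, nonterminal .F]) (by simp [rl])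
      ⟨xs (e + 1) ++ (code t ++ some Kn.d :: (xs (e + 1) ++ code g)), ?_,
        xs (e + 1) ++ (code t ++ some Kn.d :: xs (e + 1)), code g, ?_, hX e, code g, [],
        (List.append_nil _).symm, ihg, rfl⟩
    · simp only [code_append, code_tok]
    · simp only [List.append_assoc]
      rfl
  | mid =>
    exact dr_rule (s := [terminal (some .m)]) (by simp [rl]) ⟨[], rfl, rfl⟩
  | step n g₁ t g₂ _ _ _ ih₁ iht ih₂ =>
    have hY : ∀ n, Dr .Y (xs n ++ (code t ++ some Kn.c :: xs n)) := by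
      intro n
      induction n with
      | zero =>
        exact dr_rule (s := [nonterminal .T, terminal (some .c)])
          (by simp [rl]) ⟨code t, [some Kn.c], rfl, iht, [], rfl, rfl⟩
      | succ n ih =>
        refine dr_rule (s := [terminal none, nonterminal .Y, terminal none]) (by simp [rl])
          ⟨_, rfl, xs n ++ (code t ++ some Kn.c :: xs n), [none], ?_, ih, [], rfl, rfl⟩
        rw [← xs_succ' n]
        simp only [List.append_assoc]
        rfl
    refine dr_rule (s := [nonterminal .F, terminal (some .o), nonterminal .Y, nonterminal .F])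
      (by simp [rl]) ⟨code g₁, some Kn.o :: (xs n ++ (code t ++ some Kn.c :: (xs n ++ code g₂))),
        ?_, ih₁, _, rfl, xs n ++ (code t ++ some Kn.c :: xs n), code g₂, ?_, hY n, code g₂, [],
        (List.append_nil _).symm, ih₂, rfl⟩
    · simp only [code_append, code_tok]
    · simp only [List.append_assoc]
      rfl

theorem LQ_contextFree : LQ.IsContextFree := by
  refine ⟨gr, ?_⟩
  ext w
  rw [ContextFreeGrammar.mem_language_iff]
  constructor
  · intro h
    have h1 := sound (g := gr) (I := In)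
      (fun r hr w h => In_closed r ((mem_gr r).mp hr) w h) h
    obtain ⟨w1, w2, rfl, h2, h3⟩ := h1
    have h3' : w2 = [] := h3
    subst h3'
    rw [List.append_nil]
    exact h2
  · rintro ⟨τ, h, rfl⟩
    have : Dr .Z (code τ) := by
      rcases h with h | ⟨τ₁, e₁, σ, e₂, τ₂, hσ, ⟨rfl, he⟩ | ⟨rfl, he⟩⟩
      · exact dr_rule (s := [nonterminal .F]) (by simp [rl])
          ⟨code τ, [], (List.append_nil _).symm, dr_D h, rfl⟩
      · refine dr_rule (s := [nonterminal .A, terminal (some .b), nonterminal .P, nonterminal .A])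
          (by simp [rl]) ⟨code τ₁, some Kn.b :: (xs e₁ ++ (code σ ++ some Kn.b ::
            (xs e₂ ++ code τ₂))), ?_, dr_A τ₁, _, rfl,
            xs e₁ ++ (code σ ++ some Kn.b :: xs e₂), code τ₂, ?_, dr_P hσ e₁ e₂ he, code τ₂, [],
            (List.append_nil _).symm, dr_A τ₂, rfl⟩
        · simp only [code_append, code_tok]
        · simp only [List.append_assoc]
          rfl
      · refine dr_rule (s := [nonterminal .A, terminal (some .d), nonterminal .Q, nonterminal .A])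
          (by simp [rl]) ⟨code τ₁, some Kn.d :: (xs e₁ ++ (code σ ++ some Kn.b ::
            (xs e₂ ++ code τ₂))), ?_, dr_A τ₁, _, rfl,
            xs e₁ ++ (code σ ++ some Kn.b :: xs e₂), code τ₂, ?_, dr_Q hσ e₁ e₂ he, code τ₂, [],
            (List.append_nil _).symm, dr_A τ₂, rfl⟩
        · simp only [code_append, code_tok]
        · simp only [List.append_assoc]
          rfl
    exact this

end Pool.Agent.Helper178.Qrt
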