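import Pool.Agent.Helper178.QrtSub
import Pool.Agent.Helper178.GramLfp

set_option linter.unusedVariables false

namespace Pool.Agent.Helper178.Qrt

open Pool.Agent.Helper178.Trans (Tr Rat cat pr rat_cat rat_pr Star GP)
open Pool.Agent.Helper178.Gram (Yl Yl_append sound Der complete)
open Symbol

variable {X Y Z : Type}

/-- Substitution into a language. -/
def sbs (s : X → Language Y) (L : Language X) : Language Y := {w | ∃ u ∈ L, w ∈ (u.map s).prod}

theorem Yl_map_iff {T N : Type} {I : N → List T → Prop} (x : List T) (w : List T) :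
    Yl I (x.map terminal) w ↔ w = x := by
  induction x generalizing w with
  | nil => exact Iff.rfl
  | cons a x ih =>
    constructor
    · rintro ⟨w', rfl, h⟩
      rw [(ih w').mp h]
    · rintro rfl
      exact ⟨x, rfl, (ih x).mpr rfl⟩

theorem sbs_linear [Finite X] (g : ContextFreeGrammar X)
    (hg : ∀ r ∈ g.rules, (∃ x : List X, r.output = x.map terminal) ∨
      ∃ (x : List X) (B : g.NT) (y : List X),
        r.output = x.map terminal ++ nonterminal B :: y.map terminal)
    (s : X → Language Y) (hs : ∀ x j, Glg j (s x)) (j : ℕ) : Glg j (sbs s g.language) := by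
  classical
  have h1 : ∀ r : {r // r ∈ g.rules}, ∃ (lf : List X) (nx : Option g.NT) (rt : List X),
      r.1.output = lf.map terminal ++ ((nx.toList.map nonterminal) ++ rt.map terminal) := by
    rintro ⟨r, hr⟩
    rcases hg r hr with ⟨x, hx⟩ | ⟨x, B, y, hx⟩
    · exact ⟨x, none, [], by simpa using hx⟩
    · exact ⟨x, some B, y, by simpa using hx⟩
  choose lf nx rt hout using h1
  let ι := {r // r ∈ g.rules}
  let inp : ι → g.NT := fun r => r.1.input
  let Kl : ι → Language Y := fun r => ((lf r).map s).prod
  let Kr : ι → Language Y := fun r => ((rt r).map s).prod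
  have hKl : ∀ i, Glg (j + 1) (Kl i) := fun i => Glg_prod _ s (fun x => hs x _) _
  have hKr : ∀ i, Glg (j + 1) (Kr i) := fun i => Glg_prod _ s (fun x => hs x _) _
  choose ρl hl using hKl
  choose ρr hr using hKr
  obtain ⟨f, hf⟩ : ∃ f : ι → ℕ, Function.Injective f :=
    ⟨fun i => (Fintype.equivFin ι i).val, fun a b h => (Fintype.equivFin ι).injective
      (Fin.val_injective h)⟩
  obtain ⟨ρ, hρ⟩ := Gd_linear (inp := inp) (nx := nx) (Kl := Kl) (Kr := Kr) (j := j) hf hl hr
    g.initial
  have key : ({v | J inp nx Kl Kr (some g.initial) v} : Language Y) = sbs s g.language := by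
    ext v
    constructor
    · intro h
      have h2 : ∀ (A : Option g.NT) (v : List Y), J inp nx Kl Kr A v →
          ∃ u, (A = none → u = []) ∧ (∀ B, A = some B → Der g B u) ∧ v ∈ (u.map s).prod := by
        intro A v h
        induction h with
        | nil => exact ⟨[], fun _ => rfl, by simp, rfl⟩
        | rule i v1 v v2 h1 _ h2 ih =>
          obtain ⟨u, k1, k2, k3⟩ := ih
          refine ⟨lf i ++ (u ++ rt i), by simp, ?_, ?_⟩
          · intro B hB
            rw [Option.some.injEq] at hB
            rw [← hB]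
            refine complete i.2 ?_
            rw [hout i]
            refine (Yl_append _ _ _).mpr ⟨lf i, _, rfl, (Yl_map_iff _ _).mpr rfl, ?_⟩
            refine (Yl_append _ _ _).mpr ⟨u, _, rfl, ?_, (Yl_map_iff _ _).mpr rfl⟩
            cases hn : nx i with
            | none => exact k1 hn
            | some B' => exact ⟨u, [], by simp, k2 B' hn, rfl⟩
          · rw [List.map_append, List.map_append, List.prod_append, List.prod_append,
              Language.mem_mul]
            refine ⟨v1, h1, v ++ v2, ?_, rfl⟩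
            rw [Language.mem_mul]
            exact ⟨v, k3, v2, h2, rfl⟩
      obtain ⟨u, _, h3, h4⟩ := h2 _ _ h
      exact ⟨u, h3 _ rfl, h4⟩
    · rintro ⟨u, hu, hv⟩
      have hu' : g.Derives [nonterminal g.initial] (u.map terminal) := hu
      have h2 := sound (I := fun A u => ∀ v ∈ (u.map s).prod, J inp nx Kl Kr (some A) v)
        (g := g) ?_ hu'
      · obtain ⟨w1, w2, rfl, h3, h4⟩ := h2
        have h4' : w2 = [] := h4
        subst h4'
        rw [List.append_nil] at hv
        exact h3 v hv
      · intro r hr w hw v hv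
        have ho := hout ⟨r, hr⟩
        simp only at ho
        rw [ho] at hw
        obtain ⟨w1, w2, rfl, h3, h4⟩ := (Yl_append _ _ _).mp hw
        obtain ⟨w3, w4, rfl, h5, h6⟩ := (Yl_append _ _ _).mp h4
        rw [Yl_map_iff] at h3 h6
        rw [List.map_append, List.map_append, List.prod_append, List.prod_append,
              Language.mem_mul] at hv
        obtain ⟨v1, hv1, v', hv', rfl⟩ := hv
        rw [Language.mem_mul] at hv'
        obtain ⟨v2, hv2, v3, hv3, rfl⟩ := hv'
        subst h3 h6
        refine J.rule (inp := inp) (nx := nx) (Kl := Kl) (Kr := Kr) ⟨r, hr⟩ v1 v2 v3 hv1 ?_ hv3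
        cases hn : nx ⟨r, hr⟩ with
        | none =>
          rw [hn] at h5
          have h5' : w3 = [] := h5
          subst h5'
          have hv2' : v2 = [] := hv2
          subst hv2'
          exact .nil
        | some B =>
          rw [hn] at h5
          obtain ⟨w5, w6, rfl, h7, h8⟩ := h5
          have h8' : w6 = [] := h8
          subst h8'
          rw [List.append_nil] at hv2
          exact h7 v2 hv2
  rw [← key]
  exact ⟨ρ, hρ⟩

theorem mem_prod_sbs (s : X → Language Y) (t : Y → Language Z) (z : List X) : ∀ w : List Z,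
    (∃ u ∈ (z.map s).prod, w ∈ (u.map t).prod) ↔ w ∈ (z.map fun x => sbs t (s x)).prod := by
  induction z with
  | nil =>
    intro w
    constructor
    · rintro ⟨u, hu, hw⟩
      have hu' : u = [] := hu
      subst hu'
      exact hw
    · intro hw
      exact ⟨[], rfl, hw⟩
  | cons a z ih =>
    intro w
    rw [List.map_cons, List.map_cons, List.prod_cons, List.prod_cons, Language.mem_mul]
    constructor
    · rintro ⟨u, hu, hw⟩
      rw [Language.mem_mul] at hu
      obtain ⟨u1, hu1, u2, hu2, rfl⟩ := hu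
      rw [List.map_append, List.prod_append, Language.mem_mul] at hw
      obtain ⟨w1, hw1, w2, hw2, rfl⟩ := hw
      exact ⟨w1, ⟨u1, hu1, hw1⟩, w2, (ih w2).mp ⟨u2, hu2, hw2⟩, rfl⟩
    · rintro ⟨w1, ⟨u1, hu1, hw1⟩, w2, hw2, rfl⟩
      obtain ⟨u2, hu2, hw2⟩ := (ih w2).mpr hw2
      refine ⟨u1 ++ u2, ?_, ?_⟩
      · rw [Language.mem_mul]
        exact ⟨u1, hu1, u2, hu2, rfl⟩
      · rw [List.map_append, List.prod_append, Language.mem_mul]
        exact ⟨w1, hw1, w2, hw2, rfl⟩

theorem sbs_sbs (s : X → Language Y) (t : Y → Language Z) (L : Language X) :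
    sbs t (sbs s L) = sbs (fun x => sbs t (s x)) L := by
  ext w
  constructor
  · rintro ⟨u, ⟨z, hz, hu⟩, hw⟩
    exact ⟨z, hz, (mem_prod_sbs s t z w).mp ⟨u, hu, hw⟩⟩
  · rintro ⟨z, hz, hw⟩
    obtain ⟨u, hu, hw⟩ := (mem_prod_sbs s t z w).mpr hw
    exact ⟨u, ⟨z, hz, hu⟩, hw⟩

theorem sbs_single (L : Language X) : sbs (fun a => ({[a]} : Language X)) L = L := by
  have h : ∀ (u w : List X), w ∈ (u.map fun a => ({[a]} : Language X)).prod ↔ w = u := by
    intro u
    induction u with
    | nil => intro w; exact Iff.rfl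
    | cons a u ih =>
      intro w
      rw [List.map_cons, List.prod_cons, Language.mem_mul]
      constructor
      · rintro ⟨w1, h1, w2, h2, rfl⟩
        have h1' : w1 = [a] := h1
        rw [(ih w2).mp h2, h1']
        rfl
      · rintro rfl
        exact ⟨[a], rfl, u, (ih u).mpr rfl, rfl⟩
  ext w
  constructor
  · rintro ⟨u, hu, hw⟩
    rw [(h u w).mp hw]
    exact hu
  · intro hw
    exact ⟨w, hw, (h w w).mpr rfl⟩

/-- The property of the languages of the closure. -/
def Phi (L : Language X) : Prop := ∀ (Y : Type) (_ : Finite Y) (s : X → Language Y),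
  (∀ x j, Glg j (s x)) → ∀ j, Glg j (sbs s L)

theorem Phi_linear [Finite X] (g : ContextFreeGrammar X)
    (hg : ∀ r ∈ g.rules, (∃ x : List X, r.output = x.map terminal) ∨
      ∃ (x : List X) (B : g.NT) (y : List X),
        r.output = x.map terminal ++ nonterminal B :: y.map terminal) : Phi g.language :=
  fun Y _ s hs j => sbs_linear g hg s hs j

theorem Phi_sbs [Finite X] [Finite Y] (s : X → Language Y) (L : Language X) (hL : Phi L)
    (hs : ∀ x, Phi (s x)) : Phi (sbs s L) := by
  intro Z _ t ht j
  rw [sbs_sbs]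
  exact hL Z inferInstance _ (fun x i => hs x Z inferInstance t ht i) j

theorem Phi_rat [Finite X] {K : Language X} (hK : Phi K) :
    ∃ r : List Sg → List X → Prop, Rat r ∧ ∀ v, v ∈ K ↔ ∃ w ∈ LQ, r w v := by
  obtain ⟨ρ, h1, h2, h3⟩ := hK X inferInstance (fun a => {[a]})
    (fun x j => ⟨_, Gd_word j [x]⟩) 0
  rw [sbs_single] at h3
  refine ⟨ρ, h1, fun v => ?_⟩
  rw [h3]
  constructor
  · rintro ⟨τ, hτ, h⟩
    exact ⟨code τ, ⟨τ, Or.inl hτ, rfl⟩, h⟩
  · rintro ⟨w, ⟨τ, hτ, rfl⟩, h⟩
    refine ⟨τ, ?_, h⟩
    rcases hτ with hτ | hτ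
    · exact hτ
    · obtain ⟨τ', h4, h5⟩ := h2 _ _ h
      have := code_injective h5
      subst this
      exact absurd hτ (Cs_noViol h4)

end Pool.Agent.Helper178.Qrt
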