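import Mathlib

set_option linter.unusedVariables false

namespace Pool.Agent.Helper178.Trans

variable {X Y Z : Type}

/-- Finite-state transducers whose moves read at most one letter and write at most one letter. -/
structure Tr (X Y : Type) where
  Q : Type
  fin : Finite Q
  step : Q → Option X → Option Y → Q → Prop
  start : Q → Prop
  acc : Q → Prop

/-- Paths of a transducer. -/
inductive Tr.Path (M : Tr X Y) : M.Q → List X → List Y → M.Q → Prop
  | nil (q : M.Q) : Tr.Path M q [] [] q
  | cons {p q r : M.Q} {i : Option X} {o : Option Y} {u : List X} {v : List Y} :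
      M.step p i o q → Tr.Path M q u v r → Tr.Path M p (i.toList ++ u) (o.toList ++ v) r

/-- The relation recognised by a transducer. -/
def Tr.Rel (M : Tr X Y) (u : List X) (v : List Y) : Prop :=
  ∃ p q, M.start p ∧ M.acc q ∧ M.Path p u v q

/-- Rational relations. -/
def Rat (r : List X → List Y → Prop) : Prop := ∃ M : Tr X Y, ∀ u v, r u v ↔ M.Rel u v

namespace Tr

variable {M : Tr X Y}

theorem Path.append {p q r : M.Q} {u u' : List X} {v v' : List Y}
    (h1 : M.Path p u v q) (h2 : M.Path q u' v' r) : M.Path p (u ++ u') (v ++ v') r := by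
  induction h1 with
  | nil q => simpa using h2
  | cons hs _ ih =>
    rw [List.append_assoc, List.append_assoc]
    exact .cons hs (ih h2)

theorem Path.single {p q : M.Q} {i : Option X} {o : Option Y} (h : M.step p i o q) :
    M.Path p i.toList o.toList q := by
  have := Path.cons h (Path.nil q)
  simpa using this

/-- Cutting a path at a given position of the output. -/
theorem Path.cut_out {p r : M.Q} {w : List X} {s : List Y} (h : M.Path p w s r) :
    ∀ u v, s = u ++ v → ∃ q w1 w2, w = w1 ++ w2 ∧ M.Path p w1 u q ∧ M.Path q w2 v r := by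
  induction h with
  | nil q =>
    intro u v h
    have h' := (List.append_eq_nil_iff.mp h.symm)
    obtain ⟨rfl, rfl⟩ := h'
    exact ⟨q, [], [], rfl, .nil q, .nil q⟩
  | @cons p q r i o w s hs hp ih =>
    intro u v h
    cases u with
    | nil =>
      refine ⟨p, [], i.toList ++ w, rfl, .nil p, ?_⟩
      have := Path.cons hs hp
      rw [h] at this
      simpa using this
    | cons y u' =>
      cases o with
      | none =>
        obtain ⟨q', w1, w2, hw, h1, h2⟩ := ih (y :: u') v (by simpa using h)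
        refine ⟨q', i.toList ++ w1, w2, by simp [hw], ?_, h2⟩
        have := Path.cons hs h1
        simpa using this
      | some z =>
        have h3 : z = y ∧ s = u' ++ v := by simpa using h
        obtain ⟨q', w1, w2, hw, h1, h2⟩ := ih u' v h3.2
        refine ⟨q', i.toList ++ w1, w2, by simp [hw], ?_, h2⟩
        have := Path.cons hs h1
        rw [h3.1] at this
        simpa using this

/-- Exchange input and output. -/
def inv (M : Tr X Y) : Tr Y X where
  Q := M.Q
  fin := M.fin
  step p i o q := M.step p o i q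
  start := M.start
  acc := M.acc

theorem inv_path {p q : M.Q} {u : List X} {v : List Y} (h : M.Path p u v q) :
    M.inv.Path p v u q := by
  induction h with
  | nil q => exact Path.nil (M := M.inv) q
  | cons hs _ ih => exact Path.cons (M := M.inv) hs ih

theorem inv_path' {p q : M.Q} {u : List X} {v : List Y} (h : M.inv.Path p v u q) :
    M.Path p u v q := by
  have := inv_path h
  exact this

/-- Cutting a path at a given position of the input. -/
theorem Path.cut_in {p r : M.Q} {w : List X} {s : List Y} (h : M.Path p w s r) :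
    ∀ u v, w = u ++ v → ∃ q s1 s2, s = s1 ++ s2 ∧ M.Path p u s1 q ∧ M.Path q v s2 r := by
  intro u v hw
  obtain ⟨q, s1, s2, hs, h1, h2⟩ := (inv_path h).cut_out u v hw
  exact ⟨q, s1, s2, hs, inv_path' h1, inv_path' h2⟩

end Tr

theorem Rat.congr {r s : List X → List Y → Prop} (h : Rat r) (hrs : ∀ u v, s u v ↔ r u v) :
    Rat s := by
  obtain ⟨M, hM⟩ := h
  exact ⟨M, fun u v => (hrs u v).trans (hM u v)⟩

theorem Rat.inv {r : List X → List Y → Prop} (h : Rat r) : Rat (fun v u => r u v) := by
  obtain ⟨M, hM⟩ := h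
  refine ⟨M.inv, fun v u => (hM u v).trans ?_⟩
  constructor
  · rintro ⟨p, q, hp, hq, h⟩
    exact ⟨p, q, hp, hq, Tr.inv_path h⟩
  · rintro ⟨p, q, hp, hq, h⟩
    exact ⟨p, q, hp, hq, Tr.inv_path' h⟩

/-! ### composition -/

/-- Composition of transducers. -/
def Tr.comp (M : Tr X Y) (N : Tr Y Z) : Tr X Z where
  Q := M.Q × N.Q
  fin := by
    have := M.fin
    have := N.fin
    infer_instance
  step a i o b :=
    (M.step a.1 i none b.1 ∧ o = none ∧ b.2 = a.2) ∨
    (N.step a.2 none o b.2 ∧ i = none ∧ b.1 = a.1) ∨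
    (∃ y, M.step a.1 i (some y) b.1 ∧ N.step a.2 (some y) o b.2)
  start a := M.start a.1 ∧ N.start a.2
  acc a := M.acc a.1 ∧ N.acc a.2

theorem Tr.comp_sound (M : Tr X Y) (N : Tr Y Z) {a b : (M.comp N).Q} {u : List X} {w : List Z}
    (h : (M.comp N).Path a u w b) : ∃ v, M.Path a.1 u v b.1 ∧ N.Path a.2 v w b.2 := by
  induction h with
  | nil q => exact ⟨[], .nil _, .nil _⟩
  | @cons p q r i o u w hs hp ih =>
    obtain ⟨v, h1, h2⟩ := ih
    rcases hs with ⟨hs, rfl, he⟩ | ⟨hs, rfl, he⟩ | ⟨y, hs1, hs2⟩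
    · refine ⟨v, ?_, ?_⟩
      · have := Path.cons hs h1
        simpa using this
      · rw [← he]; simpa using h2
    · refine ⟨v, ?_, ?_⟩
      · rw [← he]; simpa using h1
      · have := Path.cons hs h2
        simpa using this
    · refine ⟨y :: v, ?_, ?_⟩
      · have := Path.cons hs1 h1
        simpa using this
      · have := Path.cons hs2 h2
        simpa using this

theorem Tr.comp_complete (M : Tr X Y) (N : Tr Y Z) {p q : M.Q} {u : List X} {v : List Y}
    (h : M.Path p u v q) : ∀ (p' q' : N.Q) (w : List Z), N.Path p' v w q' →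
      (M.comp N).Path (p, p') u w (q, q') := by
  induction h with
  | nil q =>
    intro p' q' w h2
    generalize hv : ([] : List Y) = v at h2
    induction h2 with
    | nil q' => exact .nil _
    | @cons p' r' q' i o v w hs hp ih =>
      cases i with
      | some y => simp at hv
      | none =>
        have ih' := ih (by simpa using hv)
        have : (M.comp N).step (q, p') none o (q, r') := Or.inr (Or.inl ⟨hs, rfl, rfl⟩)
        have := Path.cons this ih'
        simpa using this
  | @cons p r q i o u v hs hp ih =>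
    intro p' q' w h2
    cases o with
    | none =>
      have ih' := ih p' q' w (by simpa using h2)
      have : (M.comp N).step (p, p') i none (r, p') := Or.inl ⟨hs, rfl, rfl⟩
      have := Path.cons this ih'
      simpa using this
    | some y =>
      generalize hv : (some y).toList ++ v = v' at h2
      induction h2 with
      | nil q' => simp at hv
      | @cons p' r' q' i' o' v'' w hs' hp' ih' =>
        cases i' with
        | none =>
          have ih'' := ih' (by simpa using hv)
          have : (M.comp N).step (p, p') none o' (p, r') := Or.inr (Or.inl ⟨hs', rfl, rfl⟩)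
          have := Path.cons this ih''
          simpa using this
        | some z =>
          have h3 : y = z ∧ v = v'' := by simpa using hv
          obtain ⟨rfl, rfl⟩ := h3
          have : (M.comp N).step (p, p') i o' (r, r') := Or.inr (Or.inr ⟨y, hs, hs'⟩)
          exact Path.cons this (ih r' q' w hp')

theorem Rat.comp {r : List X → List Y → Prop} {s : List Y → List Z → Prop}
    (hr : Rat r) (hs : Rat s) : Rat (fun u w => ∃ v, r u v ∧ s v w) := by
  obtain ⟨M, hM⟩ := hr
  obtain ⟨N, hN⟩ := hs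
  refine ⟨M.comp N, fun u w => ?_⟩
  constructor
  · rintro ⟨v, h1, h2⟩
    rw [hM] at h1
    rw [hN] at h2
    obtain ⟨p, q, hp, hq, h1⟩ := h1
    obtain ⟨p', q', hp', hq', h2⟩ := h2
    exact ⟨(p, p'), (q, q'), ⟨hp, hp'⟩, ⟨hq, hq'⟩, Tr.comp_complete M N h1 _ _ _ h2⟩
  · rintro ⟨a, b, ⟨ha1, ha2⟩, ⟨hb1, hb2⟩, h⟩
    obtain ⟨v, h1, h2⟩ := Tr.comp_sound M N h
    exact ⟨v, (hM u v).mpr ⟨_, _, ha1, hb1, h1⟩, (hN v w).mpr ⟨_, _, ha2, hb2, h2⟩⟩

/-! ### concatenation -/

/-- Concatenation of transducers. -/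
def Tr.mul (M N : Tr X Y) : Tr X Y where
  Q := M.Q ⊕ N.Q
  fin := by
    have := M.fin
    have := N.fin
    infer_instance
  step a i o b :=
    (∃ p q, a = .inl p ∧ b = .inl q ∧ M.step p i o q) ∨
    (∃ p q, a = .inr p ∧ b = .inr q ∧ N.step p i o q) ∨
    (∃ p q, a = .inl p ∧ b = .inr q ∧ i = none ∧ o = none ∧ M.acc p ∧ N.start q)
  start a := ∃ p, a = .inl p ∧ M.start p
  acc a := ∃ p, a = .inr p ∧ N.acc p

theorem Tr.mul_sound (M N : Tr X Y) {a b : (M.mul N).Q} {u : List X} {v : List Y}
    (h : (M.mul N).Path a u v b) : ∀ q, b = .inr q →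
      (∀ p, a = .inr p → N.Path p u v q) ∧
      (∀ p, a = .inl p → ∃ u1 u2 v1 v2 p1 q1, u = u1 ++ u2 ∧ v = v1 ++ v2 ∧ M.Path p u1 v1 p1 ∧
        M.acc p1 ∧ N.start q1 ∧ N.Path q1 u2 v2 q) := by
  induction h with
  | nil a =>
    intro q hq
    subst hq
    refine ⟨?_, ?_⟩
    · intro p hp
      cases hp
      exact .nil _
    · intro p hp
      cases hp
  | @cons a c b i o u v hs hp ih =>
    intro q hq
    obtain ⟨ih1, ih2⟩ := ih q hq
    rcases hs with ⟨p, r, rfl, rfl, hs⟩ | ⟨p, r, rfl, rfl, hs⟩ | ⟨p, r, rfl, rfl, rfl, rfl, h1, h2⟩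
    · refine ⟨fun p' hp' => (by cases hp'), ?_⟩
      intro p' hp'
      cases hp'
      obtain ⟨u1, u2, v1, v2, p1, q1, rfl, rfl, h1, h2, h3, h4⟩ := ih2 r rfl
      exact ⟨i.toList ++ u1, u2, o.toList ++ v1, v2, p1, q1, by simp, by simp, .cons hs h1, h2,
        h3, h4⟩
    · refine ⟨?_, fun p' hp' => (by cases hp')⟩
      intro p' hp'
      cases hp'
      exact .cons hs (ih1 r rfl)
    · refine ⟨fun p' hp' => (by cases hp'), ?_⟩
      intro p' hp'
      cases hp'
      exact ⟨[], u, [], v, p, r, by simp, by simp, .nil _, h1, h2, ih1 r rfl⟩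

theorem Tr.mul_inl (M N : Tr X Y) {p q : M.Q} {u : List X} {v : List Y} (h : M.Path p u v q) :
    (M.mul N).Path (.inl p) u v (.inl q) := by
  induction h with
  | nil q => exact .nil _
  | @cons p r q i o u v hs hp ih =>
    have : (M.mul N).step (.inl p) i o (.inl r) := Or.inl ⟨p, r, rfl, rfl, hs⟩
    exact .cons this ih

theorem Tr.mul_inr (M N : Tr X Y) {p q : N.Q} {u : List X} {v : List Y} (h : N.Path p u v q) :
    (M.mul N).Path (.inr p) u v (.inr q) := by
  induction h with
  | nil q => exact .nil _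
  | @cons p r q i o u v hs hp ih =>
    have : (M.mul N).step (.inr p) i o (.inr r) := Or.inr (Or.inl ⟨p, r, rfl, rfl, hs⟩)
    exact .cons this ih

theorem Rat.mul {r s : List X → List Y → Prop} (hr : Rat r) (hs : Rat s) :
    Rat (fun u v => ∃ u1 u2 v1 v2, u = u1 ++ u2 ∧ v = v1 ++ v2 ∧ r u1 v1 ∧ s u2 v2) := by
  obtain ⟨M, hM⟩ := hr
  obtain ⟨N, hN⟩ := hs
  refine ⟨M.mul N, fun u v => ?_⟩
  constructor
  · rintro ⟨u1, u2, v1, v2, rfl, rfl, h1, h2⟩
    rw [hM] at h1
    rw [hN] at h2
    obtain ⟨p, q, hp, hq, h1⟩ := h1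
    obtain ⟨p', q', hp', hq', h2⟩ := h2
    refine ⟨.inl p, .inr q', ⟨p, rfl, hp⟩, ⟨q', rfl, hq'⟩, ?_⟩
    have hstep : (M.mul N).step (.inl q) none none (.inr p') :=
      Or.inr (Or.inr ⟨q, p', rfl, rfl, rfl, rfl, hq, hp'⟩)
    exact (Tr.mul_inl M N h1).append (Tr.Path.cons hstep (Tr.mul_inr M N h2))
  · rintro ⟨a, b, ⟨p, rfl, hp⟩, ⟨q, rfl, hq⟩, h⟩
    obtain ⟨u1, u2, v1, v2, p1, q1, rfl, rfl, h1, h2, h3, h4⟩ :=
      (Tr.mul_sound M N h q rfl).2 p rfl
    exact ⟨u1, u2, v1, v2, rfl, rfl, (hM _ _).mpr ⟨_, _, hp, h2, h1⟩,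
      (hN _ _).mpr ⟨_, _, h3, hq, h4⟩⟩

/-! ### star -/

/-- Kleene star of a relation. -/
inductive Star (r : List X → List Y → Prop) : List X → List Y → Prop
  | nil : Star r [] []
  | cons {u u' : List X} {v v' : List Y} : r u v → Star r u' v' → Star r (u ++ u') (v ++ v')

/-- Star of a transducer. -/
def Tr.star (M : Tr X Y) : Tr X Y where
  Q := Option M.Q
  fin := by
    have := M.fin
    infer_instance
  step a i o b :=
    (∃ p q, a = some p ∧ b = some q ∧ M.step p i o q) ∨
    (∃ q, a = none ∧ b = some q ∧ i = none ∧ o = none ∧ M.start q) ∨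
    (∃ p, a = some p ∧ b = none ∧ i = none ∧ o = none ∧ M.acc p)
  start a := a = none
  acc a := a = none

theorem Tr.star_sound (M : Tr X Y) {a b : M.star.Q} {u : List X} {v : List Y}
    (h : M.star.Path a u v b) (hb : b = none) :
      (a = none → Star M.Rel u v) ∧
      (∀ p, a = some p → ∃ u1 u2 v1 v2 p1, u = u1 ++ u2 ∧ v = v1 ++ v2 ∧ M.Path p u1 v1 p1 ∧
        M.acc p1 ∧ Star M.Rel u2 v2) := by
  induction h with
  | nil a =>
    subst hb
    exact ⟨fun _ => .nil, fun p hp => by cases hp⟩
  | @cons a c b i o u v hs hp ih =>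
    obtain ⟨ih1, ih2⟩ := ih hb
    rcases hs with ⟨p, r, rfl, rfl, hs⟩ | ⟨r, rfl, rfl, rfl, rfl, hs⟩ | ⟨p, rfl, rfl, rfl, rfl, hs⟩
    · refine ⟨fun h => (by cases h), ?_⟩
      intro p' hp'
      cases hp'
      obtain ⟨u1, u2, v1, v2, p1, rfl, rfl, h1, h2, h3⟩ := ih2 r rfl
      exact ⟨i.toList ++ u1, u2, o.toList ++ v1, v2, p1, by simp, by simp, .cons hs h1, h2, h3⟩
    · refine ⟨fun _ => ?_, fun p' hp' => by cases hp'⟩
      obtain ⟨u1, u2, v1, v2, p1, rfl, rfl, h1, h2, h3⟩ := ih2 r rfl
      have h4 : M.Rel u1 v1 := ⟨r, p1, hs, h2, h1⟩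
      simpa using Star.cons h4 h3
    · refine ⟨fun h => (by cases h), ?_⟩
      intro p' hp'
      cases hp'
      exact ⟨[], u, [], v, p, by simp, by simp, .nil _, hs, ih1 rfl⟩

theorem Tr.star_some (M : Tr X Y) {p q : M.Q} {u : List X} {v : List Y} (h : M.Path p u v q) :
    M.star.Path (some p) u v (some q) := by
  induction h with
  | nil q => exact .nil _
  | @cons p r q i o u v hs hp ih =>
    have : M.star.step (some p) i o (some r) := Or.inl ⟨p, r, rfl, rfl, hs⟩
    exact .cons this ih

theorem Tr.star_complete (M : Tr X Y) {u : List X} {v : List Y} (h : Star M.Rel u v) :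
    M.star.Path none u v none := by
  induction h with
  | nil => exact .nil _
  | @cons u u' v v' hr hs ih =>
    obtain ⟨p, q, hp, hq, h⟩ := hr
    have h1 : M.star.step none none none (some p) := Or.inr (Or.inl ⟨p, rfl, rfl, rfl, rfl, hp⟩)
    have h2 : M.star.step (some q) none none none := Or.inr (Or.inr ⟨q, rfl, rfl, rfl, rfl, hq⟩)
    have h3 := (Path.single h1).append ((M.star_some h).append ((Path.single h2).append ih))
    simpa using h3

theorem Star.mono {r s : List X → List Y → Prop} (h : ∀ u v, r u v → s u v) {u : List X}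
    {v : List Y} (hr : Star r u v) : Star s u v := by
  induction hr with
  | nil => exact .nil
  | cons h1 _ ih => exact .cons (h _ _ h1) ih

theorem Rat.star {r : List X → List Y → Prop} (hr : Rat r) : Rat (Star r) := by
  obtain ⟨M, hM⟩ := hr
  refine ⟨M.star, fun u v => ?_⟩
  constructor
  · intro h
    exact ⟨none, none, rfl, rfl, M.star_complete (h.mono fun u v => (hM u v).mp)⟩
  · rintro ⟨a, b, rfl, rfl, h⟩
    exact ((M.star_sound h rfl).1 rfl).mono fun u v => (hM u v).mpr

/-! ### finite unions -/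

theorem Rat.iUnion {ι : Type} [Finite ι] {r : ι → List X → List Y → Prop} (hr : ∀ i, Rat (r i)) :
    Rat (fun u v => ∃ i, r i u v) := by
  choose M hM using hr
  let N : Tr X Y :=
    { Q := Σ i, (M i).Q
      fin := by
        have := fun i => (M i).fin
        infer_instance
      step := fun a i o b => ∃ k p q, a = ⟨k, p⟩ ∧ b = ⟨k, q⟩ ∧ (M k).step p i o q
      start := fun a => (M a.1).start a.2
      acc := fun a => (M a.1).acc a.2 }
  have hsound : ∀ (a b : N.Q) u v, N.Path a u v b →
      ∃ k p q, a = ⟨k, p⟩ ∧ b = ⟨k, q⟩ ∧ (M k).Path p u v q := by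
    intro a b u v h
    induction h with
    | nil a => exact ⟨a.1, a.2, a.2, rfl, rfl, .nil _⟩
    | @cons a c b i o u v hs hp ih =>
      obtain ⟨k, p, q, rfl, rfl, hs⟩ := hs
      obtain ⟨k', p', q', h1, rfl, h2⟩ := ih
      cases h1
      exact ⟨k, p, q', rfl, rfl, .cons hs h2⟩
  have hcomp : ∀ k (p q : (M k).Q) u v, (M k).Path p u v q → N.Path ⟨k, p⟩ u v ⟨k, q⟩ := by
    intro k p q u v h
    induction h with
    | nil q => exact Tr.Path.nil (M := N) _
    | @cons p r q i o u v hs hp ih =>
      have : N.step ⟨k, p⟩ i o ⟨k, r⟩ := ⟨k, p, r, rfl, rfl, hs⟩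
      exact Tr.Path.cons (M := N) this ih
  refine ⟨N, fun u v => ?_⟩
  constructor
  · rintro ⟨i, h⟩
    rw [hM] at h
    obtain ⟨p, q, hp, hq, h⟩ := h
    exact ⟨⟨i, p⟩, ⟨i, q⟩, hp, hq, hcomp i p q u v h⟩
  · rintro ⟨a, b, ha, hb, h⟩
    obtain ⟨k, p, q, rfl, rfl, h'⟩ := hsound a b u v h
    exact ⟨k, (hM k u v).mpr ⟨p, q, ha, hb, h'⟩⟩

/-! ### single pairs -/

theorem Rat.step (i : Option X) (o : Option Y) : Rat (fun u v => u = i.toList ∧ v = o.toList) := by
  let N : Tr X Y :=
    { Q := Bool
      fin := inferInstance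
      step := fun a i' o' b => a = false ∧ b = true ∧ i' = i ∧ o' = o
      start := fun a => a = false
      acc := fun a => a = true }
  have hsound : ∀ (a b : N.Q) u v, N.Path a u v b → b = true →
      (a = true → u = [] ∧ v = []) ∧ (a = false → u = i.toList ∧ v = o.toList) := by
    intro a b u v h
    induction h with
    | nil a =>
      intro ha
      refine ⟨fun _ => ⟨rfl, rfl⟩, fun h => ?_⟩
      rw [ha] at h
      cases h
    | @cons a c b i' o' u v hs hp ih =>
      intro hb
      obtain ⟨ha, hc, rfl, rfl⟩ := hs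
      obtain ⟨rfl, rfl⟩ := (ih hb).1 hc
      refine ⟨fun h => ?_, fun _ => by simp⟩
      rw [ha] at h
      cases h
  refine ⟨N, fun u v => ?_⟩
  constructor
  · rintro ⟨rfl, rfl⟩
    have hs : N.step false i o true := ⟨rfl, rfl, rfl, rfl⟩
    exact ⟨false, true, rfl, rfl, Tr.Path.single (M := N) hs⟩
  · rintro ⟨a, b, ha, hb, h⟩
    exact (hsound a b u v h hb).2 ha

theorem Rat.single (x : List X) (y : List Y) : Rat (fun u v => u = x ∧ v = y) := by
  induction x with
  | nil =>
    induction y with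
    | nil => exact (Rat.step (X := X) (Y := Y) none none).congr (by simp)
    | cons b y ih =>
      refine ((Rat.step (X := X) (Y := Y) none (some b)).mul ih).congr ?_
      intro u v
      constructor
      · rintro ⟨rfl, rfl⟩
        exact ⟨[], [], [b], y, by simp, by simp, by simp, by simp⟩
      · rintro ⟨u1, u2, v1, v2, rfl, rfl, ⟨h1, h2⟩, h3, h4⟩
        subst h1 h2 h3 h4
        simp
  | cons a x ih =>
    refine ((Rat.step (X := X) (Y := Y) (some a) none).mul ih).congr ?_
    intro u v
    constructor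
    · rintro ⟨rfl, rfl⟩
      exact ⟨[a], x, [], v, by simp, by simp, by simp, by simp⟩
    · rintro ⟨u1, u2, v1, v2, rfl, rfl, ⟨h1, h2⟩, h3, h4⟩
      subst h1 h2 h3 h4
      simp

/-! ### morphisms, regular sets and the normal form of Nivat -/

theorem star_hom {C : Type} (g : C → List Y) (u : List C) (v : List Y) :
    Star (fun u v => ∃ c, u = [c] ∧ v = g c) u v ↔ v = u.flatMap g := by
  constructor
  · intro h
    induction h with
    | nil => simp
    | @cons u u' v v' h1 _ ih =>
      obtain ⟨c, rfl, rfl⟩ := h1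
      simp [ih]
  · rintro rfl
    induction u with
    | nil => simpa using Star.nil
    | cons c u ih =>
      have := Star.cons (r := fun (u : List C) (v : List Y) => ∃ c, u = [c] ∧ v = g c)
        (u := [c]) (v := g c) ⟨c, rfl, rfl⟩ ih
      simpa using this

theorem Rat.hom {C : Type} [Finite C] (g : C → List Y) : Rat (fun u v => v = u.flatMap g) := by
  have h : Rat (fun u v => ∃ c : C, u = [c] ∧ v = g c) :=
    Rat.iUnion (r := fun (c : C) (u : List C) (v : List Y) => u = [c] ∧ v = g c)
      fun c => Rat.single [c] (g c)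
  exact h.star.congr fun u v => (star_hom g u v).symm

theorem Rat.reg {C : Type} {R : Language C} (hR : R.IsRegular) :
    Rat (fun u v : List C => u ∈ R ∧ v = u) := by
  obtain ⟨σ, hσ, D, rfl⟩ := hR
  let N : Tr C C :=
    { Q := σ
      fin := inferInstance
      step := fun p i o q => ∃ c, i = some c ∧ o = some c ∧ q = D.step p c
      start := fun p => p = D.start
      acc := fun p => p ∈ D.accept }
  have hsound : ∀ (p q : N.Q) u v, N.Path p u v q → v = u ∧ q = D.evalFrom p u := by
    intro p q u v h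
    induction h with
    | nil q => exact ⟨rfl, rfl⟩
    | @cons p r q i o u v hs hp ih =>
      obtain ⟨c, rfl, rfl, rfl⟩ := hs
      obtain ⟨rfl, rfl⟩ := ih
      simp
  have hcomp : ∀ (u : List C) (p : σ), N.Path p u u (D.evalFrom p u) := by
    intro u
    induction u with
    | nil => intro p; exact Tr.Path.nil (M := N) p
    | cons c u ih =>
      intro p
      have hs : N.step p (some c) (some c) (D.step p c) := ⟨c, rfl, rfl, rfl⟩
      have := Tr.Path.cons (M := N) hs (ih (D.step p c))
      simpa using this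
  refine ⟨N, fun u v => ?_⟩
  constructor
  · rintro ⟨h, rfl⟩
    exact ⟨D.start, D.evalFrom D.start v, rfl, h, hcomp v _⟩
  · rintro ⟨p, q, hp, hq, h⟩
    obtain ⟨rfl, rfl⟩ := hsound p q u v h
    refine ⟨?_, rfl⟩
    have hp' : p = D.start := hp
    subst hp'
    exact hq

theorem Rat.nivat {C : Type} [Finite C] (h : C → List X) (g : C → List Y) {R : Language C}
    (hR : R.IsRegular) : Rat (fun u v => ∃ w ∈ R, u = w.flatMap h ∧ v = w.flatMap g) := by
  have h1 : Rat (fun (u : List X) (w : List C) => u = w.flatMap h) := (Rat.hom h).inv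
  have h2 := Rat.reg hR
  have h3 := Rat.hom g
  refine ((h1.comp h2).comp h3).congr ?_
  intro u v
  constructor
  · rintro ⟨w, hw, rfl, rfl⟩
    exact ⟨w, ⟨w, rfl, hw, rfl⟩, rfl⟩
  · rintro ⟨w, ⟨w', rfl, hw, rfl⟩, rfl⟩
    exact ⟨_, hw, rfl, rfl⟩

end Pool.Agent.Helper178.Trans
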