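import Pool.Agent.Helper178.QrtUp
import Pool.Agent.Helper178.Trans
import Pool.Agent.Helper178.GramLfp

set_option linter.unusedVariables false

namespace Pool.Agent.Helper178.Qrt

open Pool.Agent.Helper178.Trans (Tr Rat)
open Pool.Agent.Helper178.Idx (Run Run_append Ch Ch_short Ch_add)

/-! ### the language of full binary trees -/

/-- Four letters. -/
inductive A4
  | x
  | y
  | w
  | z
  deriving DecidableEq, Fintype

/-- Words of full binary trees. -/
inductive Tw : List A4 → Prop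
  | leaf : Tw [A4.z]
  | node (u v : List A4) : Tw u → Tw v → Tw (A4.x :: (u ++ A4.y :: (v ++ [A4.w])))

/-- The tree language. -/
def KT : Language A4 := {w | Tw w}

section grammar

open Symbol

/-- The rules. -/
def rT : Finset (ContextFreeRule A4 Unit) := {⟨(), [terminal A4.z]⟩, ⟨(), [terminal A4.x,
  nonterminal (), terminal A4.y, nonterminal (), terminal A4.w]⟩}

/-- The grammar of the tree language. -/
def gT : ContextFreeGrammar A4 where
  NT := Unit
  initial := ()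
  rules := rT

theorem KT_contextFree : KT.IsContextFree := by
  refine ⟨gT, ?_⟩
  have hr : ∀ r : ContextFreeRule A4 Unit, r ∈ rT ↔ r = ⟨(), [terminal A4.z]⟩ ∨
      r = ⟨(), [terminal A4.x, nonterminal (), terminal A4.y, nonterminal (), terminal A4.w]⟩ := by
    intro r
    rw [rT, Finset.mem_insert, Finset.mem_singleton]
  ext w
  constructor
  · intro h
    have h' : gT.Derives [nonterminal gT.initial] (w.map terminal) := h
    have h2 := Gram.sound (g := gT) (I := fun _ u => Tw u) ?_ h'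
    · obtain ⟨w1, w2, rfl, h3, h4⟩ := h2
      have h4' : w2 = [] := h4
      subst h4'
      rw [List.append_nil]
      exact h3
    · intro r hr' u hu
      rcases (hr r).mp hr' with rfl | rfl
      · obtain ⟨u', rfl, h⟩ := hu
        have h' : u' = [] := h
        subst h'
        exact .leaf
      · obtain ⟨u', rfl, u1, u2, rfl, h1, u3, rfl, u4, u5, rfl, h2, u6, rfl, h3⟩ := hu
        have h3' : u6 = [] := h3
        subst h3'
        exact .node _ _ h1 h2
  · intro h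
    have h2 : ∀ w, Tw w → Gram.Der gT () w := by
      intro w h
      induction h with
      | leaf =>
        exact Gram.complete (g := gT) (r := ⟨(), [terminal A4.z]⟩) ((hr _).mpr (Or.inl rfl))
          ⟨[], rfl, rfl⟩
      | node u v _ _ ih1 ih2 =>
        exact Gram.complete (g := gT) (r := ⟨(), [terminal A4.x, nonterminal (), terminal A4.y,
          nonterminal (), terminal A4.w]⟩) ((hr _).mpr (Or.inr rfl))
          ⟨_, rfl, u, _, rfl, ih1, _, rfl, v, [A4.w], rfl, ih2, [], rfl, rfl⟩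
    exact h2 w h

end grammar

/-- The transitions of the automaton that counts depth. -/
inductive Sp (n : ℕ) : Bool × ℕ → A4 → Bool × ℕ → Prop
  | dn (j : ℕ) : j < n → Sp n (false, j) A4.x (false, j + 1)
  | lf : Sp n (false, n) A4.z (true, n)
  | md (j : ℕ) : j < n → Sp n (true, j + 1) A4.y (false, j + 1)
  | up (j : ℕ) : j < n → Sp n (true, j + 1) A4.w (true, j)

theorem Tw_long {n : ℕ} {w : List A4} (hw : Tw w) : ∀ (j : ℕ) (q : Bool × ℕ), j ≤ n →
    Run (Sp n) (false, j) w q → q = (true, j) ∧ 2 ^ (n - j) ≤ w.length := by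
  induction hw with
  | leaf =>
    rintro j q hj ⟨r, h1, h2⟩
    cases h1 with
    | lf =>
      have h2' : (true, n) = q := h2
      exact ⟨h2'.symm, by simp⟩
  | node u v _ _ ih1 ih2 =>
    rintro j q hj ⟨r, h1, h2⟩
    cases h1 with
    | dn _ hjn =>
      obtain ⟨s1, h3, s2, h4, h5⟩ := (Run_append _ _ _ _).mp h2
      obtain ⟨rfl, h6⟩ := ih1 (j + 1) s1 (by omega) h3
      cases h4 with
      | md _ _ =>
        obtain ⟨s3, h7, s4, h8, h9⟩ := (Run_append _ _ _ _).mp h5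
        obtain ⟨rfl, h10⟩ := ih2 (j + 1) s3 (by omega) h7
        cases h8 with
        | up _ _ =>
          have h9' : (true, j) = q := h9
          refine ⟨h9'.symm, ?_⟩
          have : n - j = (n - (j + 1)) + 1 := by omega
          rw [this, pow_succ]
          simp only [List.length_cons, List.length_append, List.length_nil]
          omega

theorem Tw_exists {n : ℕ} (c : ℕ) : ∀ j, j + c = n → ∃ w, Tw w ∧
    Run (Sp n) (false, j) w (true, j) := by
  induction c with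
  | zero =>
    intro j hj
    have : j = n := by omega
    subst this
    exact ⟨_, .leaf, (true, j), .lf, rfl⟩
  | succ c ih =>
    intro j hj
    obtain ⟨w, hw, hr⟩ := ih (j + 1) (by omega)
    refine ⟨_, .node w w hw hw, (false, j + 1), .dn j (by omega), ?_⟩
    refine (Run_append _ _ _ _).mpr ⟨(true, j + 1), hr, (false, j + 1), .md j (by omega), ?_⟩
    exact (Run_append _ _ _ _).mpr ⟨(true, j + 1), hr, (true, j), .up j (by omega), rfl⟩

/-- The bounded automaton. -/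
def sb (n : ℕ) (p : Bool × Fin (n + 1)) (a : A4) (q : Bool × Fin (n + 1)) : Prop :=
  Sp n (p.1, p.2) a (q.1, q.2)

theorem run_sb {n : ℕ} (w : List A4) : ∀ (p q : Bool × Fin (n + 1)),
    Run (sb n) p w q ↔ Run (Sp n) (p.1, (p.2 : ℕ)) w (q.1, (q.2 : ℕ)) := by
  induction w with
  | nil =>
    intro p q
    show p = q ↔ ((p.1, (p.2 : ℕ)) : Bool × ℕ) = (q.1, (q.2 : ℕ))
    constructor
    · rintro rfl
      rfl
    · intro h
      rw [Prod.mk.injEq] at h
      exact Prod.ext h.1 (Fin.val_injective h.2)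
  | cons a w ih =>
    intro p q
    constructor
    · rintro ⟨r, h1, h2⟩
      exact ⟨_, h1, (ih r q).mp h2⟩
    · rintro ⟨r, h1, h2⟩
      have hr : ∃ r' : Bool × Fin (n + 1), r = (r'.1, (r'.2 : ℕ)) := by
        obtain ⟨p1, p2, hp2⟩ := p
        simp only at h1
        cases h1 with
        | dn _ hj => exact ⟨(false, ⟨p2 + 1, by omega⟩), rfl⟩
        | lf => exact ⟨(true, ⟨n, by omega⟩), rfl⟩
        | md j hj => exact ⟨(false, ⟨j + 1, by omega⟩), rfl⟩
        | up j hj => exact ⟨(true, ⟨j, by omega⟩), rfl⟩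
      obtain ⟨r', rfl⟩ := hr
      exact ⟨r', h1, (ih r' q).mpr h2⟩

/-! ### product of a transducer and an automaton -/

section product

variable {X Y σ : Type} (M : Tr X Y) (st : σ → Y → σ → Prop)

/-- Moves that read nothing. -/
def E0 (s t : M.Q × σ) : Prop := ∃ o : Option Y, M.step s.1 none o t.1 ∧ Run st s.2 o.toList t.2

/-- Moves that read a letter. -/
def E1 (a : X) (s t : M.Q × σ) : Prop :=
  ∃ o : Option Y, M.step s.1 (some a) o t.1 ∧ Run st s.2 o.toList t.2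

/-- The product. -/
def Pst (s : M.Q × σ) (a : X) (t : M.Q × σ) : Prop := ∃ k r, Ch (E0 M st) k s r ∧ E1 M st a r t

variable {M st}

theorem prod_of_path {p q : M.Q} {u : List X} {v : List Y} (h : M.Path p u v q) :
    ∀ (a b : σ), Run st a v b → ∃ k t, Run (Pst M st) (p, a) u t ∧ Ch (E0 M st) k t (q, b) := by
  induction h with
  | nil q =>
    intro a b hr
    have hr' : a = b := hr
    subst hr'
    exact ⟨0, (q, a), rfl, rfl⟩
  | @cons p r q i o u v hs hp ih =>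
    intro a b hr
    obtain ⟨c, h1, h2⟩ := (Run_append _ _ _ _).mp hr
    obtain ⟨k, t, h3, h4⟩ := ih c b h2
    cases i with
    | some x =>
      refine ⟨k, t, ?_, h4⟩
      show Run (Pst M st) (p, a) (x :: u) t
      exact ⟨(r, c), ⟨0, (p, a), rfl, o, hs, h1⟩, h3⟩
    | none =>
      have hE : E0 M st (p, a) (r, c) := ⟨o, hs, h1⟩
      cases u with
      | nil =>
        have h3' : (r, c) = t := h3
        subst h3'
        exact ⟨k + 1, (p, a), rfl, (r, c), hE, h4⟩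
      | cons x u =>
        obtain ⟨t', ⟨k', r', h5, h6⟩, h7⟩ := h3
        exact ⟨k, t, ⟨t', ⟨k' + 1, r', ⟨(r, c), hE, h5⟩, h6⟩, h7⟩, h4⟩

theorem path_of_Ch (k : ℕ) : ∀ (s t : M.Q × σ), Ch (E0 M st) k s t →
    ∃ v : List Y, M.Path s.1 [] v t.1 ∧ Run st s.2 v t.2 ∧ v.length ≤ k := by
  induction k with
  | zero =>
    intro s t h
    have h' : s = t := h
    subst h'
    exact ⟨[], .nil _, rfl, le_refl _⟩
  | succ k ih =>
    rintro s t ⟨r, ⟨o, h1, h2⟩, h3⟩
    obtain ⟨v, h4, h5, h6⟩ := ih r t h3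
    refine ⟨o.toList ++ v, ?_, (Run_append _ _ _ _).mpr ⟨_, h2, h5⟩, ?_⟩
    · have := Tr.Path.cons h1 h4
      simpa using this
    · rw [List.length_append]
      have : o.toList.length ≤ 1 := by cases o <;> simp
      omega

theorem path_of_prod [Fintype (M.Q × σ)] (u : List X) : ∀ (s t : M.Q × σ),
    Run (Pst M st) s u t → ∃ v : List Y, M.Path s.1 u v t.1 ∧ Run st s.2 v t.2 ∧
      v.length ≤ u.length * (Fintype.card (M.Q × σ) + 1) := by
  induction u with
  | nil =>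
    intro s t h
    have h' : s = t := h
    subst h'
    exact ⟨[], .nil _, rfl, by simp⟩
  | cons a u ih =>
    rintro s t ⟨r, ⟨k, r', h1, o, h2, h3⟩, h4⟩
    obtain ⟨k', h5, _, h6⟩ := Ch_short _ h1
    obtain ⟨v1, h7, h8, h9⟩ := path_of_Ch _ _ _ h6
    obtain ⟨v2, h10, h11, h12⟩ := ih r t h4
    refine ⟨v1 ++ (o.toList ++ v2), ?_, (Run_append _ _ _ _).mpr ⟨_, h8,
      (Run_append _ _ _ _).mpr ⟨_, h3, h11⟩⟩, ?_⟩
    · have := h7.append (Tr.Path.cons h2 h10)
      simpa using this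
    · rw [List.length_append, List.length_append, List.length_cons, add_mul, one_mul]
      have : o.toList.length ≤ 1 := by cases o <;> simp
      omega

end product

/-- Transfer of the upper bound through a rational relation. -/
theorem transfer {Y σ : Type} [Fintype σ] (M : Tr Sg Y) [Fintype M.Q] (st : σ → Y → σ → Prop)
    (a b : σ) {w : List Sg} {v : List Y} (hw : w ∈ LQ) (hM : M.Rel w v) (hr : Run st a v b) :
    ∃ w' ∈ LQ, ∃ v', M.Rel w' v' ∧ Run st a v' b ∧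
      v'.length ≤ (UQ (Fintype.card (M.Q × σ)) + 1) * (Fintype.card (M.Q × σ) + 1) := by
  obtain ⟨p, q, hp, hq, hpath⟩ := hM
  obtain ⟨k, t, h1, h2⟩ := prod_of_path hpath a b hr
  obtain ⟨w', hw', ⟨s, ⟨hs1, hs2⟩, t', ⟨k', q', h3, h4, h5⟩, h6⟩, hlen⟩ :=
    LQ_upper (Pst M st) {s | M.start s.1 ∧ s.2 = a}
      {t | ∃ (k : ℕ) (q' : M.Q × σ), Ch (E0 M st) k t q' ∧ M.acc q'.1 ∧ q'.2 = b} hw
      ⟨(p, a), ⟨hp, rfl⟩, t, ⟨k, (q, b), h2, hq, rfl⟩, h1⟩
  obtain ⟨k'', h7, _, h8⟩ := Ch_short _ h3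
  obtain ⟨v1, h9, h10, h11⟩ := path_of_Ch _ _ _ h8
  obtain ⟨v2, h12, h13, h14⟩ := path_of_prod _ _ _ h6
  refine ⟨w', hw', v2 ++ v1, ⟨s.1, q'.1, hs1, h4, ?_⟩, ?_, ?_⟩
  · have := h12.append h9
    simpa using this
  · rw [← hs2, ← h5]
    exact (Run_append _ _ _ _).mpr ⟨_, h13, h10⟩
  · rw [List.length_append]
    have h15 := Nat.mul_le_mul hlen (le_refl (Fintype.card (M.Q × σ) + 1))
    rw [add_mul, one_mul]
    omega

/-! ### the bound is small -/

theorem BT_le (N h : ℕ) (hN : 1 ≤ N) : BT N h ≤ (11 * N ^ 5) ^ h := by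
  induction h with
  | zero => simp [BT]
  | succ h ih =>
    have h1 : 1 ≤ (11 * N ^ 5) ^ h := Nat.one_le_pow _ _ (by positivity)
    have h2 : N ≤ N ^ 5 := by
      calc N = N ^ 1 := (pow_one N).symm
        _ ≤ N ^ 5 := Nat.pow_le_pow_right hN (by norm_num)
    have h3 : N ^ 3 ≤ N ^ 5 := Nat.pow_le_pow_right hN (by norm_num)
    calc BT N (h + 1) = (4 * N ^ 3 + 3 * N + 2 * N ^ 5) + 2 * N ^ 3 * BT N h := by rw [BT]; ring
      _ ≤ (9 * N ^ 5) + 2 * N ^ 5 * (11 * N ^ 5) ^ h :=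
        Nat.add_le_add (by omega) (Nat.mul_le_mul (Nat.mul_le_mul (le_refl _) h3) ih)
      _ ≤ (9 * N ^ 5) * (11 * N ^ 5) ^ h + 2 * N ^ 5 * (11 * N ^ 5) ^ h :=
        Nat.add_le_add (Nat.le_mul_of_pos_right _ h1) (le_refl _)
      _ = (11 * N ^ 5) ^ (h + 1) := by ring

theorem UQ_le {N l : ℕ} (hN : 1 ≤ N) (hl : Nat.log 2 N = l) :
    (UQ N + 1) * (N + 1) ≤ 2 ^ (9 * (l + 2) ^ 2) := by
  have hlt : N < 2 ^ (l + 1) := by
    rw [← hl]
    exact Nat.lt_pow_succ_log_self (by norm_num) _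
  have h1 : 11 * N ^ 5 ≤ 2 ^ (5 * l + 9) := by
    have : N ^ 5 ≤ (2 ^ (l + 1)) ^ 5 := Nat.pow_le_pow_left hlt.le 5
    calc 11 * N ^ 5 ≤ 16 * (2 ^ (l + 1)) ^ 5 := Nat.mul_le_mul (by norm_num) this
      _ = 2 ^ (5 * l + 9) := by ring
  have h2 : BT N (Nat.log 2 N + 2) ≤ 2 ^ ((5 * l + 9) * (l + 2)) := by
    calc BT N (Nat.log 2 N + 2) ≤ (11 * N ^ 5) ^ (Nat.log 2 N + 2) := BT_le N _ hN
      _ ≤ (2 ^ (5 * l + 9)) ^ (l + 2) := by
        rw [hl]
        exact Nat.pow_le_pow_left h1 _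
      _ = 2 ^ ((5 * l + 9) * (l + 2)) := by rw [← pow_mul]
  have h3 : 3 * N ^ 2 + 3 * N + 3 ≤ 2 ^ ((5 * l + 9) * (l + 2)) := by
    have h4 : N ^ 2 ≤ (2 ^ (l + 1)) ^ 2 := Nat.pow_le_pow_left hlt.le 2
    have h5 : (1 : ℕ) ≤ (2 ^ (l + 1)) ^ 2 := Nat.one_le_pow _ _ (by positivity)
    have h6 : N ≤ N ^ 2 := by nlinarith
    calc 3 * N ^ 2 + 3 * N + 3 ≤ 16 * (2 ^ (l + 1)) ^ 2 := by omega
      _ = 2 ^ (2 * l + 6) := by ring
      _ ≤ 2 ^ ((5 * l + 9) * (l + 2)) := Nat.pow_le_pow_right (by norm_num) (by nlinarith)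
  have h7 : UQ N + 1 ≤ 2 ^ ((5 * l + 9) * (l + 2) + 1) := by
    unfold UQ
    rw [pow_succ 2 ((5 * l + 9) * (l + 2))]
    omega
  calc (UQ N + 1) * (N + 1) ≤ 2 ^ ((5 * l + 9) * (l + 2) + 1) * 2 ^ (l + 1) :=
        Nat.mul_le_mul h7 hlt
    _ = 2 ^ ((5 * l + 9) * (l + 2) + 1 + (l + 1)) := by rw [← pow_add]
    _ ≤ 2 ^ (9 * (l + 2) ^ 2) := Nat.pow_le_pow_right (by norm_num) (by nlinarith)

theorem pow_big (t : ℕ) (ht : 13 ≤ t) : 36 * t ^ 2 < 2 ^ t := by
  induction t, ht using Nat.le_induction with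
  | base => norm_num
  | succ t ht ih =>
    rw [pow_succ 2 t]
    nlinarith

/-- The tree language is not the image of the language under a rational relation. -/
theorem KT_not : ¬ ∃ r : List Sg → List A4 → Prop, Rat r ∧ ∀ v, v ∈ KT ↔ ∃ w ∈ LQ, r w v := by
  rintro ⟨r, ⟨M, hM⟩, hr⟩
  have hfin := M.fin
  have : Fintype M.Q := Fintype.ofFinite _
  obtain ⟨c, hc⟩ : ∃ c, c = Fintype.card M.Q := ⟨_, rfl⟩
  obtain ⟨t, ht⟩ : ∃ t, t = c + 13 := ⟨_, rfl⟩
  obtain ⟨n, hn⟩ : ∃ n, n = 2 ^ t := ⟨_, rfl⟩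
  obtain ⟨v, hv, hrun⟩ := Tw_exists (n := n) n 0 (by omega)
  have hv' : v ∈ KT := hv
  obtain ⟨w, hw, hwv⟩ := (hr v).mp hv'
  have hne : 1 ≤ c := by
    obtain ⟨p, _⟩ := (hM w v).mp hwv
    rw [hc]
    exact Fintype.card_pos_iff.mpr ⟨p⟩
  have hrun' : Run (sb n) (false, ⟨0, by omega⟩) v (true, ⟨0, by omega⟩) :=
    (run_sb v _ _).mpr hrun
  obtain ⟨w', hw', v', h1, h2, h3⟩ := transfer M (sb n) _ _ hw ((hM w v).mp hwv) hrun'
  have hv2 : Tw v' := (hr v').mpr ⟨w', hw', (hM w' v').mpr h1⟩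
  have h4 := (Tw_long hv2 0 _ (Nat.zero_le _) ((run_sb v' _ _).mp h2)).2
  rw [Nat.sub_zero] at h4
  have hcard : Fintype.card (M.Q × (Bool × Fin (n + 1))) = c * (2 * (n + 1)) := by
    rw [Fintype.card_prod, Fintype.card_prod, Fintype.card_fin, Fintype.card_bool, hc]
  rw [hcard] at h3
  obtain ⟨N, hN⟩ : ∃ N, N = c * (2 * (n + 1)) := ⟨_, rfl⟩
  rw [← hN] at h3
  obtain ⟨l, hl⟩ : ∃ l, Nat.log 2 N = l := ⟨_, rfl⟩
  have hN1 : 1 ≤ N := by
    rw [hN]
    exact Nat.one_le_iff_ne_zero.mpr (Nat.mul_ne_zero (by omega) (by omega))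
  have h5 := h4.trans (h3.trans (UQ_le hN1 hl))
  have h6 : n ≤ 9 * (l + 2) ^ 2 := (Nat.pow_le_pow_iff_right (by norm_num)).mp h5
  have h7 : N ≤ 2 ^ (c + t + 2) := by
    have h8 : c ≤ 2 ^ c := Nat.lt_two_pow_self.le
    have h9 : 2 * (n + 1) ≤ 2 ^ (t + 2) := by
      have : 1 ≤ 2 ^ t := Nat.one_le_two_pow
      rw [hn, pow_add]
      omega
    calc N ≤ 2 ^ c * 2 ^ (t + 2) := by rw [hN]; exact Nat.mul_le_mul h8 h9
      _ = 2 ^ (c + t + 2) := by rw [← pow_add]; congr 1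
  have h8 : l ≤ c + t + 2 := by
    rw [← hl]
    calc Nat.log 2 N ≤ Nat.log 2 (2 ^ (c + t + 2)) := Nat.log_mono_right h7
      _ = c + t + 2 := Nat.log_pow (by norm_num) _
  have h9 : l + 2 ≤ 2 * t := by omega
  have h10 : (l + 2) ^ 2 ≤ (2 * t) ^ 2 := Nat.pow_le_pow_left h9 2
  have h11 := pow_big t (by omega)
  have h12 : 9 * (l + 2) ^ 2 ≤ 36 * t ^ 2 := by
    calc 9 * (l + 2) ^ 2 ≤ 9 * (2 * t) ^ 2 := Nat.mul_le_mul (le_refl _) h10
      _ = 36 * t ^ 2 := by ring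
  omega

end Pool.Agent.Helper178.Qrt
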