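import Pool.Agent.Helper178.QrtLang
import Pool.Agent.Helper178.Gen

set_option linter.unusedVariables false

namespace Pool.Agent.Helper178.Trans

variable {X Y : Type}

/-- Paths in a graph whose edges are relations. -/
inductive GP {S : Type} (E : S → S → List X → List Y → Prop) : S → S → List X → List Y → Prop
  | nil (s : S) : GP E s s [] []
  | cons {s t r : S} {u u' : List X} {v v' : List Y} : E s t u v → GP E t r u' v' →
      GP E s r (u ++ u') (v ++ v')

/-- The transducer of a graph of transducers. -/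
def Tr.graph {S : Type} [Finite S] (M : S × S → Tr X Y) : Tr X Y where
  Q := S ⊕ (Σ p : S × S, (M p).Q)
  fin := by
    have := fun i => (M i).fin
    infer_instance
  step a i o b :=
    (∃ p x y, a = .inr ⟨p, x⟩ ∧ b = .inr ⟨p, y⟩ ∧ (M p).step x i o y) ∨
    (∃ p x, a = .inl p.1 ∧ b = .inr ⟨p, x⟩ ∧ i = none ∧ o = none ∧ (M p).start x) ∨
    (∃ p x, a = .inr ⟨p, x⟩ ∧ b = .inl p.2 ∧ i = none ∧ o = none ∧ (M p).acc x)
  start a := False
  acc a := False

theorem Tr.graph_sound {S : Type} [Finite S] (M : S × S → Tr X Y) {a b : (Tr.graph M).Q}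
    {u : List X} {v : List Y} (h : (Tr.graph M).Path a u v b) : ∀ t : S, b = .inl t →
      (∀ s, a = .inl s → GP (fun s t => (M (s, t)).Rel) s t u v) ∧
      (∀ p x, a = .inr ⟨p, x⟩ → ∃ u1 u2 v1 v2 y, u = u1 ++ u2 ∧ v = v1 ++ v2 ∧
        (M p).Path x u1 v1 y ∧ (M p).acc y ∧ GP (fun s t => (M (s, t)).Rel) p.2 t u2 v2) := by
  induction h with
  | nil a =>
    rintro t rfl
    refine ⟨?_, fun p x hp => by cases hp⟩
    intro s hs
    cases hs
    exact .nil _
  | @cons a c b i o u v hs hp ih =>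
    intro t ht
    obtain ⟨ih1, ih2⟩ := ih t ht
    rcases hs with ⟨p, x, y, rfl, rfl, hs⟩ | ⟨p, x, rfl, rfl, rfl, rfl, hs⟩ |
      ⟨p, x, rfl, rfl, rfl, rfl, hs⟩
    · refine ⟨fun s h => (by cases h), ?_⟩
      intro p' x' h
      cases h
      obtain ⟨u1, u2, v1, v2, z, rfl, rfl, h1, h2, h3⟩ := ih2 p y rfl
      exact ⟨i.toList ++ u1, u2, o.toList ++ v1, v2, z, by simp, by simp, .cons hs h1, h2, h3⟩
    · refine ⟨?_, fun p' x' h => by cases h⟩
      intro s h
      cases h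
      obtain ⟨u1, u2, v1, v2, z, rfl, rfl, h1, h2, h3⟩ := ih2 p x rfl
      have h4 : (M p).Rel u1 v1 := ⟨x, z, hs, h2, h1⟩
      simpa using GP.cons (E := fun s t => (M (s, t)).Rel) (s := p.1) (t := p.2) h4 h3
    · refine ⟨fun s h => (by cases h), ?_⟩
      intro p' x' h
      cases h
      exact ⟨[], u, [], v, x, by simp, by simp, .nil _, hs, ih1 _ rfl⟩

theorem Tr.graph_inr {S : Type} [Finite S] (M : S × S → Tr X Y) (p : S × S) {x y : (M p).Q}
    {u : List X} {v : List Y} (h : (M p).Path x u v y) :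
    (Tr.graph M).Path (.inr ⟨p, x⟩) u v (.inr ⟨p, y⟩) := by
  induction h with
  | nil q => exact .nil _
  | @cons x z y i o u v hs hp ih =>
    have : (Tr.graph M).step (.inr ⟨p, x⟩) i o (.inr ⟨p, z⟩) := Or.inl ⟨p, x, z, rfl, rfl, hs⟩
    exact .cons this ih

theorem Tr.graph_complete {S : Type} [Finite S] (M : S × S → Tr X Y) {s t : S} {u : List X}
    {v : List Y} (h : GP (fun s t => (M (s, t)).Rel) s t u v) :
    (Tr.graph M).Path (.inl s) u v (.inl t) := by
  induction h with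
  | nil s => exact .nil _
  | @cons s t r u u' v v' hr hs ih =>
    obtain ⟨p, q, hp, hq, h⟩ := hr
    have h1 : (Tr.graph M).step (.inl s) none none (.inr ⟨(s, t), p⟩) :=
      Or.inr (Or.inl ⟨(s, t), p, rfl, rfl, rfl, rfl, hp⟩)
    have h2 : (Tr.graph M).step (.inr ⟨(s, t), q⟩) none none (.inl t) :=
      Or.inr (Or.inr ⟨(s, t), q, rfl, rfl, rfl, rfl, hq⟩)
    have h3 := (Path.single h1).append ((Tr.graph_inr M (s, t) h).append
      ((Path.single h2).append ih))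
    simpa using h3

theorem GP.mono {S : Type} {E E' : S → S → List X → List Y → Prop}
    (h : ∀ s t u v, E s t u v → E' s t u v) {s t : S} {u : List X} {v : List Y}
    (hr : GP E s t u v) : GP E' s t u v := by
  induction hr with
  | nil s => exact .nil s
  | cons h1 _ ih => exact .cons (h _ _ _ _ h1) ih

theorem Rat.graph {S : Type} [Finite S] {E : S → S → List X → List Y → Prop}
    (hE : ∀ s t, Rat (E s t)) (s t : S) : Rat (GP E s t) := by
  choose M hM using hE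
  let M' : S × S → Tr X Y := fun p => M p.1 p.2
  let N : Tr X Y :=
    { Q := (Tr.graph M').Q
      fin := (Tr.graph M').fin
      step := (Tr.graph M').step
      start := fun a => a = .inl s
      acc := fun a => a = .inl t }
  have h1 : ∀ (a b : N.Q) u v, N.Path a u v b → (Tr.graph M').Path a u v b := by
    intro a b u v h
    induction h with
    | nil a => exact Tr.Path.nil (M := Tr.graph M') a
    | cons hs _ ih => exact Tr.Path.cons (M := Tr.graph M') hs ih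
  have h2 : ∀ (a b : (Tr.graph M').Q) u v, (Tr.graph M').Path a u v b → N.Path a u v b := by
    intro a b u v h
    induction h with
    | nil a => exact Tr.Path.nil (M := N) a
    | cons hs _ ih => exact Tr.Path.cons (M := N) hs ih
  refine ⟨N, fun u v => ?_⟩
  constructor
  · intro h
    exact ⟨.inl s, .inl t, rfl, rfl, h2 _ _ _ _ (Tr.graph_complete M'
      (h.mono fun s t u v => (hM s t u v).mp))⟩
  · rintro ⟨a, b, ha, hb, h⟩
    have ha' : a = .inl s := ha
    have hb' : b = .inl t := hb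
    subst ha' hb'
    exact (((Tr.graph_sound M' (h1 _ _ _ _ h)) t rfl).1 s rfl).mono
      fun s t u v => (hM s t u v).mpr

theorem Rat.false : Rat (fun (_ : List X) (_ : List Y) => False) :=
  ⟨{ Q := Unit, fin := inferInstance, step := fun _ _ _ _ => False, start := fun _ => False,
     acc := fun _ => False }, fun u v => by
    constructor
    · exact False.elim
    · rintro ⟨_, _, h, _⟩
      exact h⟩

theorem Rat.and {P : Prop} {r : List X → List Y → Prop} (hr : Rat r) :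
    Rat (fun u v => P ∧ r u v) := by
  by_cases h : P
  · exact hr.congr (by simp [h])
  · exact Rat.false.congr (by simp [h])

end Pool.Agent.Helper178.Trans

namespace Pool.Agent.Helper178.Qrt

open Pool.Agent.Helper178.Trans (Tr Rat cat pr rat_cat rat_pr Star GP)

/-! ### balanced lists -/

/-- Balanced lists. -/
inductive Bal : List Tk → Prop
  | nil : Bal []
  | tok (s : Tk) (t : List Tk) : NB s → Bal t → Bal (s :: t)
  | blk (e e' : ℕ) (t g : List Tk) : Bal t → Bal g → Bal ((Kn.b, e) :: (t ++ (Kn.d, e') :: g))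

/-- Sequences of blocks. -/
inductive TF : List Tk → Prop
  | nil : TF []
  | blk (e e' : ℕ) (t g : List Tk) : Bal t → TF g → TF ((Kn.b, e) :: (t ++ (Kn.d, e') :: g))

theorem TF.bal {g : List Tk} (h : TF g) : Bal g := by
  induction h with
  | nil => exact .nil
  | blk e e' t g ht _ ih => exact .blk e e' t g ht ih

theorem Bal.append {s t : List Tk} (h : Bal s) (h' : Bal t) : Bal (s ++ t) := by
  induction h with
  | nil => exact h'
  | tok a s ha _ ih => exact .tok a _ ha ih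
  | blk e e' u g hu _ _ ih =>
    have := Bal.blk e e' u _ hu ih
    simpa using this

theorem Bal.uniq {t : List Tk} (h : Bal t) : ∀ {t' : List Tk} {e e' : ℕ} {X X' : List Tk},
    Bal t' → t ++ (Kn.d, e) :: X = t' ++ (Kn.d, e') :: X' → t = t' ∧ e = e' ∧ X = X' := by
  induction h with
  | nil =>
    intro t' e e' X X' ht' hX
    cases ht' with
    | nil => simpa using hX
    | tok s t hs _ =>
      simp only [List.nil_append, List.cons_append, List.cons.injEq] at hX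
      exact absurd (by rw [← hX.1]) hs.2
    | blk e1 e2 t g _ _ => simp at hX
  | tok s t hs _ ih =>
    intro t' e e' X X' ht' hX
    cases ht' with
    | nil =>
      simp only [List.nil_append, List.cons_append, List.cons.injEq] at hX
      exact absurd (by rw [hX.1]) hs.2
    | tok s' t' hs' ht' =>
      simp only [List.cons_append, List.cons.injEq] at hX
      obtain ⟨h2, h3⟩ := ih ht' hX.2
      exact ⟨by rw [hX.1, h2], h3⟩
    | blk e1 e2 t g _ _ =>
      simp only [List.cons_append, List.cons.injEq] at hX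
      exact absurd (by rw [hX.1]) hs.1
  | blk e1 e1' t1 g1 _ _ ih1 ih2 =>
    intro t' e e' X X' ht' hX
    cases ht' with
    | nil => simp at hX
    | tok s' t' hs' ht' =>
      simp only [List.cons_append, List.cons.injEq] at hX
      exact absurd (by rw [← hX.1]) hs'.1
    | blk e2 e2' t2 g2 h2 h2' =>
      simp only [List.cons_append, List.append_assoc, List.cons.injEq, Prod.mk.injEq,
        true_and] at hX
      obtain ⟨h4, h5⟩ := hX
      obtain ⟨h6, h7, h8⟩ := ih1 h2 h5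
      obtain ⟨h9, h10, h11⟩ := ih2 h2' h8
      exact ⟨by rw [h4, h6, h7, h9], h10, h11⟩

/-- Lists which do not start with an opening bracket. -/
def Nb (X : List Tk) : Prop := ∀ e Z, X ≠ (Kn.b, e) :: Z

theorem TF.uniq {g : List Tk} (h : TF g) : ∀ {g' X X' : List Tk}, TF g' → Nb X → Nb X' →
    g ++ X = g' ++ X' → g = g' ∧ X = X' := by
  induction h with
  | nil =>
    intro g' X X' hg' hX hX' he
    cases hg' with
    | nil => exact ⟨rfl, he⟩
    | blk e e' t g _ _ => exact absurd he (hX _ _)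
  | blk e1 e1' t1 g1 h1 _ ih =>
    intro g' X X' hg' hX hX' he
    cases hg' with
    | nil => exact absurd he.symm (hX' _ _)
    | blk e2 e2' t2 g2 h2 h2' =>
      simp only [List.cons_append, List.append_assoc, List.cons.injEq, Prod.mk.injEq,
        true_and] at he
      obtain ⟨h4, h5⟩ := he
      obtain ⟨h6, h7, h8⟩ := h1.uniq h2 h5
      obtain ⟨h9, h10⟩ := ih h2' hX hX' h8
      exact ⟨by rw [h4, h6, h7, h9], h10⟩

theorem DD_bal {k : Bool} {τ : List Tk} (h : DD k τ) : Bal τ ∧ (k = true → TF τ) := by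
  induction h with
  | nil => exact ⟨.nil, fun _ => .nil⟩
  | cons e t g _ _ ih1 ih2 =>
    exact ⟨.blk _ _ t g ih1.1 ih2.1, fun _ => .blk _ _ t g ih1.1 (ih2.2 rfl)⟩
  | mid => exact ⟨.tok _ _ ⟨by simp, by simp⟩ .nil, by simp⟩
  | step n g₁ t g₂ _ _ _ ih1 ih2 ih3 =>
    refine ⟨?_, by simp⟩
    exact ih1.1.append (.tok _ _ ⟨by simp, by simp⟩ (ih2.1.append
      (.tok _ _ ⟨by simp, by simp⟩ ih3.1)))

theorem DD_append {k : Bool} {g g' : List Tk} (h : DD k g) (h' : DD true g') :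
    k = true → DD true (g ++ g') := by
  induction h with
  | nil => intro _; exact h'
  | cons e t g ht _ _ ih2 =>
    intro _
    have := DD.cons e t _ ht (ih2 rfl)
    simpa using this
  | mid => intro h; cases h
  | step n g₁ t g₂ _ _ _ ih1 ih2 ih3 => intro h; cases h

theorem DD_block {t g : List Tk} {e e' : ℕ} (ht : Bal t)
    (h : DD true ((Kn.b, e) :: (t ++ (Kn.d, e') :: g))) :
    DD false t ∧ DD true g ∧ e = e' ∧ ∃ k, e = k + 1 := by
  generalize hτ : (Kn.b, e) :: (t ++ (Kn.d, e') :: g) = τ at h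
  generalize hk : true = k at h
  cases h with
  | nil => cases hτ
  | cons e0 t0 g0 h1 h2 =>
    simp only [List.cons.injEq, Prod.mk.injEq, true_and] at hτ
    obtain ⟨h3, h4⟩ := hτ
    obtain ⟨h5, h6, h7⟩ := ht.uniq (DD_bal h1).1 h4
    subst h3 h5 h6 h7
    exact ⟨h1, h2, rfl, _, rfl⟩
  | mid => cases hk
  | step n g₁ t g₂ _ _ _ => cases hk

theorem DD_split {g : List Tk} (h : TF g) : ∀ {g' : List Tk}, DD true (g ++ g') →
    DD true g ∧ DD true g' := by
  induction h with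
  | nil => intro g' h; exact ⟨.nil, h⟩
  | blk e e' t g ht _ ih =>
    intro g' h
    have h' : DD true ((Kn.b, e) :: (t ++ (Kn.d, e') :: (g ++ g'))) := by simpa using h
    obtain ⟨h1, h2, rfl, k, rfl⟩ := DD_block ht h'
    obtain ⟨h3, h4⟩ := ih h2
    exact ⟨.cons k t g h1 h3, h4⟩

/-! ### consistent lists -/

/-- Lists whose levels are consistent. -/
inductive Cs : Bool → ℕ → List Tk → Prop
  | nil (j : ℕ) : Cs true j []
  | blk (j : ℕ) (t g : List Tk) : Cs false j t → Cs true j g →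
      Cs true j ((Kn.b, 2 ^ j) :: (t ++ (Kn.d, 2 ^ j) :: g))
  | cnil (j : ℕ) : Cs false j []
  | ctok (j : ℕ) (s : Tk) (t : List Tk) : NB s → Cs false j t → Cs false j (s :: t)
  | csub (j : ℕ) (g t : List Tk) : Cs true (j + 1) g → Cs false j t → Cs false j (g ++ t)

theorem Cs_bal {k : Bool} {j : ℕ} {τ : List Tk} (h : Cs k j τ) : Bal τ ∧ (k = true → TF τ) := by
  induction h with
  | nil j => exact ⟨.nil, fun _ => .nil⟩
  | blk j t g _ _ ih1 ih2 =>
    exact ⟨.blk _ _ t g ih1.1 ih2.1, fun _ => .blk _ _ t g ih1.1 (ih2.2 rfl)⟩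
  | cnil j => exact ⟨.nil, by simp⟩
  | ctok j s t hs _ ih => exact ⟨.tok s t hs ih.1, by simp⟩
  | csub j g t _ _ ih1 ih2 => exact ⟨ih1.1.append ih2.1, by simp⟩

theorem Cs_append {k : Bool} {j : ℕ} {s t : List Tk} (h : Cs k j s) (h' : Cs k j t) :
    Cs k j (s ++ t) := by
  induction h with
  | nil j => exact h'
  | blk j u g hu _ _ ih =>
    have := Cs.blk j u _ hu (ih h')
    simpa using this
  | cnil j => exact h'
  | ctok j s u hs _ ih => exact .ctok j s _ hs (ih h')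
  | csub j g u hg _ _ ih =>
    rw [List.append_assoc]
    exact .csub j g _ hg (ih h')

/-- The floor after a list. -/
def flo : ℕ → List Tk → ℕ
  | F, [] => F
  | _, (Kn.b, e) :: τ => flo (2 * e) τ
  | _, (Kn.d, e) :: τ => flo e τ
  | F, (Kn.o, _) :: τ => flo F τ
  | F, (Kn.c, _) :: τ => flo F τ
  | F, (Kn.m, _) :: τ => flo F τ

/-- Lists without violation. -/
def Safe : ℕ → List Tk → Prop
  | _, [] => True
  | F, (Kn.b, e) :: τ => F ≤ e ∧ Safe (2 * e) τ
  | _, (Kn.d, e) :: τ => Safe e τ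
  | F, (Kn.o, _) :: τ => Safe F τ
  | F, (Kn.c, _) :: τ => Safe F τ
  | F, (Kn.m, _) :: τ => Safe F τ

theorem flo_append (τ : List Tk) : ∀ (F : ℕ) (τ' : List Tk), flo F (τ ++ τ') = flo (flo F τ) τ' := by
  induction τ with
  | nil => intro F τ'; rfl
  | cons s τ ih =>
    intro F τ'
    obtain ⟨k, e⟩ := s
    cases k <;> exact ih _ _

theorem Safe_append (τ : List Tk) : ∀ (F : ℕ) (τ' : List Tk), Safe F (τ ++ τ') ↔
    Safe F τ ∧ Safe (flo F τ) τ' := by
  induction τ with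
  | nil => intro F τ'; exact ⟨fun h => ⟨trivial, h⟩, fun h => h.2⟩
  | cons s τ ih =>
    intro F τ'
    obtain ⟨k, e⟩ := s
    cases k
    · show (F ≤ e ∧ Safe (2 * e) (τ ++ τ')) ↔ (F ≤ e ∧ Safe (2 * e) τ) ∧ Safe (flo (2 * e) τ) τ'
      rw [ih, and_assoc]
    · exact ih _ _
    · exact ih _ _
    · exact ih _ _
    · exact ih _ _

theorem flo_NB (F : ℕ) (τ : List Tk) (h : ∀ s ∈ τ, NB s) : flo F τ = F := by
  induction τ with
  | nil => rfl
  | cons s τ ih =>
    have h1 := h s (by simp)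
    have h2 := ih fun s hs => h s (by simp [hs])
    obtain ⟨k, e⟩ := s
    cases k
    · exact absurd rfl h1.1
    · exact absurd rfl h1.2
    · exact h2
    · exact h2
    · exact h2

theorem flo_cons_NB (F : ℕ) (s : Tk) (τ : List Tk) (h : NB s) : flo F (s :: τ) = flo F τ := by
  obtain ⟨k, e⟩ := s
  cases k
  · exact absurd rfl h.1
  · exact absurd rfl h.2
  · rfl
  · rfl
  · rfl

theorem Safe_cons_NB (F : ℕ) (s : Tk) (τ : List Tk) (h : NB s) : Safe F (s :: τ) ↔ Safe F τ := by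
  obtain ⟨k, e⟩ := s
  cases k
  · exact absurd rfl h.1
  · exact absurd rfl h.2
  · exact Iff.rfl
  · exact Iff.rfl
  · exact Iff.rfl

theorem not_Safe_of_Viol {τ : List Tk} (h : Viol τ) (F : ℕ) : ¬ Safe F τ := by
  obtain ⟨τ₁, e₁, σ, e₂, τ₂, hσ, h⟩ := h
  intro hs
  rcases h with ⟨rfl, h⟩ | ⟨rfl, h⟩
  · rw [Safe_append] at hs
    have h1 : Safe (2 * e₁) (σ ++ (Kn.b, e₂) :: τ₂) := hs.2.2
    rw [Safe_append, flo_NB _ _ hσ] at h1
    have h2 : 2 * e₁ ≤ e₂ := h1.2.1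
    omega
  · rw [Safe_append] at hs
    have h1 : Safe e₁ (σ ++ (Kn.b, e₂) :: τ₂) := hs.2
    rw [Safe_append, flo_NB _ _ hσ] at h1
    have h2 : e₁ ≤ e₂ := h1.2.1
    omega

theorem Cs_safe {k : Bool} {j : ℕ} {τ : List Tk} (h : Cs k j τ) :
    (k = true → ∀ F ≤ 2 ^ j, Safe F τ ∧ flo F τ ≤ 2 ^ j) ∧
    (k = false → ∀ F ≤ 2 ^ (j + 1), Safe F τ ∧ flo F τ ≤ 2 ^ (j + 1)) := by
  induction h with
  | nil j => exact ⟨fun _ F hF => ⟨trivial, hF⟩, by simp⟩
  | blk j t g _ _ ih1 ih2 =>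
    refine ⟨fun _ F hF => ?_, by simp⟩
    have h1 := ih1.2 rfl (2 * 2 ^ j) (by rw [pow_succ]; omega)
    have h2 := ih2.1 rfl (2 ^ j) (le_refl _)
    constructor
    · show F ≤ 2 ^ j ∧ Safe (2 * 2 ^ j) (t ++ (Kn.d, 2 ^ j) :: g)
      refine ⟨hF, ?_⟩
      rw [Safe_append]
      exact ⟨h1.1, h2.1⟩
    · show flo (2 * 2 ^ j) (t ++ (Kn.d, 2 ^ j) :: g) ≤ _
      rw [flo_append]
      exact h2.2
  | cnil j => exact ⟨by simp, fun _ F hF => ⟨trivial, hF⟩⟩
  | ctok j s t hs _ ih =>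
    refine ⟨by simp, fun _ F hF => ?_⟩
    rw [Safe_cons_NB _ _ _ hs, flo_cons_NB _ _ _ hs]
    exact ih.2 rfl F hF
  | csub j g t _ _ ih1 ih2 =>
    refine ⟨by simp, fun _ F hF => ?_⟩
    have h1 := ih1.1 rfl F hF
    have h2 := ih2.2 rfl _ h1.2
    rw [Safe_append, flo_append]
    exact ⟨⟨h1.1, h2.1⟩, h2.2⟩

theorem Cs_noViol {τ : List Tk} (h : Cs true 0 τ) : ¬ Viol τ := fun hV =>
  not_Safe_of_Viol hV 0 ((Cs_safe h).1 rfl 0 (by simp)).1

/-! ### good relations -/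

variable {Y : Type}

/-- Good relations for a language. -/
def Gd (j : ℕ) (K : Language Y) (ρ : List Sg → List Y → Prop) : Prop :=
  Rat ρ ∧ (∀ u v, ρ u v → ∃ τ, Cs true j τ ∧ u = code τ) ∧
  ∀ v, v ∈ K ↔ ∃ τ, DD true τ ∧ ρ (code τ) v

theorem Gd.cs {j : ℕ} {K : Language Y} {ρ : List Sg → List Y → Prop} (h : Gd j K ρ)
    {τ : List Tk} {v : List Y} (hρ : ρ (code τ) v) : Cs true j τ := by
  obtain ⟨τ', h1, h2⟩ := h.2.1 _ _ hρ
  rw [code_injective h2]
  exact h1

theorem Gd_word (j : ℕ) (w : List Y) : Gd j {w} (pr [] w) := by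
  refine ⟨rat_pr _ _, ?_, ?_⟩
  · rintro u v ⟨rfl, rfl⟩
    exact ⟨[], .nil _, rfl⟩
  · intro v
    constructor
    · intro h
      exact ⟨[], .nil, rfl, h⟩
    · rintro ⟨τ, _, _, h⟩
      exact h

theorem Gd.mul {j : ℕ} {K K' : Language Y} {ρ ρ' : List Sg → List Y → Prop} (h : Gd j K ρ)
    (h' : Gd j K' ρ') : Gd j (K * K') (cat ρ ρ') := by
  refine ⟨rat_cat h.1 h'.1, ?_, ?_⟩
  · rintro u v ⟨u1, u2, v1, v2, rfl, rfl, h1, h2⟩
    obtain ⟨τ1, k1, rfl⟩ := h.2.1 _ _ h1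
    obtain ⟨τ2, k2, rfl⟩ := h'.2.1 _ _ h2
    exact ⟨τ1 ++ τ2, Cs_append k1 k2, (code_append _ _).symm⟩
  · intro v
    rw [Language.mem_mul]
    constructor
    · rintro ⟨v1, hv1, v2, hv2, rfl⟩
      obtain ⟨τ1, k1, l1⟩ := (h.2.2 v1).mp hv1
      obtain ⟨τ2, k2, l2⟩ := (h'.2.2 v2).mp hv2
      exact ⟨τ1 ++ τ2, DD_append k1 k2 rfl, code τ1, code τ2, v1, v2, code_append _ _, rfl, l1, l2⟩
    · rintro ⟨τ, hτ, u1, u2, v1, v2, hu, rfl, h1, h2⟩
      obtain ⟨τ1, k1, rfl⟩ := h.2.1 _ _ h1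
      obtain ⟨τ2, k2, rfl⟩ := h'.2.1 _ _ h2
      rw [← code_append] at hu
      have := code_injective hu
      subst this
      obtain ⟨l1, l2⟩ := DD_split ((Cs_bal k1).2 rfl) hτ
      exact ⟨v1, (h.2.2 v1).mpr ⟨τ1, l1, h1⟩, v2, (h'.2.2 v2).mpr ⟨τ2, l2, h2⟩, rfl⟩

/-- Good languages. -/
def Glg (j : ℕ) (K : Language Y) : Prop := ∃ ρ, Gd j K ρ

theorem Glg_prod {X : Type} (j : ℕ) (s : X → Language Y) (hs : ∀ x, Glg j (s x)) (x : List X) :
    Glg j (x.map s).prod := by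
  induction x with
  | nil =>
    exact ⟨_, Gd_word j []⟩
  | cons a x ih =>
    obtain ⟨ρ, h⟩ := hs a
    obtain ⟨ρ', h'⟩ := ih
    rw [List.map_cons, List.prod_cons]
    exact ⟨_, h.mul h'⟩

/-! ### linear systems -/

section

variable {ι N : Type} (inp : ι → N) (nx : ι → Option N) (Kl Kr : ι → Language Y)

/-- The language of a linear system. -/
inductive J : Option N → List Y → Prop
  | nil : J none []
  | rule (i : ι) (v1 v v2 : List Y) : v1 ∈ Kl i → J (nx i) v → v2 ∈ Kr i →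
      J (some (inp i)) (v1 ++ (v ++ v2))

variable (f : ι → ℕ) (ρl ρr : ι → List Sg → List Y → Prop)

/-- Left paths. -/
inductive LP : Option N → List Tk → List Y → Prop
  | nil : LP none [] []
  | cons (i : ι) (g τ : List Tk) (v1 v : List Y) : ρl i (code g) v1 → LP (nx i) τ v →
      LP (some (inp i)) (g ++ (Kn.o, f i) :: τ) (v1 ++ v)

/-- Right sequences. -/
inductive RP : List Tk → List Y → Prop
  | nil : RP [] []
  | cons (i : ι) (g τ : List Tk) (v1 v : List Y) : ρr i (code g) v1 → RP τ v →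
      RP ((Kn.c, f i) :: (g ++ τ)) (v1 ++ v)

variable {inp nx Kl Kr f ρl ρr}

theorem RP.append {τ τ' : List Tk} {v v' : List Y} (h : RP f ρr τ v) (h' : RP f ρr τ' v') :
    RP f ρr (τ ++ τ') (v ++ v') := by
  induction h with
  | nil => exact h'
  | cons i g τ v1 v h1 _ ih =>
    have := RP.cons i g _ v1 _ h1 ih
    simpa using this

theorem RP.Nb {τ : List Tk} {v : List Y} (h : RP f ρr τ v) : Nb τ := by
  cases h with
  | nil => intro e Z h; cases h
  | cons i g τ v1 v h1 _ => intro e Z h; simp at h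

theorem LP_cs {j : ℕ} (hl : ∀ i, Gd (j + 1) (Kl i) (ρl i)) {A : Option N} {τ : List Tk}
    {v : List Y} (h : LP inp nx f ρl A τ v) : Cs false j τ := by
  induction h with
  | nil => exact .cnil _
  | cons i g τ v1 v h1 _ ih =>
    exact .csub j g _ ((hl i).cs h1) (.ctok j _ _ ⟨by simp, by simp⟩ ih)

theorem RP_cs {j : ℕ} (hr : ∀ i, Gd (j + 1) (Kr i) (ρr i)) {τ : List Tk}
    {v : List Y} (h : RP f ρr τ v) : Cs false j τ := by
  induction h with
  | nil => exact .cnil _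
  | cons i g τ v1 v h1 _ ih =>
    exact .ctok j _ _ ⟨by simp, by simp⟩ (.csub j g _ ((hr i).cs h1) ih)

theorem J_exists {j : ℕ} (hl : ∀ i, Gd (j + 1) (Kl i) (ρl i))
    (hr : ∀ i, Gd (j + 1) (Kr i) (ρr i)) {A : Option N} {v : List Y} (h : J inp nx Kl Kr A v) :
    ∃ Lt vL Rt vR, LP inp nx f ρl A Lt vL ∧ RP f ρr Rt vR ∧ v = vL ++ vR ∧
      DD false (Lt ++ (Kn.m, 0) :: Rt) := by
  induction h with
  | nil => exact ⟨[], [], [], [], .nil, .nil, rfl, .mid⟩
  | rule i v1 v v2 h1 _ h2 ih =>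
    obtain ⟨Lt, vL, Rt, vR, k1, k2, rfl, k3⟩ := ih
    obtain ⟨τ1, d1, l1⟩ := ((hl i).2.2 v1).mp h1
    obtain ⟨τ2, d2, l2⟩ := ((hr i).2.2 v2).mp h2
    refine ⟨_, _, Rt ++ (Kn.c, f i) :: τ2, vR ++ v2, .cons i τ1 Lt v1 vL l1 k1, ?_, by simp, ?_⟩
    · have := k2.append (RP.cons i τ2 [] v2 [] l2 .nil)
      simpa using this
    · have := DD.step (f i) τ1 _ τ2 d1 k3 d2
      simpa using this

theorem J_of_DD {j : ℕ} (hf : Function.Injective f) (hl : ∀ i, Gd (j + 1) (Kl i) (ρl i))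
    (hr : ∀ i, Gd (j + 1) (Kr i) (ρr i)) {k : Bool} {t : List Tk} (ht : DD k t) :
    k = false → ∀ (X : List Tk), Nb X → ∀ (A : Option N) (Lt : List Tk) (vL : List Y)
      (Rt : List Tk) (vR : List Y), LP inp nx f ρl A Lt vL → RP f ρr Rt vR →
      t ++ X = Lt ++ (Kn.m, 0) :: Rt →
      ∃ v1 v2, vR = v1 ++ v2 ∧ RP f ρr X v2 ∧ J inp nx Kl Kr A (vL ++ v1) := by
  induction ht with
  | nil => intro h; cases h
  | cons e t g _ _ _ _ => intro h; cases h
  | mid =>
    intro _ X hX A Lt vL Rt vR hL hR he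
    cases hL with
    | nil =>
      simp only [List.cons_append, List.nil_append, List.cons.injEq, true_and] at he
      subst he
      exact ⟨[], vR, rfl, hR, .nil⟩
    | cons i g τ v1 v h1 h2 =>
      exfalso
      have hg := (Cs_bal ((hl i).cs h1)).2 rfl
      have := (TF.nil.uniq (X := (Kn.m, 0) :: X) hg (by intro e Z h; simp at h)
        (X' := (Kn.o, f i) :: (τ ++ (Kn.m, 0) :: Rt)) (by intro e Z h; simp at h)
        (by simpa using he)).2
      simp at this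
  | step n g₁ t g₂ hg₁ ht hg₂ _ iht _ =>
    intro _ X hX A Lt vL Rt vR hL hR he
    cases hL with
    | nil =>
      exfalso
      have := (((DD_bal hg₁).2 rfl).uniq TF.nil
        (X := (Kn.o, n) :: (t ++ (Kn.c, n) :: (g₂ ++ X))) (by intro e Z h; simp at h)
        (X' := (Kn.m, 0) :: Rt) (by intro e Z h; simp at h) (by simpa using he)).2
      simp at this
    | cons i g τ v1 v h1 h2 =>
      have hg := (Cs_bal ((hl i).cs h1)).2 rfl
      obtain ⟨e1, e2⟩ := (((DD_bal hg₁).2 rfl).uniq hg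
        (X := (Kn.o, n) :: (t ++ (Kn.c, n) :: (g₂ ++ X))) (by intro e Z h; simp at h)
        (X' := (Kn.o, f i) :: (τ ++ (Kn.m, 0) :: Rt)) (by intro e Z h; simp at h)
        (by simpa using he))
      simp only [List.cons.injEq, Prod.mk.injEq, true_and] at e2
      obtain ⟨rfl, e2⟩ := e2
      subst e1
      obtain ⟨w1, w2, rfl, hw2, hJ⟩ := iht rfl ((Kn.c, f i) :: (g₂ ++ X))
        (by intro e Z h; simp at h) (nx i) τ v Rt vR h2 hR e2
      generalize hZ : (Kn.c, f i) :: (g₂ ++ X) = Z at hw2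
      cases hw2 with
      | nil => cases hZ
      | cons i' g' τ' v1' v'' h3 h4 =>
        simp only [List.cons.injEq, Prod.mk.injEq, true_and] at hZ
        obtain ⟨hfi, hZ⟩ := hZ
        have hi := hf hfi
        subst hi
        have hg' := (Cs_bal ((hr i).cs h3)).2 rfl
        obtain ⟨e3, e4⟩ := ((DD_bal hg₂).2 rfl).uniq hg' hX h4.Nb hZ
        subst e3 e4
        refine ⟨w1 ++ v1', v'', by simp, h4, ?_⟩
        have := J.rule (inp := inp) (nx := nx) (Kl := Kl) (Kr := Kr) i v1 _ v1'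
          (((hl i).2.2 v1).mpr ⟨_, hg₁, h1⟩) hJ (((hr i).2.2 v1').mpr ⟨_, hg₂, h3⟩)
        simpa using this

/-! ### rationality of the relation of a linear system -/

/-- Edges of the graph of left paths. -/
def Ed (inp : ι → N) (nx : ι → Option N) (f : ι → ℕ) (ρl : ι → List Sg → List Y → Prop)
    (s t : Option ι) (u : List Sg) (v : List Y) : Prop :=
  ∃ i, (s = some i ∧ ((t = none ∧ nx i = none) ∨ ∃ i', t = some i' ∧ nx i = some (inp i'))) ∧
    cat (ρl i) (pr (tok (Kn.o, f i)) []) u v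

theorem GP_of_LP {A : Option N} {τ : List Tk} {v : List Y} (h : LP inp nx f ρl A τ v) :
    (A = none → τ = [] ∧ v = []) ∧
    (∀ B, A = some B → ∃ i, inp i = B ∧ GP (Ed inp nx f ρl) (some i) none (code τ) v) := by
  induction h with
  | nil => exact ⟨fun _ => ⟨rfl, rfl⟩, by simp⟩
  | cons i g τ v1 v h1 h2 ih =>
    refine ⟨by simp, ?_⟩
    intro B hB
    rw [Option.some.injEq] at hB
    refine ⟨i, hB, ?_⟩
    have hc : cat (ρl i) (pr (tok (Kn.o, f i)) []) (code g ++ tok (Kn.o, f i)) v1 :=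
      ⟨_, _, v1, [], rfl, by simp, h1, rfl, rfl⟩
    have hcode : code (g ++ (Kn.o, f i) :: τ) = (code g ++ tok (Kn.o, f i)) ++ code τ := by
      rw [code_append, code_cons, List.append_assoc]
    rw [hcode]
    cases hn : nx i with
    | none =>
      obtain ⟨rfl, rfl⟩ := ih.1 hn
      exact .cons (E := Ed inp nx f ρl) (t := none) ⟨i, ⟨rfl, Or.inl ⟨rfl, hn⟩⟩, hc⟩ (.nil _)
    | some B' =>
      obtain ⟨i', hi', h3⟩ := ih.2 B' hn
      exact .cons (E := Ed inp nx f ρl) (t := some i')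
        ⟨i, ⟨rfl, Or.inr ⟨i', rfl, by rw [hn, hi']⟩⟩, hc⟩ h3

theorem LP_of_GP {j : ℕ} (hl : ∀ i, Gd (j + 1) (Kl i) (ρl i)) {s t : Option ι} {u : List Sg}
    {v : List Y} (h : GP (Ed inp nx f ρl) s t u v) (ht : t = none) :
    (s = none → u = [] ∧ v = []) ∧
    (∀ i, s = some i → ∃ τ, u = code τ ∧ LP inp nx f ρl (some (inp i)) τ v) := by
  induction h with
  | nil s => subst ht; exact ⟨fun _ => ⟨rfl, rfl⟩, by simp⟩
  | @cons s t r u u' v v' hE _ ih =>
    obtain ⟨i, ⟨rfl, hst⟩, u1, u2, v1, v2, rfl, rfl, h1, rfl, rfl⟩ := hE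
    obtain ⟨ih1, ih2⟩ := ih ht
    refine ⟨by simp, ?_⟩
    intro i0 hi0
    rw [Option.some.injEq] at hi0
    subst hi0
    obtain ⟨g, hg, rfl⟩ := (hl i).2.1 _ _ h1
    rcases hst with ⟨rfl, hn⟩ | ⟨i', rfl, hn⟩
    · obtain ⟨rfl, rfl⟩ := ih1 rfl
      refine ⟨g ++ [(Kn.o, f i)], ?_, ?_⟩
      · rw [code_append]; simp [code]
      · rw [List.append_assoc]
        refine .cons i g [] v1 _ h1 ?_
        rw [hn]
        exact .nil
    · obtain ⟨τ, rfl, h2⟩ := ih2 i' rfl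
      refine ⟨g ++ (Kn.o, f i) :: τ, ?_, ?_⟩
      · rw [code_append, code_cons, List.append_assoc]
      · rw [List.append_assoc]
        refine .cons i g τ v1 _ h1 ?_
        rw [hn]
        exact h2

theorem rat_LP [Finite ι] {j : ℕ} (hl : ∀ i, Gd (j + 1) (Kl i) (ρl i)) (A : N) :
    Rat (fun u v => ∃ τ, u = code τ ∧ LP inp nx f ρl (some A) τ v) := by
  have hE : ∀ s t : Option ι, Rat (Ed inp nx f ρl s t) := fun s t =>
    Rat.iUnion (r := fun i u v =>
      (s = some i ∧ ((t = none ∧ nx i = none) ∨ ∃ i', t = some i' ∧ nx i = some (inp i'))) ∧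
        cat (ρl i) (pr (tok (Kn.o, f i)) []) u v)
      fun i => (rat_cat (hl i).1 (rat_pr _ _)).and
  have hG : Rat (fun u v => ∃ i : ι, inp i = A ∧ GP (Ed inp nx f ρl) (some i) none u v) :=
    Rat.iUnion (r := fun (i : ι) u v => inp i = A ∧ GP (Ed inp nx f ρl) (some i) none u v)
      fun i => (Rat.graph hE (some i) none).and
  refine hG.congr ?_
  intro u v
  constructor
  · rintro ⟨τ, rfl, h⟩
    exact (GP_of_LP h).2 A rfl
  · rintro ⟨i, rfl, h⟩
    exact (LP_of_GP hl h rfl).2 i rfl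

theorem rat_RP [Finite ι] {j : ℕ} (hr : ∀ i, Gd (j + 1) (Kr i) (ρr i)) :
    Rat (fun u v => ∃ τ, u = code τ ∧ RP f ρr τ v) := by
  have h1 : Rat (fun u v => ∃ i : ι, cat (pr (tok (Kn.c, f i)) []) (ρr i) u v) :=
    Rat.iUnion (r := fun (i : ι) u v => cat (pr (tok (Kn.c, f i)) []) (ρr i) u v)
      fun i => rat_cat (rat_pr _ _) (hr i).1
  refine h1.star.congr ?_
  intro u v
  constructor
  · rintro ⟨τ, rfl, h⟩
    induction h with
    | nil => exact .nil
    | cons i g τ v1 v h1 _ ih =>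
      rw [code_cons, code_append, ← List.append_assoc]
      refine .cons ⟨i, _, _, [], v1, rfl, by simp, ⟨rfl, rfl⟩, h1⟩ ih
  · intro h
    induction h with
    | nil => exact ⟨[], rfl, .nil⟩
    | cons h1 _ ih =>
      obtain ⟨i, u1, u2, v1, v2, rfl, rfl, ⟨rfl, rfl⟩, h2⟩ := h1
      obtain ⟨τ, rfl, h3⟩ := ih
      obtain ⟨g, hg, rfl⟩ := (hr i).2.1 _ _ h2
      refine ⟨(Kn.c, f i) :: (g ++ τ), ?_, ?_⟩
      · rw [code_cons, code_append, List.append_assoc]
      · exact .cons i g τ _ _ h2 h3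

theorem Gd_linear [Finite ι] {j : ℕ} (hf : Function.Injective f)
    (hl : ∀ i, Gd (j + 1) (Kl i) (ρl i)) (hr : ∀ i, Gd (j + 1) (Kr i) (ρr i)) (A : N) :
    ∃ ρ, Gd j {v | J inp nx Kl Kr (some A) v} ρ := by
  let PL : List Sg → List Y → Prop := fun u v => ∃ τ, u = code τ ∧ LP inp nx f ρl (some A) τ v
  let PR : List Sg → List Y → Prop := fun u v => ∃ τ, u = code τ ∧ RP f ρr τ v
  let ρ := cat (pr (tok (Kn.b, 2 ^ j)) []) (cat PL (cat (pr (tok (Kn.m, 0)) [])
    (cat PR (pr (tok (Kn.d, 2 ^ j)) []))))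
  have hρ : ∀ u v, ρ u v ↔ ∃ Lt vL Rt vR, LP inp nx f ρl (some A) Lt vL ∧ RP f ρr Rt vR ∧
      u = code ((Kn.b, 2 ^ j) :: ((Lt ++ (Kn.m, 0) :: Rt) ++ (Kn.d, 2 ^ j) :: [])) ∧
      v = vL ++ vR := by
    intro u v
    have hc : ∀ Lt Rt : List Tk,
        code ((Kn.b, 2 ^ j) :: ((Lt ++ (Kn.m, 0) :: Rt) ++ (Kn.d, 2 ^ j) :: [])) =
        tok (Kn.b, 2 ^ j) ++ (code Lt ++ (tok (Kn.m, 0) ++ (code Rt ++ tok (Kn.d, 2 ^ j)))) := by
      intro Lt Rt
      rw [code_cons, code_append, code_append, code_cons, code_cons, code_nil]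
      simp
    constructor
    · rintro ⟨_, _, _, _, rfl, rfl, ⟨rfl, rfl⟩, _, _, _, _, rfl, rfl, ⟨Lt, rfl, h1⟩, _, _, _, _,
        rfl, rfl, ⟨rfl, rfl⟩, _, _, _, _, rfl, rfl, ⟨Rt, rfl, h2⟩, rfl, rfl⟩
      exact ⟨Lt, _, Rt, _, h1, h2, (hc Lt Rt).symm, by simp⟩
    · rintro ⟨Lt, vL, Rt, vR, h1, h2, rfl, rfl⟩
      rw [hc]
      exact ⟨_, _, [], _, rfl, rfl, ⟨rfl, rfl⟩, _, _, vL, vR, rfl, rfl, ⟨Lt, rfl, h1⟩, _, _, [],
        vR, rfl, by simp, ⟨rfl, rfl⟩, _, _, vR, [], rfl, by simp, ⟨Rt, rfl, h2⟩, rfl, rfl⟩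
  refine ⟨ρ, ?_, ?_, ?_⟩
  · exact rat_cat (rat_pr _ _) (rat_cat (rat_LP hl A) (rat_cat (rat_pr _ _)
      (rat_cat (rat_RP hr) (rat_pr _ _))))
  · intro u v h
    obtain ⟨Lt, vL, Rt, vR, h1, h2, rfl, rfl⟩ := (hρ u v).mp h
    refine ⟨_, .blk j _ _ ?_ (.nil _), rfl⟩
    exact Cs_append (LP_cs hl h1) (.ctok j _ _ ⟨by simp, by simp⟩ (RP_cs hr h2))
  · intro v
    constructor
    · intro h
      obtain ⟨Lt, vL, Rt, vR, h1, h2, h3, h4⟩ := J_exists (f := f) hl hr h
      refine ⟨(Kn.b, 2 ^ j) :: ((Lt ++ (Kn.m, 0) :: Rt) ++ (Kn.d, 2 ^ j) :: []), ?_,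
        (hρ _ _).mpr ⟨Lt, vL, Rt, vR, h1, h2, rfl, h3⟩⟩
      obtain ⟨k, hk⟩ : ∃ k, 2 ^ j = k + 1 := ⟨2 ^ j - 1, by have := Nat.one_le_two_pow (n := j); omega⟩
      rw [hk]
      exact .cons k _ [] h4 .nil
    · rintro ⟨τ, hτ, h⟩
      obtain ⟨Lt, vL, Rt, vR, h1, h2, h3, rfl⟩ := (hρ _ _).mp h
      have := code_injective h3
      subst this
      have hb : Bal (Lt ++ (Kn.m, 0) :: Rt) :=
        (Cs_bal (LP_cs hl h1)).1.append (.tok _ _ ⟨by simp, by simp⟩ (Cs_bal (RP_cs hr h2)).1)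
      obtain ⟨h4, -⟩ := DD_block hb hτ
      obtain ⟨v1, v2, rfl, h5, h6⟩ := J_of_DD hf hl hr h4 rfl [] (by intro e Z h; cases h)
        (some A) Lt vL Rt vR h1 h2 (by simp)
      cases h5
      show J inp nx Kl Kr (some A) _
      simpa using h6

end

end Pool.Agent.Helper178.Qrt
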