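import Pool.Agent.Helper178.QrtLang
import Pool.Agent.Helper178.IdxUp

set_option linter.unusedVariables false

namespace Pool.Agent.Helper178.Qrt

open Pool.Agent.Helper178.Idx (Run Run_append Run_rep Run_block Run_block_long Run_pair Ch
  Ch_short Ch_add)

section

variable {σ : Type} {st : σ → Sg → σ → Prop}

theorem Run_code_append {α β : List Tk} {p q : σ} :
    Run st p (code (α ++ β)) q ↔ ∃ r, Run st p (code α) r ∧ Run st r (code β) q := by
  rw [code_append]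
  exact Run_append _ _ _ _

theorem Run_code_cons {s : Tk} {β : List Tk} {p q : σ} :
    Run st p (code (s :: β)) q ↔ ∃ r, Run st p (tok s) r ∧ Run st r (code β) q := by
  rw [code_cons]
  exact Run_append _ _ _ _

theorem Run_code_single {s : Tk} {p q : σ} : Run st p (code [s]) q ↔ Run st p (tok s) q := by
  have : code [s] = tok s := by simp [code]
  rw [this]

theorem code_len_append (α β : List Tk) :
    (code (α ++ β)).length = (code α).length + (code β).length := by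
  rw [code_append, List.length_append]

theorem code_len_cons (k : Kn) (n : ℕ) (β : List Tk) :
    (code ((k, n) :: β)).length = 1 + n + (code β).length := by
  rw [code_cons, List.length_append, tok, List.length_cons, List.length_replicate]
  simp only
  ring

variable [Fintype σ]

theorem tok_short {k : Kn} {n : ℕ} {p q : σ} (h : Run st p (tok (k, n)) q) (K : ℕ) (hK : K ≤ n) :
    ∃ n', K ≤ n' ∧ n' < K + Fintype.card σ ∧ n' ≤ n ∧ Run st p (tok (k, n')) q := by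
  obtain ⟨r, h1, h2⟩ := h
  obtain ⟨n', h3, h4, h5, h6⟩ := Run_block h2 K hK
  exact ⟨n', h3, h4, h5, r, h1, h6⟩

theorem tok_long {k : Kn} {n : ℕ} {p q : σ} (h : Run st p (tok (k, n)) q)
    (hn : Fintype.card σ ≤ n) (K : ℕ) : ∃ n' ≥ K, Run st p (tok (k, n')) q := by
  obtain ⟨r, h1, h2⟩ := h
  obtain ⟨n', h3, h4⟩ := Run_block_long h2 hn K
  exact ⟨n', h3, r, h1, h4⟩

/-- Two tokens with the same count. -/
theorem tok_pair {k k' : Kn} {n : ℕ} {p q p' q' : σ} (h1 : Run st p (tok (k, n)) q)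
    (h2 : Run st p' (tok (k', n)) q') :
    ∃ n', n' < (Fintype.card σ) ^ 2 ∧ Run st p (tok (k, n')) q ∧ Run st p' (tok (k', n')) q' := by
  obtain ⟨r, h1, h3⟩ := h1
  obtain ⟨r', h2, h4⟩ := h2
  have h5 := (Run_pair (st := st) none none n r q q' r').mp ⟨h3, h4⟩
  obtain ⟨n', h6, _, h7⟩ := Ch_short _ h5
  rw [Fintype.card_prod, ← pow_two] at h6
  obtain ⟨h8, h9⟩ := (Run_pair (st := st) none none n' r q q' r').mpr h7
  exact ⟨n', h6, ⟨r, h1, h8⟩, ⟨r', h2, h9⟩⟩

/-- Two tokens with the same positive count. -/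
theorem tok_pair_pos {k k' : Kn} {n : ℕ} {p q p' q' : σ} (h1 : Run st p (tok (k, n + 1)) q)
    (h2 : Run st p' (tok (k', n + 1)) q') :
    ∃ n', n' < (Fintype.card σ) ^ 2 ∧ Run st p (tok (k, n' + 1)) q ∧
      Run st p' (tok (k', n' + 1)) q' := by
  obtain ⟨r, h1, h3⟩ := h1
  obtain ⟨r', h2, h4⟩ := h2
  obtain ⟨n', h6, h8, h9⟩ := Idx.Run_pair_short h3 h4
  exact ⟨n', h6, ⟨r, h1, h8⟩, ⟨r', h2, h9⟩⟩

/-- Short lists of tokens. -/
theorem list_short (P : Kn → Prop) (τ : List Tk) : ∀ {p q : σ}, (∀ s ∈ τ, P s.1) →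
    Run st p (code τ) q → ∃ τ' : List Tk, (∀ s ∈ τ', P s.1) ∧ Run st p (code τ') q ∧
      (code τ').length ≤ (Fintype.card σ) ^ 2 := by
  set N := Fintype.card σ with hN
  intro p q hP hr
  let E : σ → σ → Prop := fun p q => ∃ k n, P k ∧ n < N ∧ Run st p (tok (k, n)) q
  have h1 : ∀ (τ : List Tk) (p q : σ), (∀ s ∈ τ, P s.1) → Run st p (code τ) q →
      ∃ k, Ch E k p q := by
    intro τ
    induction τ with
    | nil => intro p q _ h; exact ⟨0, h⟩
    | cons s τ ih =>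
      intro p q hP h
      obtain ⟨r, h1, h2⟩ := Run_code_cons.mp h
      obtain ⟨k, hk⟩ := ih r q (fun s hs => hP s (by simp [hs])) h2
      obtain ⟨n', _, h3, _, h4⟩ := tok_short (k := s.1) (n := s.2) h1 0 (Nat.zero_le _)
      exact ⟨k + 1, r, ⟨s.1, n', hP s (by simp), by omega, h4⟩, hk⟩
  have h2 : ∀ (k : ℕ) (p q : σ), Ch E k p q → ∃ τ' : List Tk, (∀ s ∈ τ', P s.1) ∧
      Run st p (code τ') q ∧ (code τ').length ≤ k * N := by
    intro k
    induction k with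
    | zero => intro p q h; exact ⟨[], by simp, h, by simp [code]⟩
    | succ k ih =>
      rintro p q ⟨r, ⟨κ, n, hκ, hn, h1⟩, h2⟩
      obtain ⟨τ', h3, h4, h5⟩ := ih r q h2
      refine ⟨(κ, n) :: τ', ?_, Run_code_cons.mpr ⟨r, h1, h4⟩, ?_⟩
      · intro s hs
        rw [List.mem_cons] at hs
        rcases hs with rfl | hs
        · exact hκ
        · exact h3 s hs
      · rw [code_len_cons, add_mul]
        omega
  obtain ⟨k, hk⟩ := h1 τ p q hP hr
  obtain ⟨k', h3, _, h4⟩ := Ch_short _ hk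
  obtain ⟨τ', h5, h6, h7⟩ := h2 k' p q h4
  refine ⟨τ', h5, h6, h7.trans ?_⟩
  rw [pow_two]
  exact Nat.mul_le_mul (by rw [hN]; omega) (le_refl _)

theorem Viol_short {τ : List Tk} {p q : σ} (hτ : Viol τ) (h : Run st p (code τ) q) :
    ∃ τ', Viol τ' ∧ Run st p (code τ') q ∧
      (code τ').length ≤ 3 * (Fintype.card σ) ^ 2 + 3 * Fintype.card σ + 2 := by
  set N := Fintype.card σ with hN
  obtain ⟨τ₁, e₁, s, e₂, τ₂, hs, h2⟩ := hτ
  have key : ∀ k : Kn, Run st p (code (τ₁ ++ (k, e₁) :: (s ++ (Kn.b, e₂) :: τ₂))) q →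
      ∃ τ₁' e₁' s' e₂' τ₂', (∀ t ∈ s', NB t) ∧
        (e₂ < 2 * e₁ → e₂' < 2 * e₁') ∧ (e₂ < e₁ → e₂' < e₁') ∧
        Run st p (code (τ₁' ++ (k, e₁') :: (s' ++ (Kn.b, e₂') :: τ₂'))) q ∧
        (code (τ₁' ++ (k, e₁') :: (s' ++ (Kn.b, e₂') :: τ₂'))).length ≤ 3 * N ^ 2 + 3 * N + 2 := by
    intro k h
    obtain ⟨r1, g1, h⟩ := Run_code_append.mp h
    obtain ⟨r2, g2, h⟩ := Run_code_cons.mp h
    obtain ⟨r3, g3, h⟩ := Run_code_append.mp h
    obtain ⟨r4, g4, g5⟩ := Run_code_cons.mp h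
    obtain ⟨τ₁', _, k1, k1'⟩ := list_short (fun _ => True) τ₁ (fun _ _ => trivial) g1
    obtain ⟨s', hs', k3, k3'⟩ := list_short (fun k => k ≠ Kn.b ∧ k ≠ Kn.d) s hs g3
    obtain ⟨τ₂', _, k5, k5'⟩ := list_short (fun _ => True) τ₂ (fun _ _ => trivial) g5
    obtain ⟨e₂', _, l1, l2, k4⟩ := tok_short g4 0 (Nat.zero_le _)
    have he : ∃ e₁', (e₂ < 2 * e₁ → e₂' < 2 * e₁') ∧ (e₂ < e₁ → e₂' < e₁') ∧ e₁' ≤ 2 * N ∧
        Run st r1 (tok (k, e₁')) r2 := by
      by_cases h1 : e₁ ≤ 2 * N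
      · exact ⟨e₁, by omega, by omega, h1, g2⟩
      · obtain ⟨e₁', m1, m2, _, m3⟩ := tok_short g2 N (by omega)
        exact ⟨e₁', by omega, by omega, by omega, m3⟩
    obtain ⟨e₁', m1, m2, m3, k2⟩ := he
    refine ⟨τ₁', e₁', s', e₂', τ₂', hs', m1, m2, ?_, ?_⟩
    · exact Run_code_append.mpr ⟨r1, k1, Run_code_cons.mpr ⟨r2, k2, Run_code_append.mpr
        ⟨r3, k3, Run_code_cons.mpr ⟨r4, k4, k5⟩⟩⟩⟩
    · rw [code_len_append, code_len_cons, code_len_append, code_len_cons]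
      rw [← hN] at k1' k3' k5'
      omega
  rcases h2 with ⟨rfl, h2⟩ | ⟨rfl, h2⟩
  · obtain ⟨τ₁', e₁', s', e₂', τ₂', hs', m1, m2, m3, m4⟩ := key Kn.b h
    exact ⟨_, ⟨τ₁', e₁', s', e₂', τ₂', hs', Or.inl ⟨rfl, m1 h2⟩⟩, m3, m4⟩
  · obtain ⟨τ₁', e₁', s', e₂', τ₂', hs', m1, m2, m3, m4⟩ := key Kn.d h
    exact ⟨_, ⟨τ₁', e₁', s', e₂', τ₂', hs', Or.inr ⟨rfl, m2 h2⟩⟩, m3, m4⟩

end

/-! ### forests of bounded height -/

/-- Forests and spines of bounded height. -/
inductive DDh : ℕ → Bool → List Tk → Prop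
  | nil (h : ℕ) : DDh h true []
  | cons (h e : ℕ) (t g : List Tk) : DDh h false t → DDh (h + 1) true g →
      DDh (h + 1) true ((Kn.b, e + 1) :: (t ++ (Kn.d, e + 1) :: g))
  | mid (h : ℕ) : DDh h false [(Kn.m, 0)]
  | step (h n : ℕ) (g₁ t g₂ : List Tk) : DDh h true g₁ → DDh h false t → DDh h true g₂ →
      DDh h false (g₁ ++ (Kn.o, n) :: (t ++ (Kn.c, n) :: g₂))

theorem DDh.toDD {h : ℕ} {k : Bool} {τ : List Tk} (hτ : DDh h k τ) : DD k τ := by
  induction hτ with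
  | nil h => exact .nil
  | cons h e t g _ _ ih1 ih2 => exact .cons e t g ih1 ih2
  | mid h => exact .mid
  | step h n g₁ t g₂ _ _ _ ih1 ih2 ih3 => exact .step n g₁ t g₂ ih1 ih2 ih3

/-- Bound on the length of short forests. -/
def BT (N : ℕ) : ℕ → ℕ
  | 0 => 0
  | h + 1 => N * (2 * N ^ 2 + 2 + (N ^ 2 * (2 * BT N h + 2 * N ^ 2 + 2) + 1))

section

variable {σ : Type} {st : σ → Sg → σ → Prop} [Fintype σ]

theorem spine_short {h : ℕ}
    (ih : ∀ (g : List Tk) (p q : σ), DDh h true g → Run st p (code g) q →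
      ∃ g', DDh h true g' ∧ Run st p (code g') q ∧ (code g').length ≤ BT (Fintype.card σ) h) :
    ∀ (t : List Tk) (p q : σ), DDh h false t → Run st p (code t) q →
      ∃ t', DDh h false t' ∧ Run st p (code t') q ∧
        (code t').length ≤ (Fintype.card σ) ^ 2 *
          (2 * BT (Fintype.card σ) h + 2 * (Fintype.card σ) ^ 2 + 2) + 1 := by
  set N := Fintype.card σ with hN
  let E : σ × σ → σ × σ → Prop := fun s s' => ∃ n g₁ g₂, DDh h true g₁ ∧ DDh h true g₂ ∧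
    Run st s.1 (code (g₁ ++ [(Kn.o, n)])) s'.1 ∧ Run st s'.2 (code ((Kn.c, n) :: g₂)) s.2 ∧
    (code (g₁ ++ [(Kn.o, n)])).length + (code ((Kn.c, n) :: g₂)).length ≤
      2 * BT N h + 2 * N ^ 2 + 2
  have h1 : ∀ (k : Bool) (t : List Tk), DDh h k t → k = false → ∀ p q, Run st p (code t) q →
      ∃ m p' q', Ch E m (p, q) (p', q') ∧ Run st p' (code [(Kn.m, 0)]) q' := by
    intro k t ht
    induction ht with
    | nil h => intro hk; cases hk
    | cons h e t g _ _ _ _ => intro hk; cases hk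
    | mid h => intro _ p q hr; exact ⟨0, p, q, rfl, hr⟩
    | step h n g₁ t g₂ hg₁ ht hg₂ _ iht _ =>
      intro _ p q hr
      obtain ⟨r1, k1, hr⟩ := Run_code_append.mp hr
      obtain ⟨r2, k2, hr⟩ := Run_code_cons.mp hr
      obtain ⟨r3, k3, hr⟩ := Run_code_append.mp hr
      obtain ⟨r4, k4, k5⟩ := Run_code_cons.mp hr
      obtain ⟨m, p', q', hm, hm'⟩ := iht ih rfl r2 r3 k3
      obtain ⟨g₁', hg₁', l1, l1'⟩ := ih g₁ p r1 hg₁ k1
      obtain ⟨g₂', hg₂', l2, l2'⟩ := ih g₂ r4 q hg₂ k5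
      obtain ⟨n', hn', l3, l4⟩ := tok_pair k2 k4
      refine ⟨m + 1, p', q', ⟨(r2, r3), ⟨n', g₁', g₂', hg₁', hg₂', ?_, ?_, ?_⟩, hm⟩, hm'⟩
      · exact Run_code_append.mpr ⟨r1, l1, Run_code_single.mpr l3⟩
      · exact Run_code_cons.mpr ⟨r4, l4, l2⟩
      · rw [code_len_append, code_len_cons, code_len_cons]
        simp only [code_nil, List.length_nil]
        rw [← hN] at hn'
        omega
  have h2 : ∀ (m : ℕ) (p q p' q' : σ), Ch E m (p, q) (p', q') →
      Run st p' (code [(Kn.m, 0)]) q' → ∃ t', DDh h false t' ∧ Run st p (code t') q ∧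
        (code t').length ≤ m * (2 * BT N h + 2 * N ^ 2 + 2) + 1 := by
    intro m
    induction m with
    | zero =>
      intro p q p' q' h1 h2
      have h1' : (p, q) = (p', q') := h1
      rw [Prod.mk.injEq] at h1'
      obtain ⟨rfl, rfl⟩ := h1'
      exact ⟨_, .mid h, h2, by simp [code, tok]⟩
    | succ m ihm =>
      rintro p q p' q' ⟨⟨r1, r2⟩, ⟨n, g₁, g₂, hg₁, hg₂, k1, k2, hl⟩, hm⟩ h2
      obtain ⟨t, ht, hrt, hlt⟩ := ihm r1 r2 p' q' hm h2
      refine ⟨_, .step h n g₁ t g₂ hg₁ ht hg₂, ?_, ?_⟩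
      · obtain ⟨r3, k3, k4⟩ := Run_code_append.mp k1
        exact Run_code_append.mpr ⟨r3, k3, Run_code_cons.mpr ⟨r1, Run_code_single.mp k4,
          Run_code_append.mpr ⟨r2, hrt, k2⟩⟩⟩
      · rw [code_len_append, code_len_cons, code_len_cons] at hl
        rw [code_len_append, code_len_cons, code_len_append, code_len_cons, add_mul]
        simp only [code_nil, List.length_nil] at hl
        omega
  intro t p q ht hr
  obtain ⟨m, p', q', hm, hm'⟩ := h1 false t ht rfl p q hr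
  obtain ⟨m', l1, _, l2⟩ := Ch_short _ hm
  obtain ⟨t', h3, h4, h5⟩ := h2 m' p q p' q' l2 hm'
  refine ⟨t', h3, h4, h5.trans ?_⟩
  rw [Fintype.card_prod, ← pow_two] at l1
  exact Nat.add_le_add_right (Nat.mul_le_mul l1.le (le_refl _)) 1

theorem forest_short (h : ℕ) :
    ∀ (g : List Tk) (p q : σ), DDh h true g → Run st p (code g) q →
      ∃ g', DDh h true g' ∧ Run st p (code g') q ∧
        (code g').length ≤ BT (Fintype.card σ) h := by
  set N := Fintype.card σ with hN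
  induction h with
  | zero =>
    intro g p q hg hr
    cases hg with
    | nil => exact ⟨[], .nil _, hr, by simp [code]⟩
  | succ h ih =>
    have ihs := spine_short ih
    rw [← hN] at ihs
    let E : σ → σ → Prop := fun p q => ∃ e t, DDh h false t ∧
      Run st p (code ((Kn.b, e + 1) :: (t ++ [(Kn.d, e + 1)]))) q ∧
      (code ((Kn.b, e + 1) :: (t ++ [(Kn.d, e + 1)]))).length ≤
        2 * N ^ 2 + 2 + (N ^ 2 * (2 * BT N h + 2 * N ^ 2 + 2) + 1)
    have h1 : ∀ (k' : ℕ) (k : Bool) (g : List Tk), DDh k' k g → k' = h + 1 → k = true →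
        ∀ p q, Run st p (code g) q → ∃ m, Ch E m p q := by
      intro k' k g hg
      induction hg with
      | nil _ => intro _ _ p q hr; exact ⟨0, hr⟩
      | cons k' e t g ht hg _ ihg =>
        intro hk _ p q hr
        have hk' : k' = h := by omega
        subst hk'
        obtain ⟨r1, k1, hr⟩ := Run_code_cons.mp hr
        obtain ⟨r2, k2, hr⟩ := Run_code_append.mp hr
        obtain ⟨r3, k3, k4⟩ := Run_code_cons.mp hr
        obtain ⟨m, hm⟩ := ihg rfl rfl r3 q k4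
        obtain ⟨e', he', l1, l3⟩ := tok_pair_pos k1 k3
        obtain ⟨t', ht', l2, l2'⟩ := ihs t r1 r2 ht k2
        refine ⟨m + 1, r3, ⟨e', t', ht', ?_, ?_⟩, hm⟩
        · exact Run_code_cons.mpr ⟨r1, l1, Run_code_append.mpr ⟨r2, l2,
            Run_code_single.mpr l3⟩⟩
        · rw [code_len_cons, code_len_append, code_len_cons]
          simp only [code_nil, List.length_nil]
          rw [← hN] at he'
          omega
      | mid _ => intro _ hk; cases hk
      | step _ _ _ _ _ _ _ _ _ _ _ => intro _ hk; cases hk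
    have h2 : ∀ (m : ℕ) (p q : σ), Ch E m p q →
        ∃ g', DDh (h + 1) true g' ∧ Run st p (code g') q ∧
          (code g').length ≤ m * (2 * N ^ 2 + 2 + (N ^ 2 * (2 * BT N h + 2 * N ^ 2 + 2) + 1)) := by
      intro m
      induction m with
      | zero => intro p q hm; exact ⟨[], .nil _, hm, by simp [code]⟩
      | succ m ihm =>
        rintro p q ⟨r, ⟨e, t, ht, hr, hl⟩, hm⟩
        obtain ⟨g, hg, hrg, hlg⟩ := ihm r q hm
        refine ⟨_, .cons h e t g ht hg, ?_, ?_⟩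
        · have := (Run_code_append (st := st) (β := g) (q := q)).mpr ⟨r, hr, hrg⟩
          simpa only [List.append_assoc, List.cons_append, List.nil_append] using this
        · rw [code_len_cons, code_len_append, code_len_cons] at hl
          rw [code_len_cons, code_len_append, code_len_cons, add_mul, one_mul]
          simp only [code_nil, List.length_nil] at hl
          omega
    intro g p q hg hr
    obtain ⟨m, hm⟩ := h1 (h + 1) true g hg rfl rfl p q hr
    obtain ⟨m', l1, _, l2⟩ := Ch_short _ hm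
    obtain ⟨g', h3, h4, h5⟩ := h2 m' p q l2
    refine ⟨g', h3, h4, h5.trans ?_⟩
    exact Nat.mul_le_mul (by rw [hN]; omega) (le_refl _)

/-! ### bounding the height -/

theorem DD_first {k : Bool} {τ : List Tk} (hτ : DD k τ) : (∀ s ∈ τ, NB s) ∨
    ∃ (s : List Tk) (e : ℕ) (τ' : List Tk), (∀ t ∈ s, NB t) ∧ τ = s ++ (Kn.b, e) :: τ' := by
  induction hτ with
  | nil => left; simp
  | cons e t g _ _ _ _ => right; exact ⟨[], e + 1, t ++ (Kn.d, e + 1) :: g, by simp, rfl⟩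
  | mid =>
    left
    intro s hs
    rw [List.mem_singleton] at hs
    subst hs
    exact ⟨by simp, by simp⟩
  | step n g₁ t g₂ _ _ _ ih1 ih2 ih3 =>
    rcases ih1 with h1 | ⟨s, e, τ', hs, rfl⟩
    · rcases ih2 with h2 | ⟨s, e, τ', hs, rfl⟩
      · rcases ih3 with h3 | ⟨s, e, τ', hs, rfl⟩
        · left
          intro x hx
          simp only [List.mem_append, List.mem_cons] at hx
          rcases hx with hx | rfl | hx | rfl | hx
          · exact h1 x hx
          · exact ⟨by simp, by simp⟩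
          · exact h2 x hx
          · exact ⟨by simp, by simp⟩
          · exact h3 x hx
        · right
          refine ⟨g₁ ++ (Kn.o, n) :: (t ++ (Kn.c, n) :: s), e, τ', ?_, by simp⟩
          intro x hx
          simp only [List.mem_append, List.mem_cons] at hx
          rcases hx with hx | rfl | hx | rfl | hx
          · exact h1 x hx
          · exact ⟨by simp, by simp⟩
          · exact h2 x hx
          · exact ⟨by simp, by simp⟩
          · exact hs x hx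
      · right
        refine ⟨g₁ ++ (Kn.o, n) :: s, e, τ' ++ (Kn.c, n) :: g₂, ?_, by simp⟩
        intro x hx
        simp only [List.mem_append, List.mem_cons] at hx
        rcases hx with hx | rfl | hx
        · exact h1 x hx
        · exact ⟨by simp, by simp⟩
        · exact hs x hx
    · right
      exact ⟨s, e, τ' ++ (Kn.o, n) :: (t ++ (Kn.c, n) :: g₂), hs, by simp⟩

theorem DDh_of_NB {k : Bool} {τ : List Tk} (hτ : DD k τ) (h : ℕ) (hNB : ∀ s ∈ τ, NB s) :
    DDh h k τ := by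
  induction hτ with
  | nil => exact .nil h
  | cons e t g _ _ _ _ =>
    exact absurd rfl (hNB (Kn.b, e + 1) (by simp)).1
  | mid => exact .mid h
  | step n g₁ t g₂ _ _ _ ih1 ih2 ih3 =>
    exact .step h n g₁ t g₂ (ih1 fun s hs => hNB s (by simp [hs]))
      (ih2 fun s hs => hNB s (by simp [hs])) (ih3 fun s hs => hNB s (by simp [hs]))

/-- There is a lower bound `F` for the level of the next opening bracket. -/
def Pend (st : σ → Sg → σ → Prop) (Re : σ → Prop) (F : ℕ) (p : σ) : Prop :=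
  F ≤ 1 ∨ ∃ (p₀ : σ) (κ : Kn) (e₁ : ℕ) (s : List Tk), Re p₀ ∧ (∀ t ∈ s, NB t) ∧
    Run st p₀ (code ((κ, e₁) :: s)) p ∧ ((κ = Kn.b ∧ F ≤ 2 * e₁) ∨ (κ = Kn.d ∧ F ≤ e₁))

theorem Pend.ext {Re : σ → Prop} {F : ℕ} {p q : σ} {t : Tk} (h : Pend st Re F p) (ht : NB t)
    (hr : Run st p (tok t) q) : Pend st Re F q := by
  rcases h with h | ⟨p₀, κ, e₁, s, h1, h2, h3, h4⟩
  · exact Or.inl h
  · refine Or.inr ⟨p₀, κ, e₁, s ++ [t], h1, ?_, ?_, h4⟩
    · intro x hx
      rw [List.mem_append, List.mem_singleton] at hx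
      rcases hx with hx | rfl
      · exact h2 x hx
      · exact ht
    · exact (Run_code_append (α := (κ, e₁) :: s)).mpr ⟨p, h3, Run_code_single.mpr hr⟩

theorem DD_height {Re Co : σ → Prop}
    (hRe : ∀ p τ q, Re p → Run st p (code τ) q → Re q)
    (hCo : ∀ p τ q, Co q → Run st p (code τ) q → Co p)
    (hNV : ∀ p τ q, Re p → Co q → Run st p (code τ) q → ¬ Viol τ) {k : Bool} {τ : List Tk}
    (hτ : DD k τ) : ∀ (p q : σ) (F h : ℕ), Re p → Co q → Run st p (code τ) q →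
      Pend st Re F p → 1 ≤ F → Fintype.card σ ≤ F * 2 ^ h →
      DDh (h + 1) k τ ∧ Pend st Re F q := by
  induction hτ with
  | nil =>
    intro p q F h _ _ hr hP _ _
    have hr' : p = q := hr
    subst hr'
    exact ⟨.nil _, hP⟩
  | mid =>
    intro p q F h _ _ hr hP _ _
    exact ⟨.mid _, hP.ext ⟨by simp, by simp⟩ (Run_code_single.mp hr)⟩
  | step n g₁ t g₂ _ _ _ ih1 ih2 ih3 =>
    intro p q F h hp hq hr hP hF hN
    obtain ⟨r1, k1, hr⟩ := Run_code_append.mp hr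
    obtain ⟨r2, k2, hr⟩ := Run_code_cons.mp hr
    obtain ⟨r3, k3, hr⟩ := Run_code_append.mp hr
    obtain ⟨r4, k4, k5⟩ := Run_code_cons.mp hr
    have a1 := hRe _ _ _ hp k1
    have a2 := hRe _ _ _ a1 (Run_code_single.mpr k2)
    have a3 := hRe _ _ _ a2 k3
    have a4 := hRe _ _ _ a3 (Run_code_single.mpr k4)
    have c4 := hCo _ _ _ hq k5
    have c3 := hCo _ _ _ c4 (Run_code_single.mpr k4)
    have c2 := hCo _ _ _ c3 k3
    have c1 := hCo _ _ _ c2 (Run_code_single.mpr k2)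
    obtain ⟨l1, m1⟩ := ih1 p r1 F h hp c1 k1 hP hF hN
    have m2 := m1.ext ⟨by simp, by simp⟩ k2
    obtain ⟨l3, m3⟩ := ih2 r2 r3 F h a2 c3 k3 m2 hF hN
    have m4 := m3.ext ⟨by simp, by simp⟩ k4
    obtain ⟨l5, m5⟩ := ih3 r4 q F h a4 hq k5 m4 hF hN
    exact ⟨.step _ n g₁ t g₂ l1 l3 l5, m5⟩
  | cons e t g ht _ ih1 ih2 =>
    intro p q F h hp hq hr hP hF hN
    obtain ⟨r1, k1, hr⟩ := Run_code_cons.mp hr
    obtain ⟨r2, k2, hr⟩ := Run_code_append.mp hr
    obtain ⟨r3, k3, k4⟩ := Run_code_cons.mp hr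
    have a1 := hRe _ _ _ hp (Run_code_single.mpr k1)
    have a2 := hRe _ _ _ a1 k2
    have a3 := hRe _ _ _ a2 (Run_code_single.mpr k3)
    have c3 := hCo _ _ _ hq k4
    have c2 := hCo _ _ _ c3 (Run_code_single.mpr k3)
    have c1 := hCo _ _ _ c2 k2
    have hFe : F ≤ e + 1 := by
      rcases hP with hP | ⟨p₀, κ, e₁, s, h1, h2, h3, h4⟩
      · omega
      · by_contra hlt
        refine hNV p₀ (((κ, e₁) :: s) ++ [(Kn.b, e + 1)]) r1 h1 c1
          (Run_code_append.mpr ⟨p, h3, Run_code_single.mpr k1⟩) ?_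
        rcases h4 with ⟨rfl, h4⟩ | ⟨rfl, h4⟩
        · exact ⟨[], e₁, s, e + 1, [], h2, Or.inl ⟨by simp, by omega⟩⟩
        · exact ⟨[], e₁, s, e + 1, [], h2, Or.inr ⟨by simp, by omega⟩⟩
    have hP3 : Pend st Re F r3 :=
      Or.inr ⟨r2, Kn.d, e + 1, [], a2, by simp, Run_code_single.mpr k3, Or.inr ⟨rfl, hFe⟩⟩
    obtain ⟨l4, m4⟩ := ih2 r3 q F h a3 hq k4 hP3 hF hN
    refine ⟨.cons h e t g ?_ l4, m4⟩
    cases h with
    | zero =>
      rw [pow_zero, mul_one] at hN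
      rcases DD_first ht with h1 | ⟨s, e₂, t', hs, rfl⟩
      · exact DDh_of_NB ht 0 h1
      · exfalso
        obtain ⟨e', he', k1'⟩ := tok_long k1 (hN.trans hFe) (e₂ + 1)
        refine hNV p ((Kn.b, e') :: (s ++ (Kn.b, e₂) :: t')) r2 hp c2
          (Run_code_cons.mpr ⟨r1, k1', k2⟩) ?_
        exact ⟨[], e', s, e₂, t', hs, Or.inl ⟨rfl, by omega⟩⟩
    | succ h =>
      have hP1 : Pend st Re (2 * F) r1 :=
        Or.inr ⟨p, Kn.b, e + 1, [], hp, by simp, Run_code_single.mpr k1,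
          Or.inl ⟨rfl, by omega⟩⟩
      refine (ih1 r1 r2 (2 * F) h a1 c2 k2 hP1 (by omega) ?_).1
      calc _ ≤ F * 2 ^ (h + 1) := hN
        _ = 2 * F * 2 ^ h := by ring

end

/-- The upper bound for the index. -/
def UQ (N : ℕ) : ℕ := 3 * N ^ 2 + 3 * N + 2 + BT N (Nat.log 2 N + 2)

theorem LQ_upper {σ : Type} [Fintype σ] (st : σ → Sg → σ → Prop) (S A : Set σ) {w : List Sg}
    (hw : w ∈ LQ) (hM : ∃ p ∈ S, ∃ q ∈ A, Run st p w q) :
    ∃ w' ∈ LQ, (∃ p ∈ S, ∃ q ∈ A, Run st p w' q) ∧ w'.length ≤ UQ (Fintype.card σ) := by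
  by_cases hV : ∃ τ, Viol τ ∧ ∃ p ∈ S, ∃ q ∈ A, Run st p (code τ) q
  · obtain ⟨τ, hτ, p, hp, q, hq, hr⟩ := hV
    obtain ⟨τ', h1, h2, h3⟩ := Viol_short hτ hr
    refine ⟨code τ', ⟨τ', Or.inr h1, rfl⟩, ⟨p, hp, q, hq, h2⟩, ?_⟩
    unfold UQ
    omega
  · push Not at hV
    obtain ⟨τ, hτ, rfl⟩ := hw
    obtain ⟨p, hp, q, hq, hr⟩ := hM
    have hD : DD true τ := by
      rcases hτ with h | h
      · exact h
      · exact absurd hr (hV τ h p hp q hq)
    have hh : DDh (Nat.log 2 (Fintype.card σ) + 1 + 1) true τ := by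
      refine (DD_height (st := st) (Re := fun r => ∃ s ∈ S, ∃ α, Run st s (code α) r)
        (Co := fun r => ∃ f ∈ A, ∃ β, Run st r (code β) f) ?_ ?_ ?_ hD p q 1 _
        ⟨p, hp, [], rfl⟩ ⟨q, hq, [], rfl⟩ hr (Or.inl (le_refl _)) (le_refl _) ?_).1
      · rintro r τ r' ⟨s, hs, α, hα⟩ hr
        exact ⟨s, hs, α ++ τ, Run_code_append.mpr ⟨r, hα, hr⟩⟩
      · rintro r τ r' ⟨f, hf, β, hβ⟩ hr
        exact ⟨f, hf, τ ++ β, Run_code_append.mpr ⟨r', hr, hβ⟩⟩
      · rintro r τ r' ⟨s, hs, α, hα⟩ ⟨f, hf, β, hβ⟩ hr hVτ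
        exact hV (α ++ (τ ++ β)) ((hVτ.right β).left α) s hs f hf
          (Run_code_append.mpr ⟨r, hα, Run_code_append.mpr ⟨r', hr, hβ⟩⟩)
      · rw [one_mul]
        exact (Nat.lt_pow_succ_log_self (by norm_num) _).le
    obtain ⟨g', h1, h2, h3⟩ := forest_short _ τ p q hh hr
    refine ⟨code g', ⟨g', Or.inl h1.toDD, rfl⟩, ⟨p, hp, q, hq, h2⟩, ?_⟩
    exact h3.trans (Nat.le_add_left _ _)

end Pool.Agent.Helper178.Qrt
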