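import Mathlib

set_option autoImplicit false

namespace Pool.Agent.Helper178.SemilinearDFA

open Set Pointwise

variable {A σ M : Type} [AddCommMonoid M]

/-- `PathIn D S p w q`: the word `w` leads from `p` to `q` and all strictly intermediate states are in `S`. -/
def PathIn (D : DFA A σ) (S : Set σ) : σ → List A → σ → Prop
  | p, [], q => p = q
  | p, a :: w, q => (w = [] ∨ D.step p a ∈ S) ∧ PathIn D S (D.step p a) w q

theorem pathIn_mono (D : DFA A σ) {S T : Set σ} (h : S ⊆ T) :
    ∀ (w : List A) (p q : σ), PathIn D S p w q → PathIn D T p w q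
  | [], _, _, hp => hp
  | _ :: w, _, _, hp => ⟨hp.1.imp id (fun x => h x), pathIn_mono D h w _ _ hp.2⟩

theorem pathIn_append (D : DFA A σ) {S : Set σ} {s : σ} (hs : s ∈ S) :
    ∀ (w v : List A) (p q : σ), PathIn D S p w s → PathIn D S s v q → PathIn D S p (w ++ v) q
  | [], v, p, q, h1, h2 => by
      have : p = s := h1
      subst this
      exact h2
  | a :: w, v, p, q, h1, h2 => by
      refine ⟨?_, pathIn_append D hs w v _ _ h1.2 h2⟩
      right
      rcases h1.1 with h | h
      · subst h
        have : D.step p a = s := h1.2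
        rw [this]
        exact hs
      · exact h

theorem pathIn_univ (D : DFA A σ) :
    ∀ (w : List A) (p q : σ), PathIn D Set.univ p w q ↔ D.evalFrom p w = q
  | [], p, q => Iff.rfl
  | a :: w, p, q => by
      have := pathIn_univ D w (D.step p a) q
      constructor
      · intro h
        exact this.1 h.2
      · intro h
        exact ⟨Or.inr trivial, this.2 h⟩

/-- weights of paths -/
def RS (D : DFA A σ) (wt : A → M) (S : Set σ) (p q : σ) : Set M :=
  {x | ∃ w, PathIn D S p w q ∧ (w.map wt).sum = x}

theorem RS_mono (D : DFA A σ) (wt : A → M) {S T : Set σ} (h : S ⊆ T) (p q : σ) :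
    RS D wt S p q ⊆ RS D wt T p q := by
  rintro x ⟨w, hw, hx⟩
  exact ⟨w, pathIn_mono D h w p q hw, hx⟩

theorem RS_add (D : DFA A σ) (wt : A → M) {S : Set σ} {s : σ} (hs : s ∈ S) {p q : σ} {x y : M}
    (hx : x ∈ RS D wt S p s) (hy : y ∈ RS D wt S s q) : x + y ∈ RS D wt S p q := by
  obtain ⟨w, hw, rfl⟩ := hx
  obtain ⟨v, hv, rfl⟩ := hy
  exact ⟨w ++ v, pathIn_append D hs w v p q hw hv, by simp⟩

theorem RS_insert_subset (D : DFA A σ) (wt : A → M) (S : Set σ) (s : σ) :
    ∀ (w : List A) (p q : σ), PathIn D (insert s S) p w q →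
      (w.map wt).sum ∈ RS D wt S p q ∪
        (RS D wt S p s + ((AddSubmonoid.closure (RS D wt S s s) : Set M) + RS D wt S s q))
  | [], p, q, h => by
      left
      exact ⟨[], h, rfl⟩
  | a :: w, p, q, h => by
      obtain ⟨h1, h2⟩ := h
      have ih := RS_insert_subset D wt S s w (D.step p a) q h2
      rcases h1 with h1 | h1
      · subst h1
        left
        exact ⟨[a], ⟨Or.inl rfl, h2⟩, rfl⟩
      · rcases h1 with h1 | h1
        · -- step p a = s
          right
          have e1 : wt a ∈ RS D wt S p s := ⟨[a], ⟨Or.inl rfl, h1⟩, by simp⟩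
          rw [List.map_cons, List.sum_cons]
          refine Set.add_mem_add e1 ?_
          rw [h1] at ih
          rcases ih with ih | ih
          · rw [← zero_add ((w.map wt).sum)]
            exact Set.add_mem_add (AddSubmonoid.zero_mem _) ih
          · obtain ⟨x, hx, y, ⟨z, hz, t, ht, rfl⟩, he⟩ := ih
            simp only at he
            rw [← he, ← add_assoc]
            refine Set.add_mem_add ?_ ht
            exact AddSubmonoid.add_mem _ (AddSubmonoid.subset_closure hx) hz
        · -- step p a ∈ S
          have ext : ∀ t x, x ∈ RS D wt S (D.step p a) t → wt a + x ∈ RS D wt S p t := by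
            rintro t x ⟨v, hv, rfl⟩
            exact ⟨a :: v, ⟨Or.inr h1, hv⟩, by simp⟩
          rw [List.map_cons, List.sum_cons]
          rcases ih with ih | ih
          · left
            exact ext _ _ ih
          · right
            obtain ⟨x, hx, y, hy, he⟩ := ih
            simp only at he
            have e : wt a + (w.map wt).sum = (wt a + x) + y := by
              rw [← he, add_assoc]
            rw [e]
            exact Set.add_mem_add (ext _ _ hx) hy

theorem RS_insert (D : DFA A σ) (wt : A → M) (S : Set σ) (s p q : σ) :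
    RS D wt (insert s S) p q = RS D wt S p q ∪
        (RS D wt S p s + ((AddSubmonoid.closure (RS D wt S s s) : Set M) + RS D wt S s q)) := by
  apply Set.Subset.antisymm
  · rintro x ⟨w, hw, rfl⟩
    exact RS_insert_subset D wt S s w p q hw
  · have hs : s ∈ insert s S := Set.mem_insert s S
    have hS : S ⊆ insert s S := Set.subset_insert s S
    have hcl : ∀ z, z ∈ AddSubmonoid.closure (RS D wt S s s) → z ∈ RS D wt (insert s S) s s := by
      intro z hz
      induction hz using AddSubmonoid.closure_induction with
      | mem x hx => exact RS_mono D wt hS s s hx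
      | zero => exact ⟨[], rfl, rfl⟩
      | add x y _ _ ihx ihy => exact RS_add D wt hs ihx ihy
    rintro x (hx | ⟨y, hy, z, ⟨t, ht, r, hr, rfl⟩, rfl⟩)
    · exact RS_mono D wt hS p q hx
    · exact RS_add D wt hs (RS_mono D wt hS _ _ hy)
        (RS_add D wt hs (hcl t ht) (RS_mono D wt hS _ _ hr))

theorem RS_empty_finite [Finite A] (D : DFA A σ) (wt : A → M) (p q : σ) :
    (RS D wt ∅ p q).Finite := by
  apply ((Set.finite_singleton (0 : M)).union (Set.finite_range wt)).subset
  rintro x ⟨w, hw, rfl⟩
  match w, hw with
  | [], _ => left; simp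
  | [a], _ => right; exact ⟨a, by simp⟩
  | a :: b :: w, hw =>
    exfalso
    rcases hw.1 with h | h
    · cases h
    · exact h

theorem RS_semilinear [Finite A] [Finite σ] (D : DFA A σ) (wt : A → M) (S : Set σ) :
    ∀ p q, IsSemilinearSet (RS D wt S p q) := by
  have hS : S.Finite := Set.toFinite S
  induction S, hS using Set.Finite.induction_on with
  | empty => intro p q; exact IsSemilinearSet.of_finite (RS_empty_finite D wt p q)
  | @insert s S _ _ ih =>
    intro p q
    rw [RS_insert]
    exact (ih p q).union ((ih p s).add ((ih s s).closure.add (ih s q)))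

/-- Parikh's theorem for regular languages, general commutative weights. -/
theorem semilinear_weights [Finite A] [Finite σ] (D : DFA A σ) (wt : A → M) :
    IsSemilinearSet {x | ∃ w, w ∈ D.accepts ∧ (w.map wt).sum = x} := by
  have : {x | ∃ w, w ∈ D.accepts ∧ (w.map wt).sum = x} =
      ⋃ q ∈ D.accept, RS D wt Set.univ D.start q := by
    ext x
    simp only [Set.mem_iUnion]
    constructor
    · rintro ⟨w, hw, hx⟩
      exact ⟨D.eval w, hw, w, (pathIn_univ D w _ _).2 rfl, hx⟩
    · rintro ⟨q, hq, w, hw, hx⟩
      refine ⟨w, ?_, hx⟩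
      have := (pathIn_univ D w _ _).1 hw
      rw [DFA.mem_accepts]
      change D.evalFrom D.start w ∈ D.accept
      rw [this]
      exact hq
  rw [this]
  exact IsSemilinearSet.biUnion (Set.toFinite _) (fun q _ => RS_semilinear D wt Set.univ D.start q)

end Pool.Agent.Helper178.SemilinearDFA
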