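import Mathlib

set_option autoImplicit false

namespace Pool.Agent.Helper178.SemilinearPeriod

open Set Pointwise

variable {ι : Type} [Fintype ι] [DecidableEq ι]

/-- sum of the coordinates other than `a` -/
def others (a : ι) (q : ι → ℕ) : ℕ := ∑ b ∈ Finset.univ.erase a, q b

theorem le_others {a b : ι} (h : b ≠ a) (q : ι → ℕ) : q b ≤ others a q :=
  Finset.single_le_sum (f := q) (fun _ _ => Nat.zero_le _)
    (Finset.mem_erase.2 ⟨h, Finset.mem_univ b⟩)

theorem others_add_single (a : ι) (q : ι → ℕ) (n : ℕ) : others a (q + Pi.single a n) = others a q := by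
  unfold others
  apply Finset.sum_congr rfl
  intro b hb
  have : b ≠ a := (Finset.mem_erase.1 hb).1
  simp [this]

/-- eventually periodic in direction `a`, with uniform period and linear threshold -/
def UProp (a : ι) (P : Set (ι → ℕ)) : Prop :=
  ∃ N, 0 < N ∧ ∃ C, ∀ q : ι → ℕ, C * (1 + others a q) ≤ q a → (q ∈ P ↔ q + Pi.single a N ∈ P)

theorem UProp.iter {a : ι} {P : Set (ι → ℕ)} {N C : ℕ}
    (h : ∀ q : ι → ℕ, C * (1 + others a q) ≤ q a → (q ∈ P ↔ q + Pi.single a N ∈ P)) (k : ℕ) :
    ∀ q : ι → ℕ, C * (1 + others a q) ≤ q a → (q ∈ P ↔ q + Pi.single a (k * N) ∈ P) := by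
  induction k with
  | zero => intro q _; simp
  | succ k ih =>
    intro q hq
    have e := h (q + Pi.single a (k * N)) (by
      rw [others_add_single]
      simp only [Pi.add_apply, Pi.single_eq_same]
      omega)
    have e2 : q + Pi.single a (k * N) + Pi.single a N = q + Pi.single a ((k + 1) * N) := by
      rw [add_assoc, ← Pi.single_add, Nat.succ_mul]
    rw [e2] at e
    exact (ih q hq).trans e

theorem UProp.union {a : ι} {P Q : Set (ι → ℕ)} (hP : UProp a P) (hQ : UProp a Q) :
    UProp a (P ∪ Q) := by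
  obtain ⟨N1, hN1, C1, h1⟩ := hP
  obtain ⟨N2, hN2, C2, h2⟩ := hQ
  refine ⟨N1 * N2, Nat.mul_pos hN1 hN2, C1 + C2, ?_⟩
  intro q hq
  have hq1 : C1 * (1 + others a q) ≤ q a :=
    le_trans (Nat.mul_le_mul_right _ (Nat.le_add_right _ _)) hq
  have hq2 : C2 * (1 + others a q) ≤ q a :=
    le_trans (Nat.mul_le_mul_right _ (Nat.le_add_left _ _)) hq
  have e1 := UProp.iter h1 N2 q hq1
  have e2 := UProp.iter h2 N1 q hq2
  rw [mul_comm N2 N1] at e1
  rw [Set.mem_union, Set.mem_union, e1, e2]

theorem UProp.empty (a : ι) : UProp a (∅ : Set (ι → ℕ)) :=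
  ⟨1, Nat.one_pos, 0, fun _ _ => by simp⟩

theorem UProp.linear (a : ι) {Q : Set (ι → ℕ)} (hQ : IsLinearSet Q) : UProp a Q := by
  classical
  rw [isLinearSet_iff] at hQ
  obtain ⟨c, T, rfl⟩ := hQ
  set Ta : Finset (ι → ℕ) := T.filter (fun τ => 0 < τ a ∧ ∀ b, b ≠ a → τ b = 0) with hTa
  set N : ℕ := ∏ τ ∈ Ta, τ a with hN
  have hNpos : 0 < N := Finset.prod_pos (fun τ hτ => (Finset.mem_filter.1 hτ).2.1)
  set m : ℕ := ∑ τ ∈ T, τ a with hm
  set C : ℕ := c a + m + T.card * N + 1 with hC
  -- representation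
  have rep : ∀ x : ι → ℕ, x ∈ c +ᵥ (AddSubmonoid.closure (T : Set (ι → ℕ)) : Set (ι → ℕ)) ↔
      ∃ l : (ι → ℕ) → ℕ, x = c + ∑ τ ∈ T, l τ • τ := by
    intro x
    rw [Set.mem_vadd_set]
    constructor
    · rintro ⟨y, hy, rfl⟩
      rw [SetLike.mem_coe, AddSubmonoid.mem_closure_finset] at hy
      obtain ⟨l, -, rfl⟩ := hy
      exact ⟨l, rfl⟩
    · rintro ⟨l, rfl⟩
      refine ⟨∑ τ ∈ T, l τ • τ, ?_, rfl⟩
      exact AddSubmonoid.sum_mem _ (fun τ hτ =>
        AddSubmonoid.nsmul_mem _ (AddSubmonoid.subset_closure hτ) _)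
  -- main bound
  have bound : ∀ x : ι → ℕ, ∀ l : (ι → ℕ) → ℕ, x = c + ∑ τ ∈ T, l τ • τ →
      C * (1 + others a x) ≤ x a → ∃ τ ∈ Ta, N ≤ l τ * τ a := by
    intro x l hx hbig
    by_contra hcon
    push Not at hcon
    have hxa : x a = c a + ∑ τ ∈ T, l τ * τ a := by
      conv_lhs => rw [hx]
      simp [Finset.sum_apply]
    have hle : ∀ τ ∈ T, l τ * τ a ≤ N + others a x * τ a := by
      intro τ hτ
      by_cases hτa : τ ∈ Ta
      · have := hcon τ hτa
        omega
      · by_cases h0 : τ a = 0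
        · rw [h0]; simp
        · have : ∃ b, b ≠ a ∧ τ b ≠ 0 := by
            by_contra hno
            push Not at hno
            exact hτa (Finset.mem_filter.2 ⟨hτ, Nat.pos_of_ne_zero h0, hno⟩)
          obtain ⟨b, hb, hb0⟩ := this
          have h1 : l τ * τ b ≤ x b := by
            have hxb : x b = c b + ∑ τ ∈ T, l τ * τ b := by
              conv_lhs => rw [hx]
              simp [Finset.sum_apply]
            rw [hxb]
            have : l τ * τ b ≤ ∑ τ ∈ T, l τ * τ b :=
              Finset.single_le_sum (f := fun τ => l τ * τ b) (fun _ _ => Nat.zero_le _) hτ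
            omega
          have h2 : l τ ≤ others a x := by
            have h3 : l τ ≤ l τ * τ b := Nat.le_mul_of_pos_right _ (Nat.pos_of_ne_zero hb0)
            exact le_trans h3 (le_trans h1 (le_others hb x))
          have h4 : l τ * τ a ≤ others a x * τ a := Nat.mul_le_mul_right _ h2
          omega
    have hsum : ∑ τ ∈ T, l τ * τ a ≤ T.card * N + others a x * m := by
      calc ∑ τ ∈ T, l τ * τ a ≤ ∑ τ ∈ T, (N + others a x * τ a) := Finset.sum_le_sum hle
        _ = T.card * N + others a x * m := by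
          rw [Finset.sum_add_distrib, Finset.sum_const, ← Finset.mul_sum, smul_eq_mul]
    have : C * (1 + others a x) ≥ c a + m + T.card * N + 1 + m * others a x := by
      rw [hC]
      nlinarith [Nat.zero_le (others a x), Nat.zero_le (c a), Nat.zero_le m,
        Nat.zero_le (T.card * N), Nat.zero_le (c a * others a x),
        Nat.zero_le (T.card * N * others a x)]
    have hcomm : m * others a x = others a x * m := mul_comm _ _
    omega
  refine ⟨N, hNpos, C, ?_⟩
  intro q hq
  rw [rep, rep]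
  constructor
  · rintro ⟨l, hl⟩
    obtain ⟨τ, hτ, _⟩ := bound q l hl hq
    have hτ' := Finset.mem_filter.1 hτ
    have hdvd : τ a ∣ N := Finset.dvd_prod_of_mem (fun τ : ι → ℕ => τ a) hτ
    refine ⟨fun σ => l σ + if σ = τ then N / τ a else 0, ?_⟩
    have hs : Pi.single a N = (N / τ a) • τ := by
      ext b
      by_cases hb : b = a
      · subst hb
        simp [Nat.div_mul_cancel hdvd]
      · simp [hb, hτ'.2.2 b hb]
    rw [hs]
    simp only [add_smul, Finset.sum_add_distrib, ite_smul, zero_smul]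
    rw [Finset.sum_ite_eq' T τ, if_pos hτ'.1]
    conv_lhs => rw [hl]
    rw [add_assoc]
  · rintro ⟨l, hl⟩
    obtain ⟨τ, hτ, hbig⟩ := bound (q + Pi.single a N) l hl (by
      rw [others_add_single]
      simp only [Pi.add_apply, Pi.single_eq_same]
      omega)
    have hτ' := Finset.mem_filter.1 hτ
    have hdvd : τ a ∣ N := Finset.dvd_prod_of_mem (fun τ : ι → ℕ => τ a) hτ
    have hk : N / τ a ≤ l τ := by
      apply Nat.div_le_of_le_mul
      rw [mul_comm]
      exact hbig
    refine ⟨fun σ => l σ - if σ = τ then N / τ a else 0, ?_⟩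
    have hs : Pi.single a N = (N / τ a) • τ := by
      ext b
      by_cases hb : b = a
      · subst hb
        simp [Nat.div_mul_cancel hdvd]
      · simp [hb, hτ'.2.2 b hb]
    have hsplit : ∑ σ ∈ T, l σ • σ =
        ∑ σ ∈ T, (l σ - if σ = τ then N / τ a else 0) • σ + (N / τ a) • τ := by
      have h1 : (N / τ a) • τ = ∑ σ ∈ T, (if σ = τ then N / τ a else 0) • σ := by
        simp only [ite_smul, zero_smul]
        rw [Finset.sum_ite_eq' T τ, if_pos hτ'.1]
      rw [h1, ← Finset.sum_add_distrib]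
      apply Finset.sum_congr rfl
      intro σ _
      rw [← add_smul]
      congr 1
      by_cases hσ : σ = τ
      · subst hσ
        simp only [if_true]
        omega
      · simp [hσ]
    rw [hsplit, ← hs, ← add_assoc] at hl
    exact add_right_cancel hl

theorem UProp.semilinear (a : ι) {P : Set (ι → ℕ)} (hP : IsSemilinearSet P) : UProp a P := by
  obtain ⟨S, hS, hlin, rfl⟩ := hP
  induction S, hS using Set.Finite.induction_on with
  | empty => simpa using UProp.empty a
  | @insert s S _ _ ih =>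
    rw [Set.sUnion_insert]
    exact (UProp.linear a (hlin s (Set.mem_insert _ _))).union
      (ih (fun t ht => hlin t (Set.mem_insert_of_mem _ ht)))

/-- A semilinear set that is unbounded in direction `a` contains a progression going up. -/
theorem exists_progression (a : ι) {B : Set (ι → ℕ)} (hB : IsSemilinearSet B)
    (hunb : ∀ K : ℕ, ∃ q ∈ B, K ≤ q a) :
    ∃ q ρ : ι → ℕ, 0 < ρ a ∧ ∀ n : ℕ, q + n • ρ ∈ B := by
  classical
  obtain ⟨S, hS, hlin, rfl⟩ := hB
  by_contra hcon
  push Not at hcon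
  have : ∀ t ∈ S, ∃ K, ∀ q ∈ t, q a < K := by
    intro t ht
    obtain ⟨c, T, hT, rfl⟩ := hlin t ht
    have hzero : ∀ τ ∈ T, τ a = 0 := by
      intro τ hτ
      by_contra h0
      obtain ⟨n, hn⟩ := hcon c τ (Nat.pos_of_ne_zero h0)
      apply hn
      refine ⟨_, ht, n • τ, ?_, rfl⟩
      exact AddSubmonoid.nsmul_mem _ (AddSubmonoid.subset_closure hτ) _
    refine ⟨c a + 1, ?_⟩
    rintro q ⟨y, hy, rfl⟩
    have hy0 : y a = 0 := by
      have hy' : y ∈ AddSubmonoid.closure T := hy
      induction hy' using AddSubmonoid.closure_induction with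
      | mem x hx => exact hzero x hx
      | zero => rfl
      | add x y _ _ ihx ihy =>
        have e1 := ihx (by assumption)
        have e2 := ihy (by assumption)
        simp [e1, e2]
    simp [hy0]
  choose! K hK using this
  obtain ⟨M, hM⟩ := (hS.image K).bddAbove
  obtain ⟨q, ⟨t, ht, hqt⟩, hqM⟩ := hunb M
  have h1 := hK t ht q hqt
  have h2 : K t ≤ M := hM (Set.mem_image_of_mem K ht)
  omega

end Pool.Agent.Helper178.SemilinearPeriod
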