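import Pool.Agent.Helper178.SemilinearPeriod

set_option autoImplicit false

namespace Pool.Agent.Helper178.SemilinearSection

open Set Pointwise Pool.Agent.Helper178.SemilinearPeriod

theorem affine_preimage {M N : Type} [AddCommMonoid M] [AddCommMonoid N] [AddMonoid.FG M]
    [AddMonoid.FG N] {P : Set N} (hP : IsSemilinearSet P) (f : M →+ N) (c : N) :
    IsSemilinearSet {x | f x + c ∈ P} := by
  have h1 : IsSemilinearSet {z : M × N | c + (f.comp (AddMonoidHom.fst M N)) z =
      0 + (AddMonoidHom.snd M N) z} := isSemilinearSet_setOfPred_eq _ _ _ _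
  have h2 : IsSemilinearSet ((AddMonoidHom.snd M N) ⁻¹' P) := hP.preimage _
  have h3 := (h1.inter h2).image (AddMonoidHom.fst M N)
  convert! h3 using 1
  ext x
  constructor
  · intro hx
    refine ⟨(x, f x + c), ⟨?_, hx⟩, rfl⟩
    simp [add_comm]
  · rintro ⟨⟨y, w⟩, ⟨h4, h5⟩, rfl⟩
    simp only [Set.mem_ofPred_eq, AddMonoidHom.coe_comp, Function.comp_apply, AddMonoidHom.coe_fst,
      AddMonoidHom.coe_snd, zero_add, Set.mem_preimage] at h4 h5 ⊢
    rw [add_comm, h4]
    exact h5

variable {ι : Type} [Fintype ι] [DecidableEq ι]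

theorem exists_section {P : Set (ι → ℕ)} (hP : IsSemilinearSet P) (a : ι)
    (hnon : ∀ x x' : ℕ, x < x' → ∃ p : ι → ℕ,
      ¬ (p + Pi.single a x ∈ P ↔ p + Pi.single a x' ∈ P)) :
    ∃ (c U V : ι → ℕ) (β b : Prop), ∀ x y : ℕ,
      (c + x • U + y • V ∈ P) ↔ ((x < y ∧ β) ∨ (x = y ∧ b) ∨ (y < x ∧ ¬ b)) := by
  classical
  obtain ⟨N, hN, C, hC⟩ := UProp.semilinear a hP
  -- the set of boundary points
  set P' : Set (ι → ℕ) := {q | q + Pi.single a N ∈ P} with hP'
  have hP's : IsSemilinearSet P' := affine_preimage hP (AddMonoidHom.id _) (Pi.single a N)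
  set B : Set (ι → ℕ) := (P \ P') ∪ (P' \ P) with hB
  have hBs : IsSemilinearSet B := (hP.sdiff hP's).union (hP's.sdiff hP)
  have hBmem : ∀ q, q ∈ B ↔ ¬ (q ∈ P ↔ q + Pi.single a N ∈ P) := by
    intro q
    rw [hB]
    simp only [Set.mem_union, Set.mem_sdiff, hP', Set.mem_ofPred_eq]
    tauto
  have hBunb : ∀ K : ℕ, ∃ q ∈ B, K ≤ q a := by
    intro K
    obtain ⟨p, hp⟩ := hnon K (K + N) (by omega)
    refine ⟨p + Pi.single a K, ?_, ?_⟩
    · rw [hBmem, add_assoc, ← Pi.single_add]
      exact hp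
    · simp
  -- bad points
  let sh : (ι → ℕ) × ℕ →+ (ι → ℕ) :=
    { toFun := fun z => z.1 + Pi.single a z.2
      map_zero' := by simp
      map_add' := by
        intro x y
        simp only [Prod.fst_add, Prod.snd_add, Pi.single_add]
        abel }
  set Bad : Set (ι → ℕ) := {q | ∃ j : ℕ, q + Pi.single a (j + 1) ∈ B} with hBad
  have hBads : IsSemilinearSet Bad := by
    have h1 := (affine_preimage hBs sh (Pi.single a 1)).image (AddMonoidHom.fst (ι → ℕ) ℕ)
    convert! h1 using 1
    ext q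
    constructor
    · rintro ⟨j, hj⟩
      refine ⟨(q, j), ?_, rfl⟩
      simp only [Set.mem_ofPred_eq]
      change q + Pi.single a j + Pi.single a 1 ∈ B
      rw [add_assoc, ← Pi.single_add]
      exact hj
    · rintro ⟨⟨q', j⟩, hj, rfl⟩
      refine ⟨j, ?_⟩
      simp only [Set.mem_ofPred_eq] at hj
      change q' + Pi.single a j + Pi.single a 1 ∈ B at hj
      rw [add_assoc, ← Pi.single_add] at hj
      exact hj
  set B1 : Set (ι → ℕ) := B \ Bad with hB1
  have hB1s : IsSemilinearSet B1 := hBs.sdiff hBads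
  have hB1unb : ∀ K : ℕ, ∃ q ∈ B1, K ≤ q a := by
    intro K
    obtain ⟨q, hq, hK⟩ := hBunb K
    -- last j with q + j e_a in B
    have hbdd : ∀ j, q + Pi.single a j ∈ B → j ≤ C * (1 + others a q) := by
      intro j hj
      by_contra hlt
      push Not at hlt
      rw [hBmem] at hj
      apply hj
      apply hC
      rw [others_add_single]
      simp only [Pi.add_apply, Pi.single_eq_same]
      omega
    let J := Nat.findGreatest (fun j => q + Pi.single a j ∈ B) (C * (1 + others a q))
    have hJ : q + Pi.single a J ∈ B := by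
      have h := Nat.findGreatest_spec (P := fun j => q + Pi.single a j ∈ B) (m := 0)
        (n := C * (1 + others a q)) (Nat.zero_le _) (by simpa using hq)
      exact h
    refine ⟨q + Pi.single a J, ⟨hJ, ?_⟩, ?_⟩
    · rintro ⟨j, hj⟩
      rw [add_assoc, ← Pi.single_add] at hj
      have h1 := hbdd _ hj
      have h2 := Nat.le_findGreatest (P := fun j => q + Pi.single a j ∈ B) h1 hj
      change J + (j + 1) ≤ J at h2
      omega
    · simp only [Pi.add_apply, Pi.single_eq_same]
      omega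
  -- choose the truth value
  have hsplit : ∃ (b : Prop) (B2 : Set (ι → ℕ)), IsSemilinearSet B2 ∧
      (∀ q ∈ B2, q ∈ B1 ∧ (q ∈ P ↔ b)) ∧ ∀ K : ℕ, ∃ q ∈ B2, K ≤ q a := by
    by_cases h : ∀ K : ℕ, ∃ q ∈ B1 ∩ P, K ≤ q a
    · exact ⟨True, B1 ∩ P, hB1s.inter hP, fun q hq => ⟨hq.1, by simpa using hq.2⟩, h⟩
    · push Not at h
      obtain ⟨K0, hK0⟩ := h
      refine ⟨False, B1 \ P, hB1s.sdiff hP, fun q hq => ⟨hq.1, by simpa using hq.2⟩, ?_⟩
      intro K
      obtain ⟨q, hq, hqK⟩ := hB1unb (K + K0)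
      refine ⟨q, ⟨hq, ?_⟩, by omega⟩
      intro hqP
      have := hK0 q ⟨hq, hqP⟩
      omega
  obtain ⟨b, B2, hB2s, hB2, hB2unb⟩ := hsplit
  obtain ⟨q0, ρ, hρ, hprog⟩ := exists_progression a hB2s hB2unb
  set u : ι → ℕ := Pi.single a N with hu
  set r : ι → ℕ := N • ρ with hr
  have hru : ∀ i, u i ≤ r i := by
    intro i
    by_cases hi : i = a
    · subst hi
      simp only [hu, hr, Pi.single_eq_same, Pi.smul_apply, smul_eq_mul]
      exact Nat.le_mul_of_pos_right _ hρ
    · simp [hu, hi]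
  have hju : ∀ j : ℕ, j • u = Pi.single a (j * N) := by
    intro j
    ext i
    by_cases hi : i = a
    · subst hi; simp [hu]
    · simp [hu, hi]
  have hq : ∀ n : ℕ, q0 + n • r ∈ B2 := by
    intro n
    rw [hr, smul_smul]
    exact hprog _
  have hb : ∀ n : ℕ, q0 + n • r ∈ P ↔ b := fun n => (hB2 _ (hq n)).2
  have hnb : ∀ n j : ℕ, q0 + n • r + (j + 1) • u ∈ P ↔ ¬ b := by
    intro n j
    induction j with
    | zero =>
      have h1 := (hBmem _).1 (hB2 _ (hq n)).1.1
      rw [hb n] at h1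
      rw [zero_add, one_smul]
      tauto
    | succ j ih =>
      rw [← ih]
      have h1 : q0 + n • r + (j + 1) • u ∉ B := by
        intro hcon
        apply (hB2 _ (hq n)).1.2
        refine ⟨(j + 1) * N - 1, ?_⟩
        have : (j + 1) * N - 1 + 1 = (j + 1) * N :=
          Nat.sub_add_cancel (Nat.mul_pos (Nat.succ_pos j) hN)
        rw [this, ← hju]
        exact hcon
      rw [hBmem, not_not] at h1
      rw [h1]
      have : q0 + n • r + (j + 1 + 1) • u = q0 + n • r + (j + 1) • u + Pi.single a N := by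
        rw [succ_nsmul u (j + 1), ← add_assoc]
      rw [this]
  -- left side
  let F : (Fin 2 → ℕ) × (ι → ℕ) →+ (ι → ℕ) :=
    { toFun := fun z => z.1 0 • r
      map_zero' := by simp
      map_add' := by
        intro x y
        simp only [Prod.fst_add, Pi.add_apply, add_smul] }
  let F' : (Fin 2 → ℕ) × (ι → ℕ) →+ (ι → ℕ) :=
    { toFun := fun z => z.2 + z.1 1 • u
      map_zero' := by simp
      map_add' := by
        intro x y
        simp only [Prod.fst_add, Prod.snd_add, Pi.add_apply, add_smul]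
        abel }
  set G : Set (Fin 2 → ℕ) := {g | ∃ w ∈ P, q0 + g 0 • r = w + g 1 • u} with hG
  have hGs : IsSemilinearSet G := by
    have h1 : IsSemilinearSet {z : (Fin 2 → ℕ) × (ι → ℕ) | q0 + F z = 0 + F' z} :=
      isSemilinearSet_setOfPred_eq _ _ _ _
    have h2 : IsSemilinearSet ((AddMonoidHom.snd (Fin 2 → ℕ) (ι → ℕ)) ⁻¹' P) := hP.preimage _
    have h3 := (h1.inter h2).image (AddMonoidHom.fst (Fin 2 → ℕ) (ι → ℕ))
    convert! h3 using 1
    ext g
    constructor
    · rintro ⟨w, hw, he⟩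
      refine ⟨(g, w), ⟨?_, hw⟩, rfl⟩
      rw [Set.mem_ofPred_eq, zero_add]
      exact he
    · rintro ⟨⟨g', w⟩, ⟨h4, h5⟩, rfl⟩
      rw [Set.mem_ofPred_eq, zero_add] at h4
      exact ⟨w, h5, h4⟩
  obtain ⟨N2, hN2, C2, hC2⟩ := UProp.semilinear (0 : Fin 2) hGs
  have hoth : ∀ g : Fin 2 → ℕ, others 0 g = g 1 := by
    intro g
    unfold others
    have : (Finset.univ.erase (0 : Fin 2)) = {1} := by decide
    rw [this, Finset.sum_singleton]
  -- H
  set C3 := C2 + 1 with hC3
  let φ : ℕ →+ (Fin 2 → ℕ) :=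
    { toFun := fun j => ![N2 * C3 * j, j]
      map_zero' := by ext i; fin_cases i <;> simp
      map_add' := by
        intro x y
        ext i
        fin_cases i
        · simp [mul_add]
        · simp }
  set H : Set ℕ := {j | φ j + ![N2 * C3, 0] ∈ G} with hH
  have hHs : IsSemilinearSet H := affine_preimage hGs φ _
  obtain ⟨k, p, hp, hper⟩ := Nat.isSemilinearSet_iff_ultimately_periodic.1 hHs
  set M := p * (k + 1) with hM
  have hMk : k ≤ M := by
    rw [hM]
    nlinarith
  have hperi : ∀ t x : ℕ, k ≤ x → (x ∈ H ↔ x + t * p ∈ H) := by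
    intro t
    induction t with
    | zero => intro x _; simp
    | succ t ih =>
      intro x hx
      rw [ih x hx, hper (x + t * p) (by omega), Nat.succ_mul, add_assoc]
  have hMz : ∀ z : ℕ, ((z + 1) * M ∈ H ↔ M ∈ H) := by
    intro z
    rw [hperi (z * (k + 1)) M hMk]
    have : (z + 1) * M = M + z * (k + 1) * p := by rw [hM]; ring
    rw [this]
  have hMpos : 0 < M := Nat.mul_pos hp (Nat.succ_pos k)
  set K := N2 * C3 * M with hK
  have hKM : M ≤ K := by
    rw [hK]
    exact Nat.le_mul_of_pos_left _ (Nat.mul_pos hN2 (Nat.succ_pos C2))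
  set n1 := N2 * C3 with hn1
  set U : ι → ℕ := M • u with hU
  set V : ι → ℕ := fun i => K * r i - M * u i with hV
  have hVU : V + U = K • r := by
    ext i
    simp only [hV, hU, Pi.add_apply, Pi.smul_apply, smul_eq_mul]
    have : M * u i ≤ K * r i := Nat.mul_le_mul hKM (hru i)
    omega
  have hKr : ∀ y : ℕ, (y * K) • r = y • U + y • V := by
    intro y
    rw [mul_smul, ← hVU, smul_add, add_comm]
  refine ⟨q0 + n1 • r, U, V, M ∈ H, b, ?_⟩
  intro x y
  rcases lt_trichotomy x y with hxy | hxy | hxy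
  · -- x < y
    have e1 : ((x < y ∧ M ∈ H) ∨ (x = y ∧ b) ∨ (y < x ∧ ¬ b)) ↔ M ∈ H := by
      constructor
      · rintro (h | h | h)
        · exact h.2
        · omega
        · omega
      · intro h; exact Or.inl ⟨hxy, h⟩
    rw [e1]
    obtain ⟨z, hz⟩ : ∃ z, y = x + (z + 1) := ⟨y - x - 1, by omega⟩
    rw [← hMz z]
    set w := q0 + n1 • r + x • U + y • V with hw
    have hwe : q0 + (n1 + y * K) • r = w + ((z + 1) * M) • u := by
      have h2 : y • U = x • U + ((z + 1) * M) • u := by
        rw [hz, add_smul x (z + 1) U, mul_smul (z + 1) M u]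
      rw [add_smul n1, hKr y, h2, hw]
      abel
    -- membership of w in P iff (n1+yK, (z+1)M) ∈ G
    have hwG : w ∈ P ↔ ![n1 + y * K, (z + 1) * M] ∈ G := by
      constructor
      · intro h
        exact ⟨w, h, by simpa using hwe⟩
      · rintro ⟨w', hw', he⟩
        simp only [Matrix.cons_val_zero, Matrix.cons_val_one] at he
        have : w' = w := add_right_cancel (he.symm.trans hwe)
        rw [← this]
        exact hw'
    rw [hwG]
    set j := (z + 1) * M with hj
    have hjy : j ≤ y * M := by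
      rw [hj, hz]
      exact Nat.mul_le_mul_right _ (by omega)
    have hbase : ![n1 + n1 * j, j] ∈ G ↔ j ∈ H := by
      change _ ↔ φ j + ![n1, 0] ∈ G
      have : φ j + ![n1, 0] = ![n1 + n1 * j, j] := by
        change ![n1 * j, j] + ![n1, 0] = _
        ext i
        fin_cases i
        · simp [add_comm]
        · simp
      rw [this]
    rw [← hbase]
    have hn1C : C2 ≤ n1 := by
      rw [hn1]
      calc C2 ≤ C3 := by omega
        _ ≤ N2 * C3 := Nat.le_mul_of_pos_left _ hN2
    have h3 := UProp.iter hC2 (C3 * (y * M - j)) ![n1 + n1 * j, j] (by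
      rw [hoth]
      simp only [Matrix.cons_val_zero, Matrix.cons_val_one]
      nlinarith)
    rw [h3]
    have h4 : ![n1 + n1 * j, j] + Pi.single 0 (C3 * (y * M - j) * N2) = ![n1 + y * K, j] := by
      ext i
      fin_cases i
      · simp only [Fin.zero_eta, Pi.add_apply, Matrix.cons_val_zero, Pi.single_eq_same]
        have h5 : y * K = n1 * (y * M) := by rw [hK, hn1]; ring
        have h6 : C3 * (y * M - j) * N2 = n1 * (y * M - j) := by rw [hn1]; ring
        rw [h5, h6, add_assoc, ← mul_add, Nat.add_sub_cancel' hjy]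
      · simp
    rw [h4]
  · -- x = y
    subst hxy
    have e1 : ((x < x ∧ M ∈ H) ∨ (x = x ∧ b) ∨ (x < x ∧ ¬ b)) ↔ b := by
      constructor
      · rintro (h | h | h)
        · omega
        · exact h.2
        · omega
      · intro h; exact Or.inr (Or.inl ⟨rfl, h⟩)
    rw [e1]
    have : q0 + n1 • r + x • U + x • V = q0 + (n1 + x * K) • r := by
      rw [add_smul n1, hKr x]
      abel
    rw [this]
    exact hb _
  · -- y < x
    have e1 : ((x < y ∧ M ∈ H) ∨ (x = y ∧ b) ∨ (y < x ∧ ¬ b)) ↔ ¬ b := by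
      constructor
      · rintro (h | h | h)
        · omega
        · omega
        · exact h.2
      · intro h; exact Or.inr (Or.inr ⟨hxy, h⟩)
    rw [e1]
    obtain ⟨z, hz⟩ : ∃ z, x = y + (z + 1) := ⟨x - y - 1, by omega⟩
    have h1 : q0 + n1 • r + x • U + y • V = q0 + (n1 + y * K) • r + ((z + 1) * M) • u := by
      rw [hz, add_smul y (z + 1) U, add_smul n1, hKr y, mul_smul (z + 1) M u]
      abel
    rw [h1]
    obtain ⟨t, ht⟩ : ∃ t, (z + 1) * M = t + 1 :=
      ⟨(z + 1) * M - 1, (Nat.sub_add_cancel (Nat.mul_pos (Nat.succ_pos z) hMpos)).symm⟩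
    rw [ht]
    exact hnb _ _

end Pool.Agent.Helper178.SemilinearSection
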