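import Mathlib
import Pool.Agent.Helper948.Nfa

set_option autoImplicit false

open Pool.Agent.Helper948.Nfa

namespace Pool.Agent.Helper178.UnaryTC

/-- A Boolean system with coordinates `W` and transition relation `E` which, after a tail of length
`t`, computes the set `L` of natural numbers. -/
structure Sys (L : Set ℕ) (t : ℕ) (W : Type) where
  x : ℕ → Set W
  E : W → W → Prop
  F : Set W
  zero : x 0 = ∅
  fwd : ∀ θ u v, u ∈ x θ → E u v → v ∈ x (θ + 1)
  bwd : ∀ θ v, t + 1 ≤ θ → v ∈ x (θ + 1) → ∃ u ∈ x θ, E u v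
  sound : ∀ θ u, u ∈ x θ → u ∈ F → θ ∈ L
  complete : ∀ θ, t + 1 ≤ θ → θ ∈ L → ∃ u ∈ x θ, u ∈ F

variable {L : Set ℕ} {t : ℕ} {W : Type}

/-- new state sets -/
def stepX (S : Sys L t W) (B : Set W) : ℕ → Set ({w // w ∉ B} ⊕ {a // ∃ b ∈ B, S.E a b})
  | 0 => ∅
  | θ + 1 => {z | Sum.elim (fun w => w.1 ∈ S.x (θ + 1)) (fun a => a.1 ∈ S.x θ) z}

/-- new transition relation -/
def stepE (S : Sys L t W) (B : Set W) (z z' : {w // w ∉ B} ⊕ {a // ∃ b ∈ B, S.E a b}) : Prop :=
  Sum.elim
    (fun u => Sum.elim (fun c => S.E u.1 c.1) (fun c => u.1 = c.1) z')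
    (fun a => Sum.elim (fun c => ∃ b ∈ B, S.E a.1 b ∧ S.E b c.1) (fun c => c.1 ∈ B ∧ S.E a.1 c.1) z')
    z

/-- new accepting set -/
def stepF (S : Sys L t W) (B : Set W) : Set ({w // w ∉ B} ⊕ {a // ∃ b ∈ B, S.E a b}) :=
  {z | Sum.elim (fun w => w.1 ∈ S.F) (fun a => ∃ b ∈ B, b ∈ S.F ∧ S.E a.1 b) z}

/-- The coordinates in `B` are replaced by their predecessors. -/
def step (S : Sys L t W) (B : Set W) :
    Sys L (t + 1) ({w // w ∉ B} ⊕ {a // ∃ b ∈ B, S.E a b}) where
  x := stepX S B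
  E := stepE S B
  F := stepF S B
  zero := rfl
  fwd := by
    rintro (_ | θ) u v hu hE
    · exact absurd hu (by simp [stepX])
    · rcases u with u | a <;> rcases v with c | c
      · exact S.fwd _ _ _ (show u.1 ∈ S.x (θ + 1) from hu) hE
      · have h1 : u.1 ∈ S.x (θ + 1) := hu
        have h2 : u.1 = c.1 := hE
        exact (show c.1 ∈ S.x (θ + 1) from h2 ▸ h1)
      · obtain ⟨b, hb, h1, h2⟩ : ∃ b ∈ B, S.E a.1 b ∧ S.E b c.1 := hE
        exact S.fwd _ _ _ (S.fwd _ _ _ (show a.1 ∈ S.x θ from hu) h1) h2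
      · have h1 : c.1 ∈ B ∧ S.E a.1 c.1 := hE
        exact (show c.1 ∈ S.x (θ + 1) from S.fwd _ _ _ (show a.1 ∈ S.x θ from hu) h1.2)
  bwd := by
    rintro (_ | θ) v ht hv
    · omega
    · have ht' : t + 1 ≤ θ := by omega
      rcases v with c | c
      · have h1 : c.1 ∈ S.x (θ + 1 + 1) := hv
        obtain ⟨u, hu, hE⟩ := S.bwd _ _ (by omega) h1
        by_cases huB : u ∈ B
        · obtain ⟨a, ha, hE'⟩ := S.bwd _ _ ht' hu
          exact ⟨Sum.inr ⟨a, u, huB, hE'⟩, ha, ⟨u, huB, hE', hE⟩⟩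
        · exact ⟨Sum.inl ⟨u, huB⟩, hu, hE⟩
      · have h1 : c.1 ∈ S.x (θ + 1) := hv
        by_cases hcB : c.1 ∈ B
        · obtain ⟨a, ha, hE'⟩ := S.bwd _ _ ht' h1
          exact ⟨Sum.inr ⟨a, c.1, hcB, hE'⟩, ha, ⟨hcB, hE'⟩⟩
        · exact ⟨Sum.inl ⟨c.1, hcB⟩, h1, rfl⟩
  sound := by
    rintro (_ | θ) u hu hF
    · exact absurd hu (by simp [stepX])
    · rcases u with u | a
      · exact S.sound _ _ (show u.1 ∈ S.x (θ + 1) from hu) hF
      · obtain ⟨b, hb, h1, h2⟩ : ∃ b ∈ B, b ∈ S.F ∧ S.E a.1 b := hF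
        exact S.sound _ _ (S.fwd _ _ _ (show a.1 ∈ S.x θ from hu) h2) h1
  complete := by
    rintro (_ | θ) ht hθ
    · omega
    · obtain ⟨u, hu, hF⟩ := S.complete _ (by omega) hθ
      by_cases huB : u ∈ B
      · obtain ⟨a, ha, hE'⟩ := S.bwd _ _ (by omega) hu
        exact ⟨Sum.inr ⟨a, u, huB, hE'⟩, ha, ⟨u, huB, hF, hE'⟩⟩
      · exact ⟨Sum.inl ⟨u, huB⟩, hu, hF⟩

theorem exists_perm (L : Set ℕ) : ∀ (n t : ℕ) (W : Type) [Fintype W], Fintype.card W ≤ n →
    ∀ S : Sys L t W, ∃ (t' : ℕ) (W' : Type) (_ : Fintype W') (S' : Sys L t' W')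
      (π : Equiv.Perm W'), (∀ u, S'.E u (π u)) ∧ t' + Fintype.card W' ≤ t + Fintype.card W := by
  classical
  intro n
  induction n with
  | zero =>
    intro t W _ hW S
    have : IsEmpty W := Fintype.card_eq_zero_iff.1 (by omega)
    exact ⟨t, W, inferInstance, S, Equiv.refl W, fun u => isEmptyElim u, le_rfl⟩
  | succ n ih =>
    intro t W _ hW S
    by_cases hH : ∀ s : Finset W, s.card ≤ (s.biUnion fun b => Finset.univ.filter fun a => S.E a b).card
    · obtain ⟨f, hf, hf'⟩ := (Finset.all_card_le_biUnion_card_iff_exists_injective _).1 hH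
      have hb : Function.Bijective f := Finite.injective_iff_bijective.1 hf
      let e := Equiv.ofBijective f hb
      refine ⟨t, W, inferInstance, S, e.symm, ?_, le_rfl⟩
      intro u
      have h1 := hf' (e.symm u)
      rw [Finset.mem_filter] at h1
      have h2 : f (e.symm u) = u := e.apply_symm_apply u
      rw [h2] at h1
      exact h1.2
    · push Not at hH
      obtain ⟨B, hB⟩ := hH
      have hcard : Fintype.card ({w // w ∉ (B : Set W)} ⊕ {a // ∃ b ∈ (B : Set W), S.E a b}) + 1 ≤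
          Fintype.card W := by
        rw [Fintype.card_sum]
        have h1 : Fintype.card {w // w ∉ (B : Set W)} = Fintype.card W - B.card := by
          have := Fintype.card_subtype_compl (fun w => w ∈ (B : Set W))
          rw [this]
          congr 1
          simp
        have h2 : Fintype.card {a // ∃ b ∈ (B : Set W), S.E a b} =
            (B.biUnion fun b => Finset.univ.filter fun a => S.E a b).card := by
          rw [Fintype.card_subtype]
          congr 1
          ext a
          simp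
        have h3 := B.card_le_univ
        rw [h1, h2]
        omega
      obtain ⟨t', W', i, S', π, h1, h2⟩ := ih (t + 1) _ (by omega) (step S (B : Set W))
      exact ⟨t', W', i, S', π, h1, by omega⟩

section sparse

/-- presence of a state at time `θ` -/
def Pres (S : Sys L t W) (θ : ℕ) (q : Fin (t + 1) ⊕ W) : Prop :=
  Sum.elim (fun i => i.1 = θ) (fun v => v ∈ S.x θ) q

theorem persist (S : Sys L t W) (π : Equiv.Perm W) (hπ : ∀ u, S.E u (π u)) (u : W) (θ k : ℕ)
    (h : (π ^ θ) u ∈ S.x θ) : (π ^ (θ + k)) u ∈ S.x (θ + k) := by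
  induction k with
  | zero => exact h
  | succ k ih =>
    have h1 := S.fwd _ _ _ ih (hπ _)
    have h2 : (π ^ (θ + (k + 1))) u = π ((π ^ (θ + k)) u) := by
      rw [← add_assoc, pow_succ']; rfl
    rw [h2]
    exact h1

theorem exists_witness (S : Sys L t W) (π : Equiv.Perm W) {Γ : Type} (c : Γ) (u : W) :
    ∃ s : Finset ((Fin (t + 1) ⊕ W) × Γ × (Fin (t + 1) ⊕ W)), s.card ≤ 1 ∧
      (∀ e ∈ s, ∀ θ, Pres S θ e.1 → Pres S (θ + 1) e.2.2) ∧
      (∀ θ, (π ^ (θ + 1)) u ∈ S.x (θ + 1) → (∀ θ', θ' < θ + 1 → (π ^ θ') u ∉ S.x θ') →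
        ∃ q, Pres S θ q ∧ (q, c, Sum.inr ((π ^ (θ + 1)) u)) ∈ s) := by
  classical
  by_cases h : ∃ θ, (π ^ θ) u ∈ S.x θ
  · have hspec := Nat.find_spec h
    have hmin : ∀ θ', θ' < Nat.find h → (π ^ θ') u ∉ S.x θ' := fun θ' h' => Nat.find_min h h'
    have huniq : ∀ θ, (π ^ (θ + 1)) u ∈ S.x (θ + 1) →
        (∀ θ', θ' < θ + 1 → (π ^ θ') u ∉ S.x θ') → Nat.find h = θ + 1 := by
      intro θ h1 h2
      rcases lt_trichotomy (Nat.find h) (θ + 1) with h3 | h3 | h3
      · exact absurd hspec (h2 _ h3)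
      · exact h3
      · exact absurd h1 (hmin _ h3)
    rcases hN : Nat.find h with _ | θ₀
    · rw [hN, S.zero] at hspec
      exact absurd hspec (by simp)
    · rw [hN] at hspec
      by_cases hw : ∃ w ∈ S.x θ₀, S.E w ((π ^ (θ₀ + 1)) u)
      · obtain ⟨w, hw1, hw2⟩ := hw
        refine ⟨{(Sum.inr w, c, Sum.inr ((π ^ (θ₀ + 1)) u))}, by simp, ?_, ?_⟩
        · intro e he θ hθ
          rw [Finset.mem_singleton] at he
          subst he
          exact S.fwd _ _ _ (show w ∈ S.x θ from hθ) hw2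
        · intro θ h1 h2
          have h3 := huniq θ h1 h2
          have h4 : θ₀ = θ := by omega
          subst h4
          exact ⟨Sum.inr w, hw1, Finset.mem_singleton_self _⟩
      · have hle : θ₀ < t + 1 := by
          by_contra hcon
          exact hw (S.bwd _ _ (by omega) hspec)
        refine ⟨{(Sum.inl ⟨θ₀, hle⟩, c, Sum.inr ((π ^ (θ₀ + 1)) u))}, by simp, ?_, ?_⟩
        · intro e he θ hθ
          rw [Finset.mem_singleton] at he
          subst he
          have h4 : θ₀ = θ := hθ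
          subst h4
          exact hspec
        · intro θ h1 h2
          have h3 := huniq θ h1 h2
          have h4 : θ₀ = θ := by omega
          subst h4
          exact ⟨Sum.inl ⟨θ₀, hle⟩, rfl, Finset.mem_singleton_self _⟩
  · refine ⟨∅, by simp, by simp, ?_⟩
    intro θ h1 _
    exact absurd ⟨_, h1⟩ h

theorem exists_tnfa [Fintype W] (S : Sys L t W) (π : Equiv.Perm W) (hπ : ∀ u, S.E u (π u))
    {Γ : Type} (c : Γ) :
    ∃ (Q : Type) (_ : Fintype Q) (A : TNFA Γ Q),
      (∀ n, List.replicate n c ∈ A.lang ↔ n ∈ L) ∧ A.trans.card ≤ t + 2 * Fintype.card W := by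
  classical
  choose s hs1 hs2 hs3 using fun u => exists_witness S π c u
  let T₁ : Finset ((Fin (t + 1) ⊕ W) × Γ × (Fin (t + 1) ⊕ W)) :=
    Finset.univ.image (fun i : Fin t => (Sum.inl i.castSucc, c, Sum.inl i.succ))
  let T₂ : Finset ((Fin (t + 1) ⊕ W) × Γ × (Fin (t + 1) ⊕ W)) :=
    Finset.univ.image (fun u : W => (Sum.inr u, c, Sum.inr (π u)))
  let T₃ : Finset ((Fin (t + 1) ⊕ W) × Γ × (Fin (t + 1) ⊕ W)) := Finset.univ.biUnion s
  let A : TNFA Γ (Fin (t + 1) ⊕ W) :=
    { start := Sum.inl 0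
      accept := {q | Sum.elim (fun i => i.1 ∈ L) (fun v => v ∈ S.F) q}
      trans := T₁ ∪ T₂ ∪ T₃ }
  have hlegal : ∀ e ∈ A.trans, ∀ θ, Pres S θ e.1 → Pres S (θ + 1) e.2.2 := by
    intro e he θ hθ
    change e ∈ T₁ ∪ T₂ ∪ T₃ at he
    rw [Finset.mem_union, Finset.mem_union] at he
    rcases he with (he | he) | he
    · simp only [T₁, Finset.mem_image, Finset.mem_univ, true_and] at he
      obtain ⟨i, rfl⟩ := he
      have h1 : i.1 = θ := hθ
      show i.1 + 1 = θ + 1
      rw [h1]
    · simp only [T₂, Finset.mem_image, Finset.mem_univ, true_and] at he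
      obtain ⟨u, rfl⟩ := he
      exact S.fwd _ _ _ (show u ∈ S.x θ from hθ) (hπ u)
    · simp only [T₃, Finset.mem_biUnion, Finset.mem_univ, true_and] at he
      obtain ⟨u, hu⟩ := he
      exact hs2 u e hu θ hθ
  have hpath1 : ∀ n q, A.Path A.start (List.replicate n c) q → Pres S n q := by
    intro n
    induction n with
    | zero =>
      intro q h
      rw [List.replicate_zero, path_nil_iff] at h
      subst h
      rfl
    | succ n ih =>
      intro q h
      rw [List.replicate_succ', path_append_iff] at h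
      obtain ⟨p, h1, h2⟩ := h
      rw [path_cons_iff] at h2
      obtain ⟨q', h3, h4⟩ := h2
      rw [path_nil_iff] at h4
      subst h4
      exact hlegal _ h3 n (ih _ h1)
  have hpath2 : ∀ n q, Pres S n q → A.Path A.start (List.replicate n c) q := by
    intro n
    induction n with
    | zero =>
      intro q h
      rw [List.replicate_zero, path_nil_iff]
      rcases q with i | v
      · have h1 : i.1 = 0 := h
        have h2 : i = 0 := Fin.ext h1
        rw [h2]
      · have h1 : v ∈ S.x 0 := h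
        rw [S.zero] at h1
        exact absurd h1 (by simp)
    | succ n ih =>
      intro q h
      rw [List.replicate_succ', path_append_iff]
      rcases q with i | v
      · have h1 : i.1 = n + 1 := h
        have h2 : n < t := by have := i.2; omega
        refine ⟨Sum.inl (⟨n, h2⟩ : Fin t).castSucc, ih _ rfl, ?_⟩
        rw [path_cons_iff]
        refine ⟨Sum.inl i, ?_, TNFA.Path.nil _⟩
        change _ ∈ T₁ ∪ T₂ ∪ T₃
        rw [Finset.mem_union, Finset.mem_union]
        left; left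
        simp only [T₁, Finset.mem_image, Finset.mem_univ, true_and]
        refine ⟨⟨n, h2⟩, ?_⟩
        have h3 : (⟨n, h2⟩ : Fin t).succ = i := Fin.ext (by simp [h1])
        rw [h3]
      · have h1 : v ∈ S.x (n + 1) := h
        obtain ⟨u, rfl⟩ : ∃ u, (π ^ (n + 1)) u = v := ⟨(π ^ (n + 1)).symm v, by simp⟩
        by_cases hex : ∃ θ', θ' < n + 1 ∧ (π ^ θ') u ∈ S.x θ'
        · obtain ⟨θ', h2, h3⟩ := hex
          obtain ⟨k, hk⟩ := Nat.exists_eq_add_of_le (Nat.lt_succ_iff.1 h2)
          have h4 := persist S π hπ u θ' k h3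
          rw [← hk] at h4
          refine ⟨Sum.inr ((π ^ n) u), ih _ h4, ?_⟩
          rw [path_cons_iff]
          refine ⟨_, ?_, TNFA.Path.nil _⟩
          change _ ∈ T₁ ∪ T₂ ∪ T₃
          rw [Finset.mem_union, Finset.mem_union]
          left; right
          simp only [T₂, Finset.mem_image, Finset.mem_univ, true_and]
          refine ⟨(π ^ n) u, ?_⟩
          rw [pow_succ']
          rfl
        · push Not at hex
          obtain ⟨q, hq1, hq2⟩ := hs3 u n h1 hex
          refine ⟨q, ih _ hq1, ?_⟩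
          rw [path_cons_iff]
          refine ⟨_, ?_, TNFA.Path.nil _⟩
          change _ ∈ T₁ ∪ T₂ ∪ T₃
          rw [Finset.mem_union]
          right
          simp only [T₃, Finset.mem_biUnion, Finset.mem_univ, true_and]
          exact ⟨u, hq2⟩
  refine ⟨Fin (t + 1) ⊕ W, inferInstance, A, ?_, ?_⟩
  · intro n
    rw [mem_lang]
    constructor
    · rintro ⟨q, hq, hp⟩
      have h1 := hpath1 n q hp
      rcases q with i | v
      · have h2 : i.1 = n := h1
        have h3 : i.1 ∈ L := hq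
        exact h2 ▸ h3
      · exact S.sound n v h1 hq
    · intro hn
      by_cases hnt : n < t + 1
      · exact ⟨Sum.inl ⟨n, hnt⟩, hn, hpath2 _ _ rfl⟩
      · obtain ⟨v, hv, hF⟩ := S.complete n (by omega) hn
        exact ⟨Sum.inr v, hF, hpath2 _ _ hv⟩
  · change (T₁ ∪ T₂ ∪ T₃).card ≤ _
    have h1 : T₁.card ≤ t := by
      refine Finset.card_image_le.trans ?_
      simp
    have h2 : T₂.card ≤ Fintype.card W := by
      refine Finset.card_image_le.trans ?_
      simp
    have h3 : T₃.card ≤ Fintype.card W := by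
      refine Finset.card_biUnion_le.trans ?_
      refine (Finset.sum_le_card_nsmul _ _ 1 (fun u _ => hs1 u)).trans ?_
      simp
    have h4 := Finset.card_union_le (T₁ ∪ T₂) T₃
    have h5 := Finset.card_union_le T₁ T₂
    omega

end sparse

end Pool.Agent.Helper178.UnaryTC
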