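import Mathlib
import Pool.Agent.Helper948.Nfa
import Pool.Agent.Helper178.UnaryCore

set_option autoImplicit false

open Pool.Agent.Helper948.Nfa

namespace Pool.Agent.Helper178.UnaryTC

/-- The system of reachable states of the inverse image of `A` on a one letter alphabet. -/
def initSys {Γ σ Q : Type} (A : TNFA σ Q) (U : Set Q) (hstart : A.start ∈ U)
    (hU : ∀ p a q, (p, a, q) ∈ A.trans → q ∈ U) (h : Γ → List σ) (c : Γ) :
    Sys {n | List.replicate n c ∈ inverseImage h A.lang} 0 {q // q ∈ U} where
  x := fun θ => match θ with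
    | 0 => ∅
    | θ + 1 => {q | A.Path A.start ((List.replicate (θ + 1) c).flatMap h) q.1}
  E := fun p q => A.Path p.1 (h c) q.1
  F := {q | q.1 ∈ A.accept}
  zero := rfl
  fwd := by
    rintro (_ | θ) u v hu hE
    · exact absurd hu (by simp)
    · show A.Path A.start ((List.replicate (θ + 1 + 1) c).flatMap h) v.1
      rw [List.replicate_succ', List.flatMap_append, path_append_iff]
      refine ⟨u.1, hu, ?_⟩
      simpa using hE
  bwd := by
    rintro (_ | θ) v ht hv
    · omega
    · have hv' : A.Path A.start ((List.replicate (θ + 1 + 1) c).flatMap h) v.1 := hv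
      rw [List.replicate_succ', List.flatMap_append, path_append_iff] at hv'
      obtain ⟨q, h1, h2⟩ := hv'
      refine ⟨⟨q, path_end_mem hU h1 hstart⟩, h1, ?_⟩
      simpa using h2
  sound := by
    rintro (_ | θ) u hu hF
    · exact absurd hu (by simp)
    · exact ⟨u.1, hF, hu⟩
  complete := by
    rintro (_ | θ) ht hθ
    · omega
    · obtain ⟨f, hf, hp⟩ := hθ
      exact ⟨⟨f, path_end_mem hU hp hstart⟩, hp, hf⟩

theorem tc_inverseImage_unary {Γ σ : Type} [Fintype Γ] (hΓ : Fintype.card Γ = 1)
    {L : Language σ} (hL : Rec L) (h : Γ → List σ) :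
    tc (inverseImage h L) ≤ 2 * (tc L + 1) := by
  classical
  obtain ⟨Q, hQ, A, rfl, hcard⟩ := exists_tc hL
  obtain ⟨c, hc⟩ := Fintype.card_eq_one_iff.1 hΓ
  let U : Finset Q := insert A.start (A.trans.image fun e => e.2.2)
  have hUcard : U.card ≤ tc A.lang + 1 := by
    refine (Finset.card_insert_le _ _).trans ?_
    have := Finset.card_image_le (s := A.trans) (f := fun e => e.2.2)
    omega
  have hstart : A.start ∈ (U : Set Q) := by
    simp [U]
  have hU : ∀ p a q, (p, a, q) ∈ A.trans → q ∈ (U : Set Q) := by
    intro p a q hpq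
    simp only [U, Finset.coe_insert, Finset.coe_image, Set.mem_insert_iff, Set.mem_image,
      Finset.mem_coe]
    right
    exact ⟨_, hpq, rfl⟩
  have hW : Fintype.card {q // q ∈ (U : Set Q)} = U.card := by
    simp
  obtain ⟨t', W', i, S', π, hπ, hle⟩ :=
    exists_perm {n | List.replicate n c ∈ inverseImage h A.lang} _ 0 {q // q ∈ (U : Set Q)} le_rfl
      (initSys A (U : Set Q) hstart hU h c)
  obtain ⟨Q', hQ', B, hB, hBcard⟩ := exists_tnfa S' π hπ c
  have hlang : B.lang = inverseImage h A.lang := by
    ext w
    have hw : w = List.replicate w.length c := by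
      rw [List.eq_replicate_iff]
      exact ⟨rfl, fun b _ => hc b⟩
    rw [hw]
    exact hB w.length
  have h1 := tc_le B
  rw [hlang] at h1
  rw [hW] at hle
  have hle' : t' + Fintype.card W' ≤ U.card := by omega
  have h2 : B.trans.card ≤ t' + 2 * Fintype.card W' := hBcard
  omega

/-- The language consisting of the single word of length `m`. -/
def single (m : ℕ) : Language Unit := {w | w.length = m}

theorem rep_unit (w : List Unit) : w = List.replicate w.length () := by
  rw [List.eq_replicate_iff]
  exact ⟨rfl, fun b _ => rfl⟩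

theorem mem_single {m : ℕ} {w : List Unit} : w ∈ single m ↔ w.length = m := Iff.rfl

theorem single_lower {m : ℕ} {Q : Type} [Fintype Q] (B : TNFA Unit Q) (hB : B.lang = single m) :
    m ≤ B.trans.card := by
  classical
  have hacc : List.replicate m () ∈ B.lang := by
    rw [hB, mem_single, List.length_replicate]
  obtain ⟨f, hf, hp⟩ := hacc
  have h1 : ∀ i : Fin m, ∃ e : Q × Unit × Q, e ∈ B.trans ∧
      B.Path B.start (List.replicate i.1 ()) e.1 ∧
      B.Path e.2.2 (List.replicate (m - 1 - i.1) ()) f := by
    intro i
    have hi := i.2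
    have h2 : List.replicate m () = List.replicate i.1 () ++ (() :: List.replicate (m - 1 - i.1) ()) := by
      rw [← List.replicate_succ, ← List.replicate_add]
      congr 1
      omega
    rw [h2, path_append_iff] at hp
    obtain ⟨q, h3, h4⟩ := hp
    rw [path_cons_iff] at h4
    obtain ⟨q', h5, h6⟩ := h4
    exact ⟨(q, (), q'), h5, h3, h6⟩
  choose e he1 he2 he3 using h1
  have hinj : Function.Injective e := by
    intro i j hij
    have h2 : List.replicate i.1 () ++ (() :: List.replicate (m - 1 - j.1) ()) ∈ B.lang := by
      refine ⟨f, hf, ?_⟩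
      rw [path_append_iff]
      refine ⟨(e i).1, he2 i, ?_⟩
      rw [path_cons_iff]
      refine ⟨(e i).2.2, he1 i, ?_⟩
      rw [hij]
      exact he3 j
    rw [hB, mem_single] at h2
    simp only [List.length_append, List.length_replicate, List.length_cons] at h2
    have hi := i.2
    have hj := j.2
    exact Fin.ext (by omega)
  have h3 := Finset.card_le_card_of_injOn (s := (Finset.univ : Finset (Fin m)))
    (t := B.trans) e (fun i _ => he1 i) (hinj.injOn)
  simpa using h3

/-- The path automaton for the word of length `m`. -/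
def pathAut (m : ℕ) : TNFA Unit (Fin (m + 1)) where
  start := 0
  accept := {Fin.last m}
  trans := Finset.univ.image (fun i : Fin m => (i.castSucc, (), i.succ))

theorem pathAut_path (m : ℕ) : ∀ (w : List Unit) (p q : Fin (m + 1)),
    (pathAut m).Path p w q ↔ q.1 = p.1 + w.length := by
  intro w
  induction w with
  | nil =>
    intro p q
    rw [path_nil_iff]
    simp only [List.length_nil, add_zero]
    constructor
    · rintro rfl; rfl
    · intro h; exact (Fin.ext h).symm
  | cons a w ih =>
    intro p q
    rw [path_cons_iff]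
    constructor
    · rintro ⟨r, h1, h2⟩
      rw [ih] at h2
      simp only [pathAut, Finset.mem_image, Finset.mem_univ, true_and, Prod.mk.injEq] at h1
      obtain ⟨i, rfl, _, rfl⟩ := h1
      simp only [Fin.val_succ, List.length_cons, Fin.val_castSucc] at h2 ⊢
      omega
    · intro h
      simp only [List.length_cons] at h
      have hq := q.2
      have hp : p.1 < m := by omega
      refine ⟨(⟨p.1, hp⟩ : Fin m).succ, ?_, ?_⟩
      · simp only [pathAut, Finset.mem_image, Finset.mem_univ, true_and, Prod.mk.injEq]
        exact ⟨⟨p.1, hp⟩, Fin.ext rfl, rfl⟩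
      · rw [ih]
        simp only [Fin.val_succ]
        omega

theorem pathAut_lang (m : ℕ) : (pathAut m).lang = single m := by
  ext w
  rw [mem_lang, mem_single]
  constructor
  · rintro ⟨q, hq, hp⟩
    have hq' : q = Fin.last m := hq
    subst hq'
    rw [pathAut_path] at hp
    have h0 : ((pathAut m).start).1 = 0 := rfl
    rw [h0] at hp
    simp only [Fin.val_last] at hp
    omega
  · intro h
    refine ⟨Fin.last m, rfl, ?_⟩
    rw [pathAut_path]
    have h0 : ((pathAut m).start).1 = 0 := rfl
    rw [h0, Fin.val_last]
    omega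

theorem tc_single (m : ℕ) : tc (single m) = m := by
  classical
  have hrec : Rec (single m) := ⟨_, inferInstance, pathAut m, pathAut_lang m⟩
  apply le_antisymm
  · have h1 := tc_le (pathAut m)
    rw [pathAut_lang] at h1
    refine h1.trans ?_
    refine Finset.card_image_le.trans ?_
    simp
  · obtain ⟨Q, hQ, B, hB, hcard⟩ := exists_tc hrec
    rw [← hcard]
    exact single_lower B hB

theorem le_g_one (m : ℕ) : m ≤ g 1 m := by
  apply le_csSup (g_bdd 1 m)
  refine ⟨Unit, Unit, inferInstance, inferInstance, fun _ => [()], single m, by simp,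
    isRegular_of_rec ⟨_, inferInstance, pathAut m, pathAut_lang m⟩, tc_single m, ?_⟩
  have h1 : inverseImage (fun _ : Unit => [()]) (single m) = single m := by
    ext w
    show w.flatMap (fun _ => [()]) ∈ single m ↔ _
    have h2 : w.flatMap (fun _ => [()]) = w := by
      simp
    rw [h2]
  rw [h1, tc_single]

theorem g_one_le (m : ℕ) : g 1 m ≤ 2 * m + 2 := by
  apply csSup_le (gValues_nonempty 1 m)
  rintro t ⟨Γ, σ, _, _, h, L, hk, hL, hm, rfl⟩
  have h1 := tc_inverseImage_unary hk (rec_of_isRegular hL) h
  rw [hm] at h1
  omega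

end Pool.Agent.Helper178.UnaryTC
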